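/-!
# The search program (to be evaluated by the kernel)

A row of 12 wires is coded by the number `∑ xᵢ 32ⁱ`, `xᵢ < 12`.
-/

set_option autoImplicit false

namespace Pool.Agent.Lib.MP_214199_co

/-- mask of the crossable adjacent pairs: bit `5 p + 4` is set iff `x_p / 2 < x_(p+1) / 2` -/
noncomputable def xm (row : Nat) : Nat :=
  Nat.land (Nat.sub (Nat.lor (Nat.shiftRight row 5) 595056260442243600)
    (Nat.add (Nat.lor row 37191016277640225) 37191016277640225)) 18595508138820112

/-- number of crossable adjacent pairs -/
noncomputable def xn (row : Nat) : Nat :=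
  Nat.mod (Nat.shiftRight (Nat.land (Nat.sub (Nat.lor (Nat.shiftRight row 5) 595056260442243600)
    (Nat.add (Nat.lor row 37191016277640225) 37191016277640225)) 18595508138820112) 4) 31

/-- number of adjacent pairs `x ≤ y` -/
noncomputable def yn (row : Nat) : Nat :=
  Nat.mod (Nat.shiftRight (Nat.land (Nat.sub (Nat.lor (Nat.shiftRight row 5) 595056260442243600) row)
    18595508138820112) 4) 31

/-- forces the evaluation of `n` -/
noncomputable def force (n : Nat) (k : Nat → Bool) : Bool :=
  Nat.rec (k 0) (fun m _ => k (Nat.succ m)) n

/-- `child (b - 4)` for all set bits `b` of `M ≠ 0` -/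
noncomputable def loop (child : Nat → Bool) (M : Nat) : Bool :=
  Nat.rec (motive := fun _ => Nat → Bool) (fun _ => false)
    (fun _ ih M => Bool.rec (motive := fun _ => Bool) false
      (Nat.rec (motive := fun _ => Bool) true (fun m _ => ih (Nat.succ m))
        (Nat.sub M (Nat.pow 2 (Nat.log2 M))))
      (force (Nat.sub (Nat.log2 M) 4) child)) 12 M

/-- `child (b - 4)` for all set bits `b ≥ k` of `M` -/
noncomputable def loopR (child : Nat → Bool) (M k : Nat) : Bool :=
  Nat.rec (motive := fun _ => Bool) true (fun m _ => loop child (Nat.succ m))
    (Nat.shiftLeft (Nat.shiftRight M k) k)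

/-- reversal of the block of 2 wires at bit `s` -/
noncomputable def row2 (row s : Nat) : Nat :=
  Nat.sub row (Nat.shiftLeft (Nat.mul 31
    (Nat.sub (Nat.land (Nat.shiftRight row (Nat.add s 5)) 31) (Nat.land (Nat.shiftRight row s) 31))) s)

/-- reversal of the block of 3 wires at bit `s` -/
noncomputable def row3 (row s : Nat) : Nat :=
  Nat.sub row (Nat.shiftLeft (Nat.mul 1023
    (Nat.sub (Nat.land (Nat.shiftRight row (Nat.add s 10)) 31) (Nat.land (Nat.shiftRight row s) 31))) s)

/-- reversal of the block of 4 wires at bit `s` -/
noncomputable def row4 (row s : Nat) : Nat :=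
  Nat.sub row (Nat.shiftLeft (Nat.add
    (Nat.mul 32767
      (Nat.sub (Nat.land (Nat.shiftRight row (Nat.add s 15)) 31) (Nat.land (Nat.shiftRight row s) 31)))
    (Nat.mul 992
      (Nat.sub (Nat.land (Nat.shiftRight row (Nat.add s 10)) 31)
        (Nat.land (Nat.shiftRight row (Nat.add s 5)) 31)))) s)

/-- check the bounds for a state and continue with `k` -/
noncomputable def chk (N : Nat → Nat) (alt c1 c2 : Nat) (k : Nat → Nat → Bool) (row D : Nat) : Bool :=
  force row fun row =>
    Bool.rec (motive := fun _ => Bool) true
      (Bool.rec (motive := fun _ => Bool) true (k row D)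
        (Nat.ble (Nat.add (Nat.mod (Nat.land (Nat.xor row alt) 37191016277640225) 31) (Nat.mul 2 D)) 18))
      (Nat.ble (Nat.add D c1) (Nat.add (N row) c2))

/-- expand a node: all moves of 3, 2, 4 wires (`last` is 5 times the last position); `X` is the mask of
the crossable pairs -/
noncomputable def expandX (LD : Nat) (ih : Nat → Nat → Nat → Bool) (row D last X : Nat) : Bool :=
  Bool.rec (motive := fun _ => Bool) false
    (Bool.rec (motive := fun _ => Bool) true
      (Bool.rec (motive := fun _ => Bool) false
        (Bool.rec (motive := fun _ => Bool) true
          (loopR (fun s => ih (row4 row s) (Nat.add D 3) s)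
            (Nat.land X (Nat.land (Nat.shiftRight X 5) (Nat.shiftRight X 10))) (Nat.sub last 15))
          (Nat.ble (Nat.add D 3) LD))
        (loopR (fun s => ih (row2 row s) (Nat.succ D) s) X (Nat.sub last 5)))
      (Nat.ble (Nat.succ D) LD))
    (loopR (fun s => ih (row3 row s) D s) (Nat.land X (Nat.shiftRight X 5)) (Nat.sub last 10))

/-- expand a node: the event, and all moves -/
noncomputable def expand (LD : Nat) (ev : Nat → Nat → Bool) (ih : Nat → Nat → Nat → Bool)
    (row D last : Nat) : Bool :=
  Bool.rec (motive := fun _ => Bool) false
    (force (xm row) (expandX LD ih row D last))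
    (ev row D)

/-- the search in one lune; `ev` is the event at the end of the lune -/
noncomputable def search (N : Nat → Nat) (alt c1 c2 LD : Nat) (ev : Nat → Nat → Bool) (fuel : Nat) :
    Nat → Nat → Nat → Bool :=
  Nat.rec (fun _ _ _ => false)
    (fun _ ih row D last => chk N alt c1 c2 (fun row D => expand LD ev ih row D last) row D) fuel

/-- the last event: is the final row reached? -/
noncomputable def evFin (row _D : Nat) : Bool :=
  Bool.rec (motive := fun _ => Bool) true false (Nat.beq row 36136725493621098)

/-- stage 3 -/
noncomputable def S3 : Nat → Nat → Nat → Bool := search yn 36064015784378400 0 3 9 evFin 70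

/-- `S`, provided that `X = E` -/
noncomputable def ifEq (X E : Nat) (S : Bool) : Bool :=
  Bool.rec (motive := fun _ => Bool) true S (Nat.beq X E)

/-- the clean event at the end of stage 2 -/
noncomputable def evA (row D : Nat) : Bool :=
  ifEq (Nat.land (xm row) 18032007892189200) 18032007892189200
    (S3 (Nat.lor (Nat.land (Nat.shiftRight row 5) 34937015291116575)
      (Nat.shiftLeft (Nat.land row 34937015291116575) 5)) D 0)

/-- stage 2 -/
noncomputable def S2 : Nat → Nat → Nat → Bool := search xn 1127000493261825 6 6 6 evA 70

/-- the blocks of the event at the end of stage 1; `r`: rest of the row, `s`: bit position, `t`: new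
row, `pf`: first wire of the previous block, `e`, `dd`: costs -/
noncomputable def blkC (k : Nat → Nat → Bool) (LE LDD : Nat) (row : Nat) : Bool :=
  Nat.rec (motive := fun _ => Nat → Nat → Nat → Nat → Nat → Nat → Bool)
    (fun _ _ _ _ _ _ => false)
    (fun _ ih r s t pf e dd =>
      Bool.rec (motive := fun _ => Bool)
        (force (Nat.land r 31) fun x =>
          Bool.rec (motive := fun _ => Bool) false
            (force (Nat.land (Nat.shiftRight r 5) 31) fun y =>
              Bool.rec (motive := fun _ => Bool) true
                (Bool.rec (motive := fun _ => Bool) false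
                  (force (Nat.land (Nat.shiftRight r 10) 31) fun z =>
                    Bool.rec (motive := fun _ => Bool) true
                      (force (Nat.add (Nat.add e 7)
                          (Nat.mul 2 (Nat.sub 1 (Nat.sub (Nat.div z 2) (Nat.div pf 2))))) fun e1 =>
                        Bool.rec (motive := fun _ => Bool) true
                          (Bool.rec (motive := fun _ => Bool) true
                            (force (Nat.add dd 3) fun dd =>
                              force (Nat.add t (Nat.shiftLeft
                                (Nat.add z (Nat.add (Nat.mul 32 y) (Nat.mul 1024 x))) s)) fun t =>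
                              ih (Nat.shiftRight r 15) (Nat.add s 15) t x e1 dd)
                            (Nat.ble (Nat.add dd 3) LDD))
                          (Nat.ble e1 LE))
                      (Nat.ble (Nat.succ (Nat.div y 2)) (Nat.div z 2)))
                  (force (Nat.add e
                      (Nat.mul 2 (Nat.sub 1 (Nat.sub (Nat.div y 2) (Nat.div pf 2))))) fun e1 =>
                    Bool.rec (motive := fun _ => Bool) true
                      (force (Nat.add t (Nat.shiftLeft (Nat.add y (Nat.mul 32 x)) s)) fun t =>
                        ih (Nat.shiftRight r 10) (Nat.add s 10) t x e1 dd)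
                      (Nat.ble e1 LE)))
                (Nat.ble (Nat.succ (Nat.div x 2)) (Nat.div y 2)))
            (force (Nat.add (Nat.add e 1)
                (Nat.mul 2 (Nat.sub 1 (Nat.sub (Nat.div x 2) (Nat.div pf 2))))) fun e1 =>
              Bool.rec (motive := fun _ => Bool) true
                (Bool.rec (motive := fun _ => Bool) true
                  (force (Nat.add dd 1) fun dd => force (Nat.add t (Nat.shiftLeft x s)) fun t =>
                    ih (Nat.shiftRight r 5) (Nat.add s 5) t x e1 dd)
                  (Nat.ble (Nat.add dd 1) LDD))
                (Nat.ble e1 LE)))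
        (k t dd)
        (Nat.beq s 60)) 13 row 0 0 31 0 0

/-- the event at the end of stage 1 -/
noncomputable def evC (row D : Nat) : Bool :=
  blkC (fun t dd => S2 t (Nat.add D dd) 0) (Nat.sub 12 (Nat.mul 2 D)) (Nat.sub 6 (Nat.mul 2 D)) row

/-- stage 1 -/
noncomputable def S1 : Nat → Nat → Nat → Bool := search xn 36064015784378400 6 3 3 evC 70

/-- the clean event: are all pairs crossable? -/
noncomputable def evL (row _D : Nat) : Bool :=
  ifEq (Nat.land (xm row) 18032007892189200) 18032007892189200 false

/-- search for a lune with clean ends and small cost -/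
noncomputable def SL : Nat → Nat → Nat → Bool := search xn 36064015784378400 6 2 2 evL 70

end Pool.Agent.Lib.MP_214199_co
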