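import Pool.Agent.Lib.MP_214199_co.Row
import Pool.Agent.Lib.MP_214199_co.Search

/-!
# The masks of the search program
-/

set_option autoImplicit false

namespace Pool.Agent.Lib.MP_214199_co

namespace EncB

theorem split32 (a : ℕ) : a = a % 2 ^ 5 + 32 * (a / 2 ^ 5) := by omega

theorem and_digit {x y : ℕ} (A B : ℕ) (hx : x < 32) (hy : y < 32) :
    (x + 32 * A) &&& (y + 32 * B) = (x &&& y) + 32 * (A &&& B) := by
  have h1 : (x + 32 * A) % 2 ^ 5 = x := by omega
  have h2 : (x + 32 * A) / 2 ^ 5 = A := by omega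
  have h3 : (y + 32 * B) % 2 ^ 5 = y := by omega
  have h4 : (y + 32 * B) / 2 ^ 5 = B := by omega
  rw [split32 ((x + 32 * A) &&& (y + 32 * B)), Nat.and_mod_two_pow, Nat.and_div_two_pow, h1, h2, h3, h4]

theorem or_digit {x y : ℕ} (A B : ℕ) (hx : x < 32) (hy : y < 32) :
    (x + 32 * A) ||| (y + 32 * B) = (x ||| y) + 32 * (A ||| B) := by
  have h1 : (x + 32 * A) % 2 ^ 5 = x := by omega
  have h2 : (x + 32 * A) / 2 ^ 5 = A := by omega
  have h3 : (y + 32 * B) % 2 ^ 5 = y := by omega
  have h4 : (y + 32 * B) / 2 ^ 5 = B := by omega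
  rw [split32 ((x + 32 * A) ||| (y + 32 * B)), Nat.or_mod_two_pow, Nat.or_div_two_pow, h1, h2, h3, h4]

theorem xor_digit {x y : ℕ} (A B : ℕ) (hx : x < 32) (hy : y < 32) :
    (x + 32 * A) ^^^ (y + 32 * B) = (x ^^^ y) + 32 * (A ^^^ B) := by
  have h1 : (x + 32 * A) % 2 ^ 5 = x := by omega
  have h2 : (x + 32 * A) / 2 ^ 5 = A := by omega
  have h3 : (y + 32 * B) % 2 ^ 5 = y := by omega
  have h4 : (y + 32 * B) / 2 ^ 5 = B := by omega
  rw [split32 ((x + 32 * A) ^^^ (y + 32 * B)), Nat.xor_mod_two_pow, Nat.xor_div_two_pow, h1, h2, h3, h4]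

/-- `n` digits `d` -/
def rep (d : ℕ) : ℕ → ℕ
  | 0 => 0
  | n + 1 => d + 32 * rep d n

/-- bits of the pairs with `c` -/
def mk (c : ℕ → ℕ → Bool) : List ℕ → ℕ
  | [] => 0
  | [_] => 0
  | x :: y :: L => (if c x y then 1 else 0) + 32 * mk c (y :: L)

theorem mk_mod (c : ℕ → ℕ → Bool) : ∀ L : List ℕ, mk c L % 31 = cnt c L % 31
  | [] => rfl
  | [_] => rfl
  | x :: y :: L => by
    have := mk_mod c (y :: L)
    rw [mk, cnt]
    omega

theorem cnt_lt (c : ℕ → ℕ → Bool) : ∀ L : List ℕ, cnt c L ≤ L.length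
  | [] => le_rfl
  | [_] => by simp [cnt]
  | x :: y :: L => by
    have := cnt_lt c (y :: L)
    rw [cnt, List.length_cons]
    split <;> omega

theorem mk_mod_eq (c : ℕ → ℕ → Bool) {L : List ℕ} (hL : L.length = 12) :
    (16 * mk c L) >>> 4 % 31 = cnt c L := by
  have h1 := mk_mod c L
  have h2 := cnt_lt c L
  rw [Nat.shiftRight_eq_div_pow]
  omega

theorem cx_digit : ∀ x < 16, ∀ y < 16,
    (x ||| 1) + 1 ≤ 16 + y ∧ (16 + y - ((x ||| 1) + 1)) < 32 ∧
      (16 + y - ((x ||| 1) + 1)) &&& 16 = 16 * if cx x y then 1 else 0 := by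
  decide

theorem cy_digit : ∀ x < 16, ∀ y < 16,
    (16 + y - x) < 32 ∧ (16 + y - x) &&& 16 = 16 * if cy x y then 1 else 0 := by
  decide

theorem or16 : ∀ y < 16, y ||| 16 = 16 + y := by decide

theorem or1_lt : ∀ x < 16, x ||| 1 < 16 := by decide

theorem xm_ind : ∀ L : List ℕ, L ≠ [] → (∀ x ∈ L, x < 16) →
    (enc L ||| rep 1 L.length) + rep 1 L.length ≤ (enc L.tail ||| rep 16 L.length) ∧
    ((enc L.tail ||| rep 16 L.length) - ((enc L ||| rep 1 L.length) + rep 1 L.length)) &&&
      rep 16 (L.length - 1) = 16 * mk cx L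
  | [], h, _ => absurd rfl h
  | [x], _, h16 => by
    have hx : x < 16 := h16 x (by simp)
    have h1 := or1_lt x hx
    have h2 : enc [x] = x := by simp [enc]
    have h3 : enc [x].tail = 0 := by simp [enc]
    have h4 : rep 1 [x].length = 1 := by simp [rep]
    have h5 : rep 16 [x].length = 16 := by simp [rep]
    have h6 : rep 16 ([x].length - 1) = 0 := by simp [rep]
    rw [h2, h3, h4, h5, h6, Nat.and_zero, mk]
    refine ⟨?_, rfl⟩
    rw [Nat.zero_or]
    omega
  | x :: y :: L, _, h16 => by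
    have hx : x < 16 := h16 x (by simp)
    have hy : y < 16 := h16 y (by simp)
    obtain ⟨ih1, ih2⟩ := xm_ind (y :: L) (by simp) (fun z hz => h16 z (by simp [hz]))
    obtain ⟨c1, c2, c3⟩ := cx_digit x hx y hy
    have e1 : enc (x :: y :: L) = x + 32 * enc (y :: L) := rfl
    have e2 : enc (x :: y :: L).tail = y + 32 * enc L := rfl
    have e3 : ∀ d, rep d (x :: y :: L).length = d + 32 * rep d (y :: L).length := fun d => rfl
    have e4 : ∀ d, rep d ((x :: y :: L).length - 1) = d + 32 * rep d ((y :: L).length - 1) :=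
      fun d => rfl
    have e5 : enc (y :: L).tail = enc L := rfl
    rw [e5] at ih1 ih2
    rw [e1, e2, e3, e3, e4, or_digit _ _ (by omega) (by omega), or_digit _ _ (by omega) (by omega),
      or16 y hy, mk]
    set A := enc L ||| rep 16 (y :: L).length
    set B := enc (y :: L) ||| rep 1 (y :: L).length
    set C := rep 1 (y :: L).length
    refine ⟨by omega, ?_⟩
    have h1 : 16 + y + 32 * A - ((x ||| 1) + 32 * B + (1 + 32 * C)) =
        (16 + y - ((x ||| 1) + 1)) + 32 * (A - (B + C)) := by omega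
    rw [h1, and_digit _ _ c2 (by omega), c3, ih2]
    ring

theorem ym_ind : ∀ L : List ℕ, L ≠ [] → (∀ x ∈ L, x < 16) →
    enc L ≤ (enc L.tail ||| rep 16 L.length) ∧
    ((enc L.tail ||| rep 16 L.length) - enc L) &&& rep 16 (L.length - 1) = 16 * mk cy L
  | [], h, _ => absurd rfl h
  | [x], _, h16 => by
    have hx : x < 16 := h16 x (by simp)
    have h2 : enc [x] = x := by simp [enc]
    have h3 : enc [x].tail = 0 := by simp [enc]
    have h5 : rep 16 [x].length = 16 := by simp [rep]
    have h6 : rep 16 ([x].length - 1) = 0 := by simp [rep]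
    rw [h2, h3, h5, h6, Nat.and_zero, mk]
    refine ⟨?_, rfl⟩
    rw [Nat.zero_or]
    omega
  | x :: y :: L, _, h16 => by
    have hx : x < 16 := h16 x (by simp)
    have hy : y < 16 := h16 y (by simp)
    obtain ⟨ih1, ih2⟩ := ym_ind (y :: L) (by simp) (fun z hz => h16 z (by simp [hz]))
    obtain ⟨c2, c3⟩ := cy_digit x hx y hy
    have e1 : enc (x :: y :: L) = x + 32 * enc (y :: L) := rfl
    have e2 : enc (x :: y :: L).tail = y + 32 * enc L := rfl
    have e3 : ∀ d, rep d (x :: y :: L).length = d + 32 * rep d (y :: L).length := fun d => rfl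
    have e4 : ∀ d, rep d ((x :: y :: L).length - 1) = d + 32 * rep d ((y :: L).length - 1) :=
      fun d => rfl
    have e5 : enc (y :: L).tail = enc L := rfl
    rw [e5] at ih1 ih2
    rw [e1, e2, e3, e4, or_digit _ _ (by omega) (by omega), or16 y hy, mk]
    set A := enc L ||| rep 16 (y :: L).length
    set B := enc (y :: L)
    refine ⟨by omega, ?_⟩
    have h1 : 16 + y + 32 * A - (x + 32 * B) = (16 + y - x) + 32 * (A - B) := by omega
    rw [h1, and_digit _ _ c2 (by omega), c3, ih2]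
    ring

theorem enc_shift {L : List ℕ} (h16 : ∀ x ∈ L, x < 16) : enc L >>> 5 = enc L.tail := by
  cases L with
  | nil => rfl
  | cons x L =>
    have hx : x < 16 := h16 x (by simp)
    have e1 : enc (x :: L) = x + 32 * enc L := rfl
    rw [Nat.shiftRight_eq_div_pow, e1]
    change _ = enc L
    omega

theorem xm_eq {L : List ℕ} (hL : L.length = 12) (h16 : ∀ x ∈ L, x < 16) :
    xm (enc L) = 16 * mk cx L := by
  have h := (xm_ind L (by rintro rfl; simp at hL) h16).2
  rw [hL] at h
  rw [← h, ← enc_shift h16]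
  rfl

theorem ym_eq {L : List ℕ} (hL : L.length = 12) (h16 : ∀ x ∈ L, x < 16) :
    Nat.land (Nat.sub (Nat.lor (Nat.shiftRight (enc L) 5) 595056260442243600) (enc L))
      18595508138820112 = 16 * mk cy L := by
  have h := (ym_ind L (by rintro rfl; simp at hL) h16).2
  rw [hL] at h
  rw [← h, ← enc_shift h16]
  rfl

/-- the mask of the rows -/
def alt : ℕ → ℕ → ℕ
  | _, 0 => 0
  | b, n + 1 => b % 2 + 32 * alt (b + 1) n

theorem odd_digit : ∀ x < 16, ∀ b < 2, (x ^^^ b) &&& 1 = (x + b) % 2 := by decide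

theorem xor_lt32 : ∀ x < 16, ∀ b < 2, x ^^^ b < 32 := by decide

theorem odd_ind : ∀ (L : List ℕ) (b : ℕ), (∀ x ∈ L, x < 16) →
    ((enc L ^^^ alt b L.length) &&& rep 1 L.length) % 31 = odd b L % 31
  | [], b, _ => by simp [enc, rep, odd]
  | x :: L, b, h16 => by
    have hx : x < 16 := h16 x (by simp)
    have ih := odd_ind L (b + 1) (fun z hz => h16 z (by simp [hz]))
    have e1 : enc (x :: L) = x + 32 * enc L := rfl
    have e2 : alt b (x :: L).length = b % 2 + 32 * alt (b + 1) L.length := rfl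
    have e3 : rep 1 (x :: L).length = 1 + 32 * rep 1 L.length := rfl
    have e4 : odd b (x :: L) = (x + b) % 2 + odd (b + 1) L := rfl
    have hb : b % 2 < 2 := by omega
    rw [e1, e2, e3, e4, xor_digit _ _ (by omega) (by omega),
      and_digit _ _ (xor_lt32 x hx _ hb) (by omega), odd_digit x hx _ hb]
    have h1 : (x + b % 2) % 2 = (x + b) % 2 := by omega
    rw [h1]
    generalize (x + b) % 2 = w
    generalize ((enc L ^^^ alt (b + 1) L.length) &&& rep 1 L.length) = v at *
    omega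

theorem odd_le : ∀ (L : List ℕ) (b : ℕ), odd b L ≤ L.length
  | [], _ => le_rfl
  | x :: L, b => by
    have := odd_le L (b + 1)
    rw [odd, List.length_cons]
    omega

end EncB

open EncB

theorem xn_enc {L : List ℕ} (hL : L.length = 12) (h16 : ∀ x ∈ L, x < 16) :
    xn (enc L) = cnt cx L := by
  rw [← mk_mod_eq cx hL, ← xm_eq hL h16]
  rfl

theorem yn_enc {L : List ℕ} (hL : L.length = 12) (h16 : ∀ x ∈ L, x < 16) :
    yn (enc L) = cnt cy L := by
  rw [← mk_mod_eq cy hL, ← ym_eq hL h16]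
  rfl

theorem odd_enc0 {L : List ℕ} (hL : L.length = 12) (h16 : ∀ x ∈ L, x < 16) :
    Nat.mod (Nat.land (Nat.xor (enc L) 36064015784378400) 37191016277640225) 31 = odd 0 L := by
  have h1 := odd_ind L 0 h16
  have h2 := odd_le L 0
  rw [Nat.mod_eq_of_lt (a := odd 0 L) (by omega)] at h1
  rw [← h1, hL]
  rfl

theorem odd_enc1 {L : List ℕ} (hL : L.length = 12) (h16 : ∀ x ∈ L, x < 16) :
    Nat.mod (Nat.land (Nat.xor (enc L) 1127000493261825) 37191016277640225) 31 = odd 1 L := by
  have h1 := odd_ind L 1 h16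
  have h2 := odd_le L 1
  rw [Nat.mod_eq_of_lt (a := odd 1 L) (by omega)] at h1
  rw [← h1, hL]
  rfl

theorem mk_testBit {c : ℕ → ℕ → Bool} {x y : ℕ} : ∀ P Q : List ℕ,
    (16 * mk c (P ++ x :: y :: Q)).testBit (5 * P.length + 4) = c x y
  | [], Q => by
    have e1 : mk c ([] ++ x :: y :: Q) = (if c x y then 1 else 0) + 32 * mk c (y :: Q) := rfl
    rw [Nat.testBit_eq_decide_div_mod_eq, e1]
    cases c x y
    · simp
      omega
    · simp
      omega
  | p :: P, Q => by
    have ih := mk_testBit (c := c) (x := x) (y := y) P Q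
    obtain ⟨b, hb, e1⟩ : ∃ b ≤ 1, mk c (p :: P ++ x :: y :: Q) = b + 32 * mk c (P ++ x :: y :: Q) := by
      cases P with
      | nil =>
        refine ⟨if c p x then 1 else 0, ?_, rfl⟩
        split <;> omega
      | cons q P =>
        refine ⟨if c p q then 1 else 0, ?_, rfl⟩
        split <;> omega
    rw [e1]
    have e2 : 5 * (p :: P).length + 4 = (5 * P.length + 4) + 5 := by
      rw [List.length_cons]; ring
    rw [e2, ← ih, Nat.testBit_add]
    congr 1
    omega

theorem or_lt32 : ∀ x < 32, ∀ b < 32, x ||| b < 32 := by decide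

/-- `m` pairs of digits `d, 0` -/
def rep2 (d : ℕ) : ℕ → ℕ
  | 0 => 0
  | m + 1 => d + 32 * (0 + 32 * rep2 d m)

theorem and31 : ∀ x < 32, x &&& 31 = x := by decide

theorem evA_length {L L' : List ℕ} (h : EvA L L') : ∃ m, L.length = 2 * m := by
  induction h with
  | nil => exact ⟨0, rfl⟩
  | cons h _ ih =>
    obtain ⟨m, hm⟩ := ih
    exact ⟨m + 1, by simp [hm]; ring⟩

theorem xm_evA_ind {L L' : List ℕ} (h : EvA L L') : ∀ m : ℕ, L.length = 2 * m →
    (16 * mk cx L) &&& rep2 16 m = rep2 16 m := by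
  induction h with
  | nil =>
    intro m hm
    have : m = 0 := by simpa using hm.symm
    rw [this]
    rfl
  | @cons x y R out hxy hR ih =>
    intro m hm
    obtain ⟨m, rfl⟩ : ∃ m', m = m' + 1 := ⟨m - 1, by simp at hm; omega⟩
    have ih := ih m (by simp at hm; omega)
    have hc : cx x y = true := by simpa [cx] using hxy
    obtain ⟨b, hb, e1⟩ : ∃ b ≤ 1, mk cx (y :: R) = b + 32 * mk cx R := by
      cases R with
      | nil => exact ⟨0, by omega, rfl⟩
      | cons z R =>
        refine ⟨if cx y z then 1 else 0, ?_, rfl⟩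
        split <;> omega
    have e2 : mk cx (x :: y :: R) = 1 + 32 * (b + 32 * mk cx R) := by
      rw [mk, hc, e1]
      rfl
    have e3 : 16 * (1 + 32 * (b + 32 * mk cx R)) = 16 + 32 * (16 * b + 32 * (16 * mk cx R)) := by ring
    rw [e2, e3, rep2, and_digit _ _ (by omega) (by omega), and_digit _ _ (by omega) (by omega), ih]
    simp

theorem enc_evA_ind {L L' : List ℕ} (h : EvA L L') : ∀ m : ℕ, L.length = 2 * m →
    (∀ x ∈ L, x < 32) →
    (((enc L) >>> 5) &&& rep2 31 m) ||| (((enc L) &&& rep2 31 m) <<< 5) = enc L' := by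
  induction h with
  | nil =>
    intro m hm _
    have : m = 0 := by simpa using hm.symm
    rw [this]
    rfl
  | @cons x y R out hxy hR ih =>
    intro m hm h32
    obtain ⟨m, rfl⟩ : ∃ m', m = m' + 1 := ⟨m - 1, by simp at hm; omega⟩
    have ih := ih m (by simp at hm; omega) (fun z hz => h32 z (by simp [hz]))
    have hx : x < 32 := h32 x (by simp)
    have hy : y < 32 := h32 y (by simp)
    have e1 : enc (x :: y :: R) = x + 32 * (y + 32 * enc R) := rfl
    have e2 : enc (y :: x :: out) = y + 32 * (x + 32 * enc out) := rfl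
    have e3 : (x + 32 * (y + 32 * enc R)) >>> 5 = y + 32 * enc R := by
      rw [Nat.shiftRight_eq_div_pow]
      omega
    have e4 : enc R = enc R % 32 + 32 * (enc R >>> 5) := by
      rw [Nat.shiftRight_eq_div_pow]
      omega
    have e5 : (y + 32 * enc R) &&& rep2 31 (m + 1) = y + 32 * (0 + 32 * ((enc R >>> 5) &&& rep2 31 m)) := by
      conv_lhs => rw [e4, rep2]
      rw [and_digit _ _ hy (by omega), and_digit _ _ (by omega) (by omega), and31 y hy, Nat.and_zero]
    have e6 : (x + 32 * (y + 32 * enc R)) &&& rep2 31 (m + 1) =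
        x + 32 * (0 + 32 * (enc R &&& rep2 31 m)) := by
      rw [rep2, and_digit _ _ hx (by omega), and_digit _ _ hy (by omega), and31 x hx, Nat.and_zero]
    have e7 : (x + 32 * (0 + 32 * (enc R &&& rep2 31 m))) <<< 5 =
        0 + 32 * (x + 32 * ((enc R &&& rep2 31 m) <<< 5)) := by
      rw [Nat.shiftLeft_eq, Nat.shiftLeft_eq]
      ring
    rw [e1, e2, e3, e5, e6, e7, or_digit _ _ hy (by omega), or_digit _ _ (by omega) hx, ih]
    simp

/-- the bits of the mask -/
theorem xm_testBit {P Q : List ℕ} {x y : ℕ} (hL : (P ++ x :: y :: Q).length = 12)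
    (h16 : ∀ z ∈ P ++ x :: y :: Q, z < 16) :
    (xm (enc (P ++ x :: y :: Q))).testBit (5 * P.length + 4) = cx x y := by
  rw [xm_eq hL h16]
  exact mk_testBit P Q

/-- a row in which all pairs are crossable is recognized -/
theorem xm_evA {L L' : List ℕ} (h : EvA L L') (hL : L.length = 12) (h16 : ∀ x ∈ L, x < 16) :
    Nat.land (xm (enc L)) 18032007892189200 = 18032007892189200 := by
  rw [xm_eq hL h16]
  exact xm_evA_ind h 6 hL

/-- and the new row is computed -/
theorem enc_evA {L L' : List ℕ} (h : EvA L L') (hL : L.length = 12) (h16 : ∀ x ∈ L, x < 16) :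
    Nat.lor (Nat.land (Nat.shiftRight (enc L) 5) 34937015291116575)
      (Nat.shiftLeft (Nat.land (enc L) 34937015291116575) 5) = enc L' :=
  enc_evA_ind h 6 hL (fun x hx => lt_trans (h16 x hx) (by norm_num))

end Pool.Agent.Lib.MP_214199_co
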