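import Pool.Agent.Lib.MP_214199_co.Row

/-!
# The potentials are monotone
-/

set_option autoImplicit false

namespace Pool.Agent.Lib.MP_214199_co

/-- `c` holds for crossable pairs and fails for reversed crossable pairs -/
def GoodC (c : ℕ → ℕ → Bool) : Prop := ∀ x y, x / 2 < y / 2 → c x y = true ∧ c y x = false

theorem goodC_cx : GoodC cx := by
  intro x y h
  unfold cx
  exact ⟨by simpa using h, by simp; omega⟩

theorem goodC_cy : GoodC cy := by
  intro x y h
  unfold cy
  exact ⟨by simp; omega, by simp; omega⟩

private theorem potential_choose (r : ℕ) (hr : 5 ≤ r) : r + 5 ≤ r.choose 2 := by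
  induction r, hr using Nat.le_induction with
  | base => decide
  | succ r hr ih =>
    have h : (r + 1).choose 2 = r.choose 1 + r.choose 2 := Nat.choose_succ_succ' r 1
    rw [Nat.choose_one_right] at h
    rw [h]
    omega

theorem wt_bound (r : ℕ) (hr : 5 ≤ r) : 7 ≤ wt r ∧ r ≤ wt r := by
  have h := potential_choose r hr
  unfold wt
  rw [if_neg (by omega)]
  omega

private theorem potential_wt_two : wt 2 = 1 := rfl

private theorem potential_wt_three : wt 3 = 0 := rfl

private theorem potential_wt_four : wt 4 = 3 := rfl

theorem Move.length_eq {p r : ℕ} {L L' : List ℕ} (h : Move p r L L') : L'.length = L.length := by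
  obtain ⟨P, B, Q, rfl, rfl, _⟩ := h
  simp

theorem Move.perm {p r : ℕ} {L L' : List ℕ} (h : Move p r L L') : L'.Perm L := by
  obtain ⟨P, B, Q, rfl, rfl, _⟩ := h
  exact ((List.Perm.refl P).append (List.reverse_perm B)).append (List.Perm.refl Q)

theorem EvA.perm {L L' : List ℕ} (h : EvA L L') : L'.Perm L := by
  induction h with
  | nil => exact List.Perm.refl _
  | cons h1 h2 ih =>
    exact (List.Perm.swap _ _ _).trans ((ih.cons _).cons _)

theorem EvC.perm {L L' : List ℕ} {dd : ℕ} (h : EvC L L' dd) : L'.Perm L := by
  induction h with
  | nil => exact List.Perm.refl _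
  | cons h1 h2 h3 ih => exact (List.reverse_perm _).append ih

/-! ### Counting in lists -/

private theorem potential_cnt_cons_le (c : ℕ → ℕ → Bool) (x : ℕ) (L : List ℕ) :
    cnt c (x :: L) ≤ cnt c L + 1 := by
  cases L with
  | nil => simp [cnt]
  | cons y L =>
    rw [cnt]
    split_ifs <;> omega

private theorem potential_le_cnt_cons (c : ℕ → ℕ → Bool) (x : ℕ) (L : List ℕ) :
    cnt c L ≤ cnt c (x :: L) := by
  cases L with
  | nil => simp [cnt]
  | cons y L =>
    rw [cnt.eq_3]
    omega

private theorem potential_append_le (c : ℕ → ℕ → Bool) (P Q : List ℕ) :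
    cnt c (P ++ Q) ≤ cnt c P + cnt c Q + 1 := by
  induction P with
  | nil => simp [cnt]
  | cons x P ih =>
    cases P with
    | nil =>
      have := potential_cnt_cons_le c x Q
      simp only [List.cons_append, List.nil_append, cnt]
      omega
    | cons y P =>
      rw [List.cons_append, List.cons_append, cnt.eq_3, cnt.eq_3]
      rw [List.cons_append] at ih
      omega

private theorem potential_le_append (c : ℕ → ℕ → Bool) (P Q : List ℕ) :
    cnt c P + cnt c Q ≤ cnt c (P ++ Q) := by
  induction P with
  | nil => simp [cnt]
  | cons x P ih =>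
    cases P with
    | nil =>
      have := potential_le_cnt_cons c x Q
      simp only [List.cons_append, List.nil_append, cnt]
      omega
    | cons y P =>
      rw [List.cons_append, List.cons_append, cnt.eq_3, cnt.eq_3]
      rw [List.cons_append] at ih
      omega

private theorem potential_zero {c : ℕ → ℕ → Bool} (L : List ℕ)
    (h : L.Pairwise (fun x y => c x y = false)) : cnt c L = 0 := by
  induction L with
  | nil => rfl
  | cons x L ih =>
    cases L with
    | nil => rfl
    | cons y L =>
      rw [cnt.eq_3, ih (List.Pairwise.of_cons h)]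
      rw [List.pairwise_cons] at h
      rw [h.1 y List.mem_cons_self]
      rfl

private theorem potential_full {c : ℕ → ℕ → Bool} (L : List ℕ)
    (h : L.Pairwise (fun x y => c x y = true)) (hL : L ≠ []) : cnt c L + 1 = L.length := by
  induction L with
  | nil => exact absurd rfl hL
  | cons x L ih =>
    cases L with
    | nil => rfl
    | cons y L =>
      rw [cnt.eq_3, List.length_cons, ← ih (List.Pairwise.of_cons h) (List.cons_ne_nil y L)]
      rw [List.pairwise_cons] at h
      rw [h.1 y List.mem_cons_self, if_pos rfl]
      omega

private theorem potential_blk {c : ℕ → ℕ → Bool} (hc : GoodC c) {B : List ℕ} (hB : Blk B)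
    (h0 : B ≠ []) : cnt c B + 1 = B.length :=
  potential_full B (hB.imp fun {x y} h => (hc x y h).1) h0

private theorem potential_blk_reverse {c : ℕ → ℕ → Bool} (hc : GoodC c) {B : List ℕ}
    (hB : Blk B) : cnt c B.reverse = 0 :=
  potential_zero B.reverse (List.pairwise_reverse.mpr (hB.imp fun {x y} h => (hc x y h).2))

private theorem potential_odd_append (P Q : List ℕ) (b : ℕ) :
    odd b (P ++ Q) = odd b P + odd (b + P.length) Q := by
  induction P generalizing b with
  | nil => simp [odd]
  | cons x P ih =>
    rw [List.cons_append, odd, odd, ih, List.length_cons,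
      show b + 1 + P.length = b + (P.length + 1) by ring]
    omega

private theorem potential_odd_add_two (L : List ℕ) (b : ℕ) : odd (b + 2) L = odd b L := by
  induction L generalizing b with
  | nil => rfl
  | cons x L ih =>
    rw [odd, odd, show b + 2 + 1 = b + 1 + 2 by ring, ih]
    omega

private theorem potential_odd_le (L : List ℕ) (b : ℕ) : odd b L ≤ L.length := by
  induction L generalizing b with
  | nil => exact Nat.le_refl _
  | cons x L ih =>
    rw [odd, List.length_cons]
    have := ih (b + 1)
    omega

/-- a move of `r` wires removes `r - 1` good pairs and creates at most two -/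
theorem Move.cnt_le {c : ℕ → ℕ → Bool} (hc : GoodC c) {p r : ℕ} {L L' : List ℕ}
    (h : Move p r L L') : cnt c L' + r ≤ cnt c L + 3 := by
  obtain ⟨P, B, Q, rfl, rfl, hp, hr, h2, hB⟩ := h
  have h0 : B ≠ [] := by
    intro h
    rw [h, List.length_nil] at hr
    omega
  have h1 := potential_blk hc hB h0
  have h3 := potential_blk_reverse hc hB
  have h4 := potential_append_le c (P ++ B.reverse) Q
  have h5 := potential_append_le c P B.reverse
  have h6 := potential_le_append c (P ++ B) Q
  have h7 := potential_le_append c P B
  omega

/-- in particular the potential `D - cnt` is monotone -/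
theorem Move.cnt_le_wt {c : ℕ → ℕ → Bool} (hc : GoodC c) {p r : ℕ} {L L' : List ℕ}
    (h : Move p r L L') : cnt c L' ≤ cnt c L + wt r := by
  have h1 := h.cnt_le hc
  obtain ⟨P, B, Q, rfl, rfl, hp, hr, h2, hB⟩ := h
  rcases Nat.lt_or_ge r 3 with h3 | h3
  · have h4 : r = 2 := by omega
    rw [h4] at h1 ⊢
    rw [potential_wt_two]
    omega
  · omega

theorem Move.odd_le {p r : ℕ} {L L' : List ℕ} (h : Move p r L L') (b : ℕ) :
    odd b L ≤ odd b L' + 2 * wt r := by
  obtain ⟨P, B, Q, rfl, rfl, hp, hr, h2, hB⟩ := h
  have key : ∀ b : ℕ, odd b B ≤ odd b B.reverse + 2 * wt r := by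
    intro b
    have h1 := potential_odd_le B b
    rcases Nat.lt_or_ge r 5 with h5 | h5
    · interval_cases r
      · rw [potential_wt_two]
        omega
      · obtain ⟨x, y, z, rfl⟩ := List.length_eq_three.mp hr
        rw [potential_wt_three]
        simp only [List.reverse_cons, List.reverse_nil, List.nil_append, List.cons_append, odd]
        omega
      · rw [potential_wt_four]
        omega
    · have := (wt_bound r h5).2
      omega
  rw [potential_odd_append, potential_odd_append, potential_odd_append, potential_odd_append,
    List.length_append, List.length_append, List.length_reverse]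
  have := key (b + P.length)
  omega

theorem Steps.cnt_le {c : ℕ → ℕ → Bool} (hc : GoodC c) {L L' : List ℕ} {n : ℕ}
    (h : Steps L n L') : cnt c L' ≤ cnt c L + n := by
  induction h with
  | nil => exact Nat.le_refl _
  | cons h1 h2 ih =>
    have := h1.cnt_le_wt hc
    omega

theorem NSteps.cnt_le {c : ℕ → ℕ → Bool} (hc : GoodC c) {last : ℕ} {L L' : List ℕ} {n : ℕ}
    (h : NSteps last L n L') : cnt c L' ≤ cnt c L + n := by
  induction h with
  | nil => exact Nat.le_refl _
  | cons _ _ h1 h2 ih =>
    have := h1.cnt_le_wt hc
    omega

theorem NSteps.odd_le {last : ℕ} {L L' : List ℕ} {n : ℕ}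
    (h : NSteps last L n L') (b : ℕ) : odd b L ≤ odd b L' + 2 * n := by
  induction h with
  | nil => exact Nat.le_refl _
  | cons _ _ h1 h2 ih =>
    have := h1.odd_le b
    omega

/-- at the event `C` the number of crossable pairs is large before the event -/
theorem EvC.length_le {L L' : List ℕ} {dd : ℕ} (h : EvC L L' dd) :
    L.length ≤ 2 * cnt cx L + dd := by
  induction h with
  | nil => exact Nat.le_refl _
  | @cons B R out dd h0 hB h2 ih =>
    have h1 := potential_blk goodC_cx hB h0
    have h3 := potential_le_append cx B R
    rw [List.length_append]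
    rcases Nat.lt_or_ge B.length 2 with h4 | h4
    · have h5 : B.length = 1 := by omega
      rw [h5, potential_wt_two]
      omega
    · omega

/-- `j` is the number of blocks -/
private theorem potential_evC {L L' : List ℕ} {dd : ℕ} (h : EvC L L' dd) :
    ∃ j : ℕ, (L ≠ [] → cnt cx L' + 1 ≤ j) ∧ L.length ≤ cnt cx L + j ∧
      2 * j ≤ L.length + dd := by
  induction h with
  | nil => exact ⟨0, fun h => absurd rfl h, Nat.le_refl _, Nat.le_refl _⟩
  | @cons B R out dd h0 hB h2 ih =>
    obtain ⟨j, i1, i2, i3⟩ := ih
    have h1 := potential_blk goodC_cx hB h0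
    have h1' := potential_blk_reverse goodC_cx hB
    have h3 := potential_le_append cx B R
    refine ⟨j + 1, fun _ => ?_, ?_, ?_⟩
    · by_cases hR : R = []
      · subst hR
        have ho : out = [] := List.perm_nil.mp h2.perm
        rw [ho, List.append_nil, h1']
        omega
      · have := i1 hR
        have h4 := potential_append_le cx B.reverse out
        omega
    · rw [List.length_append]
      omega
    · rw [List.length_append]
      rcases Nat.lt_or_ge B.length 2 with h4 | h4
      · have h5 : B.length = 1 := by omega
        rw [h5, potential_wt_two]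
        omega
      · omega

theorem EvC.cnt_le {L L' : List ℕ} {dd : ℕ} (h : EvC L L' dd) (hL : L ≠ []) :
    cnt cx L' + 1 ≤ cnt cx L + dd := by
  obtain ⟨j, h1, h2, h3⟩ := potential_evC h
  have := h1 hL
  omega

/-- the number of crossable pairs after the event, with an additional wire `pf` on top -/
theorem EvC.cnt_cons_le {L L' : List ℕ} {dd : ℕ} (h : EvC L L' dd) (pf : ℕ) :
    2 * cnt cx (pf :: L') ≤ L.length + 2 * dd := by
  by_cases hL : L = []
  · subst hL
    have ho : L' = [] := List.perm_nil.mp h.perm
    subst ho
    simp [cnt]
  · obtain ⟨j, h1, h2, h3⟩ := potential_evC h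
    have h4 := h1 hL
    have h5 := potential_cnt_cons_le cx pf L'
    omega

theorem EvC.odd_le {L L' : List ℕ} {dd : ℕ} (h : EvC L L' dd) (b : ℕ) :
    odd b L ≤ odd (b + 1) L' + 2 * dd := by
  induction h generalizing b with
  | nil => exact Nat.le_refl _
  | @cons B R out dd h0 hB h2 ih =>
    have key : odd b B ≤ odd (b + 1) B.reverse + 2 * wt (B.length + 1) := by
      have h1 := potential_odd_le B b
      rcases Nat.lt_or_ge B.length 4 with h4 | h4
      · obtain ⟨r, hr⟩ : ∃ r, B.length = r := ⟨_, rfl⟩
        have h5 : r ≠ 0 := by
          intro h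
          rw [h] at hr
          exact h0 (List.length_eq_zero_iff.mp hr)
        rw [hr] at h4 h1 ⊢
        interval_cases r
        · exact absurd rfl h5
        · rw [potential_wt_two]
          omega
        · obtain ⟨x, y, rfl⟩ := List.length_eq_two.mp hr
          rw [potential_wt_three]
          simp only [List.reverse_cons, List.reverse_nil, List.nil_append, List.cons_append, odd]
          omega
        · rw [potential_wt_four]
          omega
      · have := (wt_bound (B.length + 1) (by omega)).2
        omega
    have h3 := ih (b + B.length)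
    rw [potential_odd_append, potential_odd_append, List.length_reverse,
      show b + 1 + B.length = b + B.length + 1 by ring]
    omega

theorem EvA.odd_eq {L L' : List ℕ} (h : EvA L L') (b : ℕ) : odd (b + 1) L = odd b L' := by
  induction h generalizing b with
  | nil => rfl
  | cons h1 h2 ih =>
    have h3 := ih (b + 1 + 1)
    simp only [odd]
    omega

theorem EvA.le_cnt {L L' : List ℕ} (h : EvA L L') : L.length ≤ 2 * cnt cx L := by
  induction h with
  | nil => exact Nat.le_refl _
  | @cons x y R out h1 h2 ih =>
    have h3 := potential_le_cnt_cons cx y R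
    rw [cnt.eq_3, (goodC_cx x y h1).1, if_pos rfl, List.length_cons, List.length_cons]
    omega

theorem EvA.cnt_cy_le {L L' : List ℕ} (h : EvA L L') (hL : L ≠ []) :
    2 * (cnt cy L' + 1) ≤ L.length := by
  induction h with
  | nil => exact absurd rfl hL
  | @cons x y R out h1 h2 ih =>
    rw [cnt.eq_3, (goodC_cy x y h1).2, List.length_cons, List.length_cons]
    by_cases hR : R = []
    · subst hR
      have ho : out = [] := List.perm_nil.mp h2.perm
      subst ho
      simp [cnt]
    · have h3 := ih hR
      have h4 := potential_cnt_cons_le cy x out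
      simp only [Bool.false_eq_true, if_false]
      omega

end Pool.Agent.Lib.MP_214199_co
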