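import Pool.Agent.Lib.MP_214199_co.EncA
import Pool.Agent.Lib.MP_214199_co.EncB
import Pool.Agent.Lib.MP_214199_co.Potential

/-!
# Soundness of the blocks of event `C`
-/

set_option autoImplicit false

namespace Pool.Agent.Lib.MP_214199_co

/-- the inner recursion of `blkC` -/
noncomputable def blkcF (k : Nat → Nat → Bool) (LE LDD : Nat) (m : Nat) :
    Nat → Nat → Nat → Nat → Nat → Nat → Bool :=
  Nat.rec (motive := fun _ => Nat → Nat → Nat → Nat → Nat → Nat → Bool)
    (fun _ _ _ _ _ _ => false)
    (fun _ ih r s t pf e dd =>
      Bool.rec (motive := fun _ => Bool)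
        (force (Nat.land r 31) fun x =>
          Bool.rec (motive := fun _ => Bool) false
            (force (Nat.land (Nat.shiftRight r 5) 31) fun y =>
              Bool.rec (motive := fun _ => Bool) true
                (Bool.rec (motive := fun _ => Bool) false
                  (force (Nat.land (Nat.shiftRight r 10) 31) fun z =>
                    Bool.rec (motive := fun _ => Bool) true
                      (force (Nat.add (Nat.add e 7)
                          (Nat.mul 2 (Nat.sub 1 (Nat.sub (Nat.div z 2) (Nat.div pf 2))))) fun e1 =>
                        Bool.rec (motive := fun _ => Bool) true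
                          (Bool.rec (motive := fun _ => Bool) true
                            (force (Nat.add dd 3) fun dd =>
                              force (Nat.add t (Nat.shiftLeft
                                (Nat.add z (Nat.add (Nat.mul 32 y) (Nat.mul 1024 x))) s)) fun t =>
                              ih (Nat.shiftRight r 15) (Nat.add s 15) t x e1 dd)
                            (Nat.ble (Nat.add dd 3) LDD))
                          (Nat.ble e1 LE))
                      (Nat.ble (Nat.succ (Nat.div y 2)) (Nat.div z 2)))
                  (force (Nat.add e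
                      (Nat.mul 2 (Nat.sub 1 (Nat.sub (Nat.div y 2) (Nat.div pf 2))))) fun e1 =>
                    Bool.rec (motive := fun _ => Bool) true
                      (force (Nat.add t (Nat.shiftLeft (Nat.add y (Nat.mul 32 x)) s)) fun t =>
                        ih (Nat.shiftRight r 10) (Nat.add s 10) t x e1 dd)
                      (Nat.ble e1 LE)))
                (Nat.ble (Nat.succ (Nat.div x 2)) (Nat.div y 2)))
            (force (Nat.add (Nat.add e 1)
                (Nat.mul 2 (Nat.sub 1 (Nat.sub (Nat.div x 2) (Nat.div pf 2))))) fun e1 =>
              Bool.rec (motive := fun _ => Bool) true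
                (Bool.rec (motive := fun _ => Bool) true
                  (force (Nat.add dd 1) fun dd => force (Nat.add t (Nat.shiftLeft x s)) fun t =>
                    ih (Nat.shiftRight r 5) (Nat.add s 5) t x e1 dd)
                  (Nat.ble (Nat.add dd 1) LDD))
                (Nat.ble e1 LE)))
        (k t dd)
        (Nat.beq s 60)) m

theorem blkc_eq (k : Nat → Nat → Bool) (LE LDD row : Nat) :
    blkC k LE LDD row = blkcF k LE LDD 13 row 0 0 31 0 0 := rfl

theorem blkc_rec_and {X c : Bool} (h : Bool.rec (motive := fun _ => Bool) false X c = true) :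
    c = true ∧ X = true := by
  cases c
  · exact absurd h (by simp)
  · exact ⟨rfl, h⟩

theorem blkc_rec_imp {X c : Bool} (h : Bool.rec (motive := fun _ => Bool) true X c = true)
    (hc : c = true) : X = true := by
  subst hc
  exact h

theorem blkc_zero {k : Nat → Nat → Bool} {LE LDD r s t pf e dd : Nat}
    (h : blkcF k LE LDD 0 r s t pf e dd = true) : False := by
  exact absurd h (by simp [blkcF])

/-- the end of the recursion -/
theorem blkc_end {k : Nat → Nat → Bool} {LE LDD m r t pf e dd : Nat}
    (h : blkcF k LE LDD (m + 1) r 60 t pf e dd = true) : k t dd = true := h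

/-- one step of the recursion -/
theorem blkc_step {k : Nat → Nat → Bool} {LE LDD m r s t pf e dd x y z : Nat}
    (h : blkcF k LE LDD (m + 1) r s t pf e dd = true) (hs : s ≠ 60)
    (hx : Nat.land r 31 = x) (hy : Nat.land (Nat.shiftRight r 5) 31 = y)
    (hz : Nat.land (Nat.shiftRight r 10) 31 = z) :
    (e + 1 + 2 * (1 - (x / 2 - pf / 2)) ≤ LE → dd + 1 ≤ LDD →
      blkcF k LE LDD m (Nat.shiftRight r 5) (s + 5) (t + Nat.shiftLeft x s) x
        (e + 1 + 2 * (1 - (x / 2 - pf / 2))) (dd + 1) = true) ∧
    (x / 2 < y / 2 → e + 2 * (1 - (y / 2 - pf / 2)) ≤ LE →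
      blkcF k LE LDD m (Nat.shiftRight r 10) (s + 10) (t + Nat.shiftLeft (y + 32 * x) s) x
        (e + 2 * (1 - (y / 2 - pf / 2))) dd = true) ∧
    (x / 2 < y / 2 → y / 2 < z / 2 → e + 7 + 2 * (1 - (z / 2 - pf / 2)) ≤ LE → dd + 3 ≤ LDD →
      blkcF k LE LDD m (Nat.shiftRight r 15) (s + 15)
        (t + Nat.shiftLeft (z + (32 * y + 1024 * x)) s) x
        (e + 7 + 2 * (1 - (z / 2 - pf / 2))) (dd + 3) = true) := by
  have hb : Nat.beq s 60 = false := by
    cases hh : Nat.beq s 60
    · rfl
    · exact absurd (Nat.eq_of_beq_eq_true hh) hs
  have h0 : Bool.rec (motive := fun _ => Bool)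
        (force (Nat.land r 31) fun x =>
          Bool.rec (motive := fun _ => Bool) false
            (force (Nat.land (Nat.shiftRight r 5) 31) fun y =>
              Bool.rec (motive := fun _ => Bool) true
                (Bool.rec (motive := fun _ => Bool) false
                  (force (Nat.land (Nat.shiftRight r 10) 31) fun z =>
                    Bool.rec (motive := fun _ => Bool) true
                      (force (Nat.add (Nat.add e 7)
                          (Nat.mul 2 (Nat.sub 1 (Nat.sub (Nat.div z 2) (Nat.div pf 2))))) fun e1 =>
                        Bool.rec (motive := fun _ => Bool) true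
                          (Bool.rec (motive := fun _ => Bool) true
                            (force (Nat.add dd 3) fun dd =>
                              force (Nat.add t (Nat.shiftLeft
                                (Nat.add z (Nat.add (Nat.mul 32 y) (Nat.mul 1024 x))) s)) fun t =>
                              blkcF k LE LDD m (Nat.shiftRight r 15) (Nat.add s 15) t x e1 dd)
                            (Nat.ble (Nat.add dd 3) LDD))
                          (Nat.ble e1 LE))
                      (Nat.ble (Nat.succ (Nat.div y 2)) (Nat.div z 2)))
                  (force (Nat.add e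
                      (Nat.mul 2 (Nat.sub 1 (Nat.sub (Nat.div y 2) (Nat.div pf 2))))) fun e1 =>
                    Bool.rec (motive := fun _ => Bool) true
                      (force (Nat.add t (Nat.shiftLeft (Nat.add y (Nat.mul 32 x)) s)) fun t =>
                        blkcF k LE LDD m (Nat.shiftRight r 10) (Nat.add s 10) t x e1 dd)
                      (Nat.ble e1 LE)))
                (Nat.ble (Nat.succ (Nat.div x 2)) (Nat.div y 2)))
            (force (Nat.add (Nat.add e 1)
                (Nat.mul 2 (Nat.sub 1 (Nat.sub (Nat.div x 2) (Nat.div pf 2))))) fun e1 =>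
              Bool.rec (motive := fun _ => Bool) true
                (Bool.rec (motive := fun _ => Bool) true
                  (force (Nat.add dd 1) fun dd => force (Nat.add t (Nat.shiftLeft x s)) fun t =>
                    blkcF k LE LDD m (Nat.shiftRight r 5) (Nat.add s 5) t x e1 dd)
                  (Nat.ble (Nat.add dd 1) LDD))
                (Nat.ble e1 LE)))
        (k t dd)
        (Nat.beq s 60) = true := h
  rw [hb] at h0
  simp only [force_eq, hx, hy, hz] at h0
  obtain ⟨a1, a2⟩ := blkc_rec_and h0
  refine ⟨fun b1 b2 => ?_, fun b0 b1 => ?_, fun b0 b00 b1 b2 => ?_⟩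
  · exact blkc_rec_imp (blkc_rec_imp a1 (Nat.ble_eq_true_of_le b1)) (Nat.ble_eq_true_of_le b2)
  · have a3 := (blkc_rec_and (blkc_rec_imp a2 (Nat.ble_eq_true_of_le b0))).1
    exact blkc_rec_imp a3 (Nat.ble_eq_true_of_le b1)
  · have a3 := (blkc_rec_and (blkc_rec_imp a2 (Nat.ble_eq_true_of_le b0))).2
    have a4 := blkc_rec_imp a3 (Nat.ble_eq_true_of_le b00)
    exact blkc_rec_imp (blkc_rec_imp a4 (Nat.ble_eq_true_of_le b1)) (Nat.ble_eq_true_of_le b2)

theorem blkc_land (x E : ℕ) (hx : x < 32) : Nat.land (x + 32 * E) 31 = x := by
  have h : (x + 32 * E) &&& (2 ^ 5 - 1) = (x + 32 * E) % 2 ^ 5 := Nat.and_two_pow_sub_one_eq_mod _ _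
  have h' : Nat.land (x + 32 * E) 31 = (x + 32 * E) % 32 := h
  rw [h']
  omega

theorem blkc_shift (x E : ℕ) (hx : x < 32) : Nat.shiftRight (x + 32 * E) 5 = E := by
  have h : (x + 32 * E) >>> 5 = (x + 32 * E) / 2 ^ 5 := Nat.shiftRight_eq_div_pow _ _
  have h' : Nat.shiftRight (x + 32 * E) 5 = (x + 32 * E) / 32 := h
  rw [h']
  omega

theorem blkc_shift_add (r a b : ℕ) :
    Nat.shiftRight r (a + b) = Nat.shiftRight (Nat.shiftRight r a) b :=
  Nat.shiftRight_add r a b

theorem blkc_shiftLeft (x s : ℕ) : Nat.shiftLeft x s = x * 2 ^ s := Nat.shiftLeft_eq x s

theorem blkc_enc_append (T B : List ℕ) : enc (T ++ B) = enc T + enc B * 2 ^ (5 * T.length) := by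
  induction T with
  | nil => simp [enc]
  | cons x T ih =>
    rw [List.cons_append]
    simp only [enc, List.length_cons]
    rw [ih, show 5 * (T.length + 1) = 5 * T.length + 5 by ring, pow_add]
    ring

theorem blkc_cx (pf y : ℕ) : (1 - (y / 2 - pf / 2)) + (if cx pf y then 1 else 0) = 1 := by
  unfold cx
  by_cases h : pf / 2 < y / 2
  · rw [if_pos (by simpa using h)]
    omega
  · rw [if_neg (by simpa using h)]
    omega

theorem blkc_not_cx {x y : ℕ} (h : x / 2 < y / 2) : cx y x = false := by
  unfold cx
  simp only [decide_eq_false_iff_not]
  omega

/-- the main induction -/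
theorem blkc_main {k : ℕ → ℕ → Bool} {LE LDD : ℕ} (hLDD : LDD ≤ 6) (m : ℕ) :
    ∀ (R T out : List ℕ) (pf e dd dd' : ℕ),
      blkcF k LE LDD m (enc R) (5 * T.length) (enc T) pf e dd = true →
      T.length + R.length = 12 → (∀ x ∈ R, x < 16) → EvC R out dd' → dd + dd' ≤ LDD →
      e + R.length + 2 * dd' ≤ LE + 2 * cnt cx (pf :: out) →
      k (enc (T ++ out)) (dd + dd') = true := by
  induction m with
  | zero =>
    intro R T out pf e dd dd' h
    exact (blkc_zero h).elim
  | succ m ih =>
    intro R T out pf e dd dd' h hlen h16 hE hdd hle
    cases hE with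
    | nil =>
      have h12 : T.length = 12 := by simpa using hlen
      rw [h12] at h
      have := blkc_end h
      rw [List.append_nil, Nat.add_zero]
      exact this
    | @cons B R' out' dd'' hB hblk hE' =>
      have hlt : T.length < 12 := by
        have : 0 < B.length := List.length_pos_iff.2 hB
        rw [List.length_append] at hlen
        omega
      have hs : 5 * T.length ≠ 60 := by omega
      have hc := hE'.cnt_cons_le
      rw [List.length_append] at hlen hle
      match B, hB, hblk, h, hlen, h16, hdd, hle with
      | [x], _, _, h, hlen, h16, hdd, hle =>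
        have hx : x < 16 := h16 x (by simp)
        have e0 : enc ([x] ++ R') = x + 32 * enc R' := rfl
        rw [e0] at h
        have st := (blkc_step h hs (blkc_land x _ (by omega)) rfl rfl).1
        have hw : wt ([x].length + 1) = 1 := (by decide : wt 2 = 1)
        rw [hw] at hdd hle ⊢
        have c1 := blkc_cx pf x
        have c2 : cnt cx (pf :: ([x].reverse ++ out')) = (if cx pf x then 1 else 0)
            + cnt cx (x :: out') := rfl
        rw [c2] at hle
        simp only [List.length_singleton] at hle hlen
        have c3 := hc x
        have st2 := st (by omega) (by omega)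
        rw [blkc_shift x _ (by omega)] at st2
        have e1 : enc T + Nat.shiftLeft x (5 * T.length) = enc (T ++ [x]) := by
          rw [blkc_enc_append, blkc_shiftLeft]
          simp [enc]
        have e2 : 5 * T.length + 5 = 5 * (T ++ [x]).length := by
          rw [List.length_append, List.length_singleton]
          ring
        rw [e1, e2] at st2
        have fin := ih R' (T ++ [x]) out' x _ (dd + 1) dd'' st2
          (by rw [List.length_append, List.length_singleton]; omega)
          (fun y hy => h16 y (List.mem_append_right _ hy)) hE' (by omega) (by omega)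
        have e3 : T ++ ([x].reverse ++ out') = T ++ [x] ++ out' := by simp
        rw [e3, show dd + (1 + dd'') = dd + 1 + dd'' by omega]
        exact fin
      | [x, y], _, hblk, h, hlen, h16, hdd, hle =>
        have hx : x < 16 := h16 x (by simp)
        have hy : y < 16 := h16 y (by simp)
        have hxy : x / 2 < y / 2 := by
          have := List.rel_of_pairwise_cons hblk (a' := y) (by simp)
          exact this
        have e0 : enc ([x, y] ++ R') = x + 32 * (y + 32 * enc R') := rfl
        rw [e0] at h
        have hy2 : Nat.land (Nat.shiftRight (x + 32 * (y + 32 * enc R')) 5) 31 = y := by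
          rw [blkc_shift x _ (by omega)]
          exact blkc_land y _ (by omega)
        have st := (blkc_step h hs (blkc_land x _ (by omega)) hy2 rfl).2.1 hxy
        have hw : wt ([x, y].length + 1) = 0 := (by decide : wt 3 = 0)
        rw [hw] at hdd hle ⊢
        have c1 := blkc_cx pf y
        have c2 : cnt cx (pf :: ([x, y].reverse ++ out')) = (if cx pf y then 1 else 0)
            + ((if cx y x then 1 else 0) + cnt cx (x :: out')) := rfl
        rw [c2, blkc_not_cx hxy] at hle
        simp only [List.length_cons, List.length_nil] at hle hlen
        have c3 := hc x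
        have st2 := st (by simp only [Bool.false_eq_true, if_false] at hle; omega)
        have e5 : Nat.shiftRight (x + 32 * (y + 32 * enc R')) 10 = enc R' := by
          rw [show (10 : ℕ) = 5 + 5 from rfl, blkc_shift_add, blkc_shift x _ (by omega),
            blkc_shift y _ (by omega)]
        rw [e5] at st2
        have e1 : enc T + Nat.shiftLeft (y + 32 * x) (5 * T.length) = enc (T ++ [y, x]) := by
          rw [blkc_enc_append, blkc_shiftLeft]
          simp [enc]
        have e2 : 5 * T.length + 10 = 5 * (T ++ [y, x]).length := by
          simp only [List.length_append, List.length_cons, List.length_nil]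
          ring
        rw [e1, e2] at st2
        have fin := ih R' (T ++ [y, x]) out' x _ dd dd'' st2
          (by simp only [List.length_append, List.length_cons, List.length_nil]; omega)
          (fun y hy => h16 y (List.mem_append_right _ hy)) hE' (by omega)
          (by simp only [Bool.false_eq_true, if_false] at hle; omega)
        have e3 : T ++ ([x, y].reverse ++ out') = T ++ [y, x] ++ out' := by simp
        rw [e3, show dd + (0 + dd'') = dd + dd'' by omega]
        exact fin
      | [x, y, z], _, hblk, h, hlen, h16, hdd, hle =>
        have hx : x < 16 := h16 x (by simp)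
        have hy : y < 16 := h16 y (by simp)
        have hz : z < 16 := h16 z (by simp)
        have hxy : x / 2 < y / 2 := by
          have := List.rel_of_pairwise_cons hblk (a' := y) (by simp)
          exact this
        have hyz : y / 2 < z / 2 := by
          have := List.rel_of_pairwise_cons (List.Pairwise.of_cons hblk) (a' := z) (by simp)
          exact this
        have e0 : enc ([x, y, z] ++ R') = x + 32 * (y + 32 * (z + 32 * enc R')) := rfl
        rw [e0] at h
        have hy2 : Nat.land (Nat.shiftRight (x + 32 * (y + 32 * (z + 32 * enc R'))) 5) 31 = y := by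
          rw [blkc_shift x _ (by omega)]
          exact blkc_land y _ (by omega)
        have hz2 : Nat.land (Nat.shiftRight (x + 32 * (y + 32 * (z + 32 * enc R'))) 10) 31 = z := by
          rw [show (10 : ℕ) = 5 + 5 from rfl, blkc_shift_add, blkc_shift x _ (by omega),
            blkc_shift y _ (by omega)]
          exact blkc_land z _ (by omega)
        have st := (blkc_step h hs (blkc_land x _ (by omega)) hy2 hz2).2.2 hxy hyz
        have hw : wt ([x, y, z].length + 1) = 3 := (by decide : wt 4 = 3)
        rw [hw] at hdd hle ⊢
        have c1 := blkc_cx pf z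
        have c2 : cnt cx (pf :: ([x, y, z].reverse ++ out')) = (if cx pf z then 1 else 0)
            + ((if cx z y then 1 else 0) + ((if cx y x then 1 else 0) + cnt cx (x :: out'))) := rfl
        rw [c2, blkc_not_cx hxy, blkc_not_cx hyz] at hle
        simp only [List.length_cons, List.length_nil] at hle hlen
        simp only [Bool.false_eq_true, if_false] at hle
        have c3 := hc x
        have st2 := st (by omega) (by omega)
        have e5 : Nat.shiftRight (x + 32 * (y + 32 * (z + 32 * enc R'))) 15 = enc R' := by
          rw [show (15 : ℕ) = 5 + (5 + 5) from rfl, blkc_shift_add, blkc_shift_add,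
            blkc_shift x _ (by omega), blkc_shift y _ (by omega), blkc_shift z _ (by omega)]
        rw [e5] at st2
        have e1 : enc T + Nat.shiftLeft (z + (32 * y + 1024 * x)) (5 * T.length)
            = enc (T ++ [z, y, x]) := by
          rw [blkc_enc_append, blkc_shiftLeft]
          simp only [enc]
          ring
        have e2 : 5 * T.length + 15 = 5 * (T ++ [z, y, x]).length := by
          simp only [List.length_append, List.length_cons, List.length_nil]
          ring
        rw [e1, e2] at st2
        have fin := ih R' (T ++ [z, y, x]) out' x _ (dd + 3) dd'' st2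
          (by simp only [List.length_append, List.length_cons, List.length_nil]; omega)
          (fun y hy => h16 y (List.mem_append_right _ hy)) hE' (by omega) (by omega)
        have e3 : T ++ ([x, y, z].reverse ++ out') = T ++ [z, y, x] ++ out' := by simp
        rw [e3, show dd + (3 + dd'') = dd + 3 + dd'' by omega]
        exact fin
      | x :: y :: z :: w :: B, _, _, h, hlen, h16, hdd, hle =>
        exfalso
        have := (wt_bound ((x :: y :: z :: w :: B).length + 1)
          (by simp only [List.length_cons]; omega)).1
        omega

theorem blkC_sound {k : ℕ → ℕ → Bool} {LE LDD : ℕ} {L L' : List ℕ} {dd : ℕ}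
    (h : blkC k LE LDD (enc L) = true) (hL : L.length = 12) (h16 : ∀ x ∈ L, x < 16)
    (hE : EvC L L' dd) (hdd : dd ≤ LDD) (hLDD : LDD ≤ 6) (hLE : 12 + 2 * dd ≤ LE + 2 * cnt cx L') :
    k (enc L') dd = true := by
  rw [blkc_eq] at h
  have hp := hE.perm
  have hL' : cnt cx (31 :: L') = cnt cx L' := by
    cases L' with
    | nil => rfl
    | cons y L'' =>
      have hy : y < 16 := h16 y (hp.mem_iff.1 (by simp))
      have : cx 31 y = false := by
        unfold cx
        simp only [decide_eq_false_iff_not]
        omega
      show (if cx 31 y then 1 else 0) + cnt cx (y :: L'') = _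
      rw [this]
      simp
  have := blkc_main (k := k) (LE := LE) hLDD 13 L [] L' 31 0 0 dd h (by simpa using hL) h16 hE
    (by omega) (by rw [hL', hL]; omega)
  simpa using this

end Pool.Agent.Lib.MP_214199_co
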