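import Pool.Agent.Lib.MP_214199_co.Row

/-!
# Counting in a linear space with 15 points
-/

set_option autoImplicit false

namespace Pool.Agent.Lib.MP_214199_co

/-- `𝓛` is the set of lines of a linear space on the point set `S` -/
structure LinSp {X : Type} (S : Finset X) (𝓛 : Finset (Finset X)) : Prop where
  sub : ∀ L ∈ 𝓛, L ⊆ S
  two : ∀ L ∈ 𝓛, 2 ≤ L.card
  ex : ∀ p ∈ S, ∀ q ∈ S, p ≠ q → ∃ L ∈ 𝓛, p ∈ L ∧ q ∈ L
  uniq : ∀ L ∈ 𝓛, ∀ L' ∈ 𝓛, ∀ p q, p ≠ q → p ∈ L → q ∈ L → p ∈ L' → q ∈ L' → L = L'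

variable {X : Type} {S : Finset X} {𝓛 : Finset (Finset X)}

theorem LinSp.sum_choose (h : LinSp S 𝓛) : ∑ L ∈ 𝓛, L.card.choose 2 = S.card.choose 2 := by
  classical
  have h1 : S.powersetCard 2 = 𝓛.biUnion (fun L => L.powersetCard 2) := by
    ext T
    rw [Finset.mem_biUnion, Finset.mem_powersetCard]
    constructor
    · rintro ⟨hT, hc⟩
      obtain ⟨p, q, hpq, rfl⟩ := Finset.card_eq_two.1 hc
      obtain ⟨L, hL, hp, hq⟩ := h.ex p (hT (by simp)) q (hT (by simp)) hpq
      refine ⟨L, hL, Finset.mem_powersetCard.2 ⟨?_, hc⟩⟩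
      intro x hx
      rw [Finset.mem_insert, Finset.mem_singleton] at hx
      rcases hx with rfl | rfl
      · exact hp
      · exact hq
    · rintro ⟨L, hL, hT⟩
      rw [Finset.mem_powersetCard] at hT
      exact ⟨hT.1.trans (h.sub L hL), hT.2⟩
  rw [← Finset.card_powersetCard, h1, Finset.card_biUnion]
  · exact Finset.sum_congr rfl fun L _ => (Finset.card_powersetCard 2 L).symm
  · intro L hL L' hL' hne
    rw [Function.onFun, Finset.disjoint_left]
    intro T hT hT'
    rw [Finset.mem_powersetCard] at hT hT'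
    obtain ⟨p, q, hpq, rfl⟩ := Finset.card_eq_two.1 hT.2
    exact hne (h.uniq L hL L' hL' p q hpq (hT.1 (by simp)) (hT.1 (by simp)) (hT'.1 (by simp))
      (hT'.1 (by simp)))

theorem comb_wt (k : ℕ) (hk : 2 ≤ k) : wt k + 3 * (if 3 ≤ k then 1 else 0) = k.choose 2 := by
  unfold wt
  by_cases h : k = 2
  · subst h
    rfl
  · have h3 : 3 ≤ k := by omega
    have h4 : (3 : ℕ).choose 2 ≤ k.choose 2 := Nat.choose_le_choose 2 h3
    have h5 : (3 : ℕ).choose 2 = 3 := rfl
    rw [if_neg h, if_pos h3]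
    omega

theorem LinSp.sum_wt_le (h : LinSp S 𝓛) (hS : S.card = 15)
    (h32 : 32 ≤ (𝓛.filter (fun L => 3 ≤ L.card)).card) : ∑ L ∈ 𝓛, wt L.card ≤ 9 := by
  have h1 := h.sum_choose
  rw [hS] at h1
  have h2 : ∑ L ∈ 𝓛, wt L.card + 3 * (𝓛.filter (fun L => 3 ≤ L.card)).card =
      ∑ L ∈ 𝓛, L.card.choose 2 := by
    rw [Finset.card_filter, Finset.mul_sum, ← Finset.sum_add_distrib]
    exact Finset.sum_congr rfl fun L hL => comb_wt _ (h.two L hL)
  have h3 : (15 : ℕ).choose 2 = 105 := rfl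
  omega

/-- the lines through a point partition the other points -/
theorem LinSp.sum_through [DecidableEq X] (h : LinSp S 𝓛) {p : X} (hp : p ∈ S) :
    ∑ L ∈ 𝓛.filter (fun L => p ∈ L), (L.card - 1) = S.card - 1 := by
  have h1 : S.erase p = (𝓛.filter (fun L => p ∈ L)).biUnion (fun L => L.erase p) := by
    ext x
    rw [Finset.mem_biUnion, Finset.mem_erase]
    constructor
    · rintro ⟨hx, hxS⟩
      obtain ⟨L, hL, hpL, hxL⟩ := h.ex p hp x hxS (Ne.symm hx)
      exact ⟨L, Finset.mem_filter.2 ⟨hL, hpL⟩, Finset.mem_erase.2 ⟨hx, hxL⟩⟩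
    · rintro ⟨L, hL, hx⟩
      rw [Finset.mem_erase] at hx
      exact ⟨hx.1, h.sub L (Finset.mem_filter.1 hL).1 hx.2⟩
  rw [← Finset.card_erase_of_mem hp, h1, Finset.card_biUnion]
  · refine Finset.sum_congr rfl fun L hL => ?_
    rw [Finset.card_erase_of_mem (Finset.mem_filter.1 hL).2]
  · intro L hL L' hL' hne
    rw [Finset.mem_coe, Finset.mem_filter] at hL hL'
    rw [Function.onFun, Finset.disjoint_left]
    intro x hx hx'
    rw [Finset.mem_erase] at hx hx'
    exact hne (h.uniq L hL.1 L' hL'.1 p x (Ne.symm hx.1) hL.2 hx.2 hL'.2 hx'.2)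

/-- the charge of a line with `k` points at each of its points -/
def combC (k : ℕ) : ℕ := if k % 2 = 0 then 1 else if k = 3 then 0 else 2

theorem comb_choose (m : ℕ) : 2 * (m + 1).choose 2 = (m + 1) * m := by
  induction m with
  | zero => rfl
  | succ m ih =>
    rw [Nat.choose_succ_succ, Nat.choose_one_right, mul_add, ih]
    ring

theorem combC_le (k : ℕ) (hk : 2 ≤ k) : k * combC k ≤ 2 * wt k := by
  by_cases h2 : k = 2
  · subst h2
    decide
  · by_cases h3 : k = 3
    · subst h3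
      decide
    · obtain ⟨m, rfl⟩ : ∃ m, k = m + 1 := ⟨k - 1, by omega⟩
      have h4 := comb_choose m
      have h5 := comb_wt (m + 1) hk
      rw [if_pos (by omega)] at h5
      have hm : 3 ≤ m := by omega
      unfold combC
      split_ifs with h6
      · nlinarith
      · have hm4 : 4 ≤ m := by omega
        nlinarith

/-- there are two clean points -/
theorem LinSp.exists_clean (h : LinSp S 𝓛) (hS : S.card = 15) (hwt : ∑ L ∈ 𝓛, wt L.card ≤ 9) :
    ∃ a ∈ S, ∃ b ∈ S, a ≠ b ∧ (∀ L ∈ 𝓛, a ∈ L → L.card = 3) ∧ (∀ L ∈ 𝓛, b ∈ L → L.card = 3) := by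
  classical
  -- total charge
  have h1 : ∑ p ∈ S, ∑ L ∈ 𝓛.filter (fun L => p ∈ L), combC L.card ≤ 18 := by
    have h2 : ∑ p ∈ S, ∑ L ∈ 𝓛.filter (fun L => p ∈ L), combC L.card =
        ∑ L ∈ 𝓛, L.card * combC L.card := by
      simp_rw [Finset.sum_filter]
      rw [Finset.sum_comm]
      refine Finset.sum_congr rfl fun L hL => ?_
      rw [← Finset.sum_filter, Finset.sum_const, smul_eq_mul]
      congr 2
      ext x
      rw [Finset.mem_filter]
      exact ⟨fun hx => hx.2, fun hx => ⟨h.sub L hL hx, hx⟩⟩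
    rw [h2]
    calc ∑ L ∈ 𝓛, L.card * combC L.card ≤ ∑ L ∈ 𝓛, 2 * wt L.card :=
          Finset.sum_le_sum fun L hL => combC_le _ (h.two L hL)
      _ = 2 * ∑ L ∈ 𝓛, wt L.card := (Finset.mul_sum _ _ _).symm
      _ ≤ 18 := by omega
  -- charge of an unclean point
  have h3 : ∀ p ∈ S, ¬ (∀ L ∈ 𝓛, p ∈ L → L.card = 3) →
      2 ≤ ∑ L ∈ 𝓛.filter (fun L => p ∈ L), combC L.card := by
    intro p hp hne
    push Not at hne
    obtain ⟨L, hL, hpL, hL3⟩ := hne
    have hLf : L ∈ 𝓛.filter (fun L => p ∈ L) := Finset.mem_filter.2 ⟨hL, hpL⟩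
    by_cases hev : ∃ L' ∈ 𝓛.filter (fun L => p ∈ L), L'.card % 2 = 1 ∧ L'.card ≠ 3
    · obtain ⟨L', hL', ho, hn3⟩ := hev
      have h4 : combC L'.card = 2 := by
        unfold combC
        rw [if_neg (by omega), if_neg hn3]
      calc 2 = combC L'.card := h4.symm
        _ ≤ _ := Finset.single_le_sum (f := fun L => combC (Finset.card L))
            (fun _ _ => Nat.zero_le _) hL'
    · push Not at hev
      -- all lines through `p` have even cardinality or cardinality 3
      have h4 : ∀ L' ∈ 𝓛.filter (fun L => p ∈ L),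
          (combC L'.card : ℕ) % 2 = (L'.card - 1) % 2 := by
        intro L' hL'
        have h5 := hev L' hL'
        have h6 := h.two L' (Finset.mem_filter.1 hL').1
        unfold combC
        split_ifs with h7 h8
        · omega
        · omega
        · exact absurd (h5 (by omega)) h8
      have h5 : (∑ L' ∈ 𝓛.filter (fun L => p ∈ L), combC L'.card) % 2 = 0 := by
        rw [Finset.sum_nat_mod, Finset.sum_congr rfl h4, ← Finset.sum_nat_mod, h.sum_through hp,
          hS]
      have h6 : 1 ≤ combC L.card := by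
        have h7 : L.card % 2 = 0 := by
          by_contra h8
          exact hL3 (hev L hLf (by omega))
        unfold combC
        rw [if_pos h7]
      have h7 : combC L.card ≤ ∑ L' ∈ 𝓛.filter (fun L => p ∈ L), combC L'.card :=
        Finset.single_le_sum (f := fun L => combC (Finset.card L))
            (fun _ _ => Nat.zero_le _) hLf
      omega
  -- number of unclean points
  let U := S.filter (fun p => ¬ (∀ L ∈ 𝓛, p ∈ L → L.card = 3))
  have h4 : 2 * U.card ≤ 18 := by
    calc 2 * U.card = ∑ _p ∈ U, 2 := by rw [Finset.sum_const, smul_eq_mul, mul_comm]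
      _ ≤ ∑ p ∈ U, ∑ L ∈ 𝓛.filter (fun L => p ∈ L), combC L.card := by
          refine Finset.sum_le_sum fun p hp => ?_
          rw [Finset.mem_filter] at hp
          exact h3 p hp.1 hp.2
      _ ≤ ∑ p ∈ S, ∑ L ∈ 𝓛.filter (fun L => p ∈ L), combC L.card :=
          Finset.sum_le_sum_of_subset (Finset.filter_subset _ _)
      _ ≤ 18 := h1
  have h5 : (S.filter (fun p => ∀ L ∈ 𝓛, p ∈ L → L.card = 3)).card + U.card = S.card :=
    Finset.card_filter_add_card_filter_not (fun p => ∀ L ∈ 𝓛, p ∈ L → L.card = 3)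
  have h6 : 1 < (S.filter (fun p => ∀ L ∈ 𝓛, p ∈ L → L.card = 3)).card := by omega
  obtain ⟨a, ha, b, hb, hab⟩ := Finset.one_lt_card.1 h6
  rw [Finset.mem_filter] at ha hb
  exact ⟨a, ha.1, b, hb.1, hab, ha.2, hb.2⟩

end Pool.Agent.Lib.MP_214199_co
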