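import Pool.Agent.Lib.MP_214199_co.CoreDefs

/-!
# Sorting the wires
-/

set_option autoImplicit false

namespace Pool.Agent.Lib.MP_214199_co

/-- the combinatorial part: a sorted sequence in which every value is taken twice -/
theorem corea_srt {a w : ℕ → ℝ}
    (hmono : ∀ i j, i < j → j < 12 → a j < a i ∨ (a j = a i ∧ w j < w i))
    (hpar : ∀ i, i < 12 → ∃ j, j < 12 ∧ j ≠ i ∧ a j = a i)
    (huniq : ∀ i j j', i < 12 → j < 12 → j' < 12 → j ≠ i → j' ≠ i → a j = a i → a j' = a i →
      j = j') : Srt a w := by
  have hle : ∀ i j, i < j → j < 12 → a j ≤ a i := by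
    intro i j hij hj
    rcases hmono i j hij hj with h | h
    · exact h.le
    · exact h.1.le
  have key : ∀ k, k < 6 → a (2 * k + 1) = a (2 * k) := by
    intro k
    induction k using Nat.strong_induction_on with
    | _ k ih =>
      intro hk
      obtain ⟨j, hj, hjk, hjj⟩ := hpar (2 * k) (by omega)
      have hlt : 2 * k < j := by
        by_contra hcon
        have hj2 : j / 2 < k := by omega
        have h1 := ih (j / 2) hj2 (by omega)
        rcases Nat.even_or_odd j with ⟨m, hm⟩ | ⟨m, hm⟩
        · have e1 : j / 2 = m := by omega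
          rw [e1] at h1
          have := huniq j (2 * m + 1) (2 * k) hj (by omega) (by omega) (by omega) (by omega)
            (by rw [h1]; congr 1; omega) hjj.symm
          omega
        · have e1 : j / 2 = m := by omega
          rw [e1] at h1
          have := huniq j (2 * m) (2 * k) hj (by omega) (by omega) (by omega) (by omega)
            (by rw [← h1]; congr 1; omega) hjj.symm
          omega
      have h1 := hle (2 * k) (2 * k + 1) (by omega) (by omega)
      rcases Nat.lt_or_ge (2 * k + 1) j with h2 | h2
      · have h3 := hle (2 * k + 1) j h2 hj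
        rw [hjj] at h3
        exact le_antisymm h1 h3
      · have : j = 2 * k + 1 := by omega
        rw [← this]; exact hjj
  refine ⟨fun i j hj hij => ?_, fun k hk => ⟨key k hk, ?_⟩⟩
  · rcases hmono i j (by omega) hj with h | h
    · exact h
    · exfalso
      have h1 := key (i / 2) (by omega)
      rcases Nat.even_or_odd i with ⟨m, hm⟩ | ⟨m, hm⟩
      · have e1 : i / 2 = m := by omega
        rw [e1] at h1
        have := huniq i (2 * m + 1) j (by omega) (by omega) hj (by omega) (by omega)
          (by rw [h1]; congr 1; omega) h.1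
        omega
      · have e1 : i / 2 = m := by omega
        rw [e1] at h1
        have := huniq i (2 * m) j (by omega) (by omega) hj (by omega) (by omega)
          (by rw [← h1]; congr 1; omega) h.1
        omega
  · rcases hmono (2 * k) (2 * k + 1) (by omega) (by omega) with h | h
    · exact absurd (key k hk) h.ne
    · exact h.2

variable {ι : Type} [Fintype ι] {α v : ι → ℝ}

/-- sorting the wires -/
theorem Cfg.exists_srt (h : Cfg α v) (hι : Fintype.card ι = 12) :
    ∃ (e : Fin 12 ≃ ι) (a w : ℕ → ℝ), Srt a w ∧ ∀ i : Fin 12, a i = α (e i) ∧ w i = v (e i) := by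
  have hinj : Function.Injective (fun i : ι => toLex (-α i, -v i)) := by
    intro i j hij
    have h1 := congrArg ofLex hij
    simp only [ofLex_toLex, Prod.mk.injEq, neg_inj] at h1
    exact h.inj i j h1.1 h1.2
  let instι : LinearOrder ι := LinearOrder.lift' (fun i : ι => toLex (-α i, -v i)) hinj
  let e := Fintype.orderIsoFinOfCardEq ι hι
  have hlt : ∀ i j : Fin 12, i < j →
      α (e j) < α (e i) ∨ (α (e j) = α (e i) ∧ v (e j) < v (e i)) := by
    intro i j hij
    have h1 : e i < e j := e.lt_iff_lt.2 hij
    have h2 : toLex (-α (e i), -v (e i)) < toLex (-α (e j), -v (e j)) := h1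
    rw [Prod.Lex.toLex_lt_toLex] at h2
    rcases h2 with h2 | h2
    · left; simpa using h2
    · right; simp only [neg_inj, neg_lt_neg_iff] at h2; exact ⟨h2.1.symm, h2.2⟩
  refine ⟨e.toEquiv, fun n => if h : n < 12 then α (e ⟨n, h⟩) else 0,
    fun n => if h : n < 12 then v (e ⟨n, h⟩) else 0, ?_, fun i => ?_⟩
  · apply corea_srt
    · intro i j hij hj
      have hi : i < 12 := by omega
      simp only [hi, hj, dif_pos]
      exact hlt ⟨i, hi⟩ ⟨j, hj⟩ hij
    · intro i hi
      obtain ⟨j, ⟨hj1, hj2⟩, -⟩ := h.par (e ⟨i, hi⟩)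
      obtain ⟨j, rfl⟩ := e.surjective j
      refine ⟨j, j.2, ?_, ?_⟩
      · rintro rfl; exact hj1 rfl
      · simp only [hi, j.2, dif_pos]; exact hj2
    · intro i j j' hi hj hj' h1 h2 h3 h4
      simp only [hi, hj, hj', dif_pos] at h3 h4
      obtain ⟨l, -, hl⟩ := h.par (e ⟨i, hi⟩)
      have h5 := hl (e ⟨j, hj⟩) ⟨fun h => h1 (by simpa using e.injective h), h3⟩
      have h6 := hl (e ⟨j', hj'⟩) ⟨fun h => h2 (by simpa using e.injective h), h4⟩
      have h7 := e.injective (h5.trans h6.symm)
      simpa using h7
  · simp [i.2]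

end Pool.Agent.Lib.MP_214199_co
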