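import Pool.Agent.Lib.MP_214199_co.SweepDefs

/-!
# Arrangements with two clean points
-/

set_option autoImplicit false

namespace Pool.Agent.Lib.MP_214199_co

section defs

variable {ι : Type} [Fintype ι] (α v : ι → ℝ)

/-- the wires `i` with value `y` at time `t` -/
noncomputable def cls (t y : ℝ) : Finset ι := Finset.univ.filter (fun i => α i * t - v i = y)

open Classical in
/-- the classes of at least two wires at the times in `I` -/
noncomputable def fam (I : Set ℝ) : Finset (Finset ι) :=
  Finset.univ.filter (fun K => 2 ≤ K.card ∧ ∃ t ∈ I, ∃ y, K = cls α v t y)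

/-- total weight of the vertices at the times in `I` -/
noncomputable def dsum (I : Set ℝ) : ℕ := ∑ K ∈ fam α v I, wt K.card

/-- total weight of the lines through the point `c` of the sweep line -/
noncomputable def csum (c : ℝ) : ℕ :=
  ∑ y ∈ Finset.univ.image (fun i => α i * c - v i), wt ((cls α v c y).card + 1)

/-- the lines through the points at time `∞` and at time `0` contain exactly two wires -/
structure Cfg : Prop where
  par : ∀ i, ∃! j, j ≠ i ∧ α j = α i
  clean : ∀ i, ∃! j, j ≠ i ∧ v j = v i
  inj : ∀ i j, α i = α j → v i = v j → i = j

end defs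

end Pool.Agent.Lib.MP_214199_co
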