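import Pool.Agent.Lib.MP_214199_co.SweepA
import Pool.Agent.Lib.MP_214199_co.CoreDefs

/-!
# The costs after sorting
-/

set_option autoImplicit false

namespace Pool.Agent.Lib.MP_214199_co

variable {ι : Type} [Fintype ι] {α v : ι → ℝ}

theorem coreB_card {e : Fin 12 ≃ ι} {a w : ℕ → ℝ}
    (he : ∀ i : Fin 12, a i = α (e i) ∧ w i = v (e i)) (t y : ℝ) :
    (thru a w (t, y)).card = (cls α v t y).card := by
  refine Finset.card_bij (fun i hi => e ⟨i, ?_⟩) ?_ ?_ ?_
  · exact Finset.mem_range.1 (Finset.mem_filter.1 hi).1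
  · intro i hi
    rw [cls, Finset.mem_filter]
    refine ⟨Finset.mem_univ _, ?_⟩
    have h1 := (Finset.mem_filter.1 hi).2
    have h2 := he ⟨i, Finset.mem_range.1 (Finset.mem_filter.1 hi).1⟩
    rw [← h2.1, ← h2.2]
    exact h1
  · intro i hi j hj hij
    exact congrArg Fin.val (e.injective hij)
  · intro x hx
    refine ⟨(e.symm x).val, ?_, ?_⟩
    · rw [thru, Finset.mem_filter]
      refine ⟨Finset.mem_range.2 (e.symm x).isLt, ?_⟩
      have h2 := he (e.symm x)
      rw [gv, h2.1, h2.2, e.apply_symm_apply]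
      exact (Finset.mem_filter.1 hx).2
    · exact e.apply_symm_apply x

theorem coreB_ne {e : Fin 12 ≃ ι} {a w : ℕ → ℝ} (hs : Srt a w)
    (he : ∀ i : Fin 12, a i = α (e i) ∧ w i = v (e i)) {x y : ι} (hxy : x ≠ y)
    (hα : α x = α y) : v x ≠ v y := by
  set i := e.symm x with hi
  set j := e.symm y with hj
  have hx : x = e i := (e.apply_symm_apply x).symm
  have hy : y = e j := (e.apply_symm_apply y).symm
  have hij : i ≠ j := fun h => hxy (by rw [hx, hy, h])
  have hij' : i.val ≠ j.val := fun h => hij (Fin.ext h)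
  have ha : a i = a j := by rw [(he i).1, (he j).1, ← hx, ← hy, hα]
  have hdiv : i.val / 2 = j.val / 2 := by
    rcases lt_trichotomy (i.val / 2) (j.val / 2) with h | h | h
    · exact absurd ha (ne_of_gt (hs.lt i j j.isLt h))
    · exact h
    · exact absurd ha (ne_of_lt (hs.lt j i i.isLt h))
  have hiw : v x = w i := by rw [(he i).2, ← hx]
  have hjw : v y = w j := by rw [(he j).2, ← hy]
  rw [hiw, hjw]
  have hi12 := i.isLt
  have hj12 := j.isLt
  obtain ⟨k, hk⟩ : ∃ k, k = i.val / 2 := ⟨_, rfl⟩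
  have hk6 : k < 6 := by omega
  rcases Nat.lt_or_ge i.val j.val with h | h
  · have h1 : i.val = 2 * k := by omega
    have h2 : j.val = 2 * k + 1 := by omega
    rw [h1, h2]
    exact (hs.par k hk6).2.ne'
  · have h1 : j.val = 2 * k := by omega
    have h2 : i.val = 2 * k + 1 := by omega
    rw [h1, h2]
    exact (hs.par k hk6).2.ne

theorem coreB_inj {e : Fin 12 ≃ ι} {a w : ℕ → ℝ} (hs : Srt a w)
    (he : ∀ i : Fin 12, a i = α (e i) ∧ w i = v (e i)) {t y t' y' : ℝ}
    (hc : 2 ≤ (cls α v t y).card) (h : cls α v t y = cls α v t' y') : t = t' ∧ y = y' := by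
  obtain ⟨i, hi, j, hj, hij⟩ := Finset.one_lt_card.1 (show 1 < (cls α v t y).card from hc)
  have hi' := hi
  have hj' := hj
  rw [h] at hi' hj'
  have e1 : α i * t - v i = y := (Finset.mem_filter.1 hi).2
  have e2 : α j * t - v j = y := (Finset.mem_filter.1 hj).2
  have e3 : α i * t' - v i = y' := (Finset.mem_filter.1 hi').2
  have e4 : α j * t' - v j = y' := (Finset.mem_filter.1 hj').2
  have hα : α i ≠ α j := by
    intro hα
    apply coreB_ne hs he hij hα
    rw [hα] at e1
    linarith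
  have h5 : (α i - α j) * (t - t') = 0 := by
    have : (α i - α j) * (t - t') = (α i * t - v i - (α j * t - v j)) -
        (α i * t' - v i - (α j * t' - v j)) := by ring
    rw [this, e1, e2, e3, e4]
    ring
  have h6 : t = t' := by
    rcases mul_eq_zero.1 h5 with h | h
    · exact absurd (sub_eq_zero.1 h) hα
    · exact sub_eq_zero.1 h
  refine ⟨h6, ?_⟩
  rw [← e1, ← e3, h6]

theorem dsum_eq_vcost {e : Fin 12 ≃ ι} {a w : ℕ → ℝ} (hs : Srt a w)
    (he : ∀ i : Fin 12, a i = α (e i) ∧ w i = v (e i)) (I : Set ℝ) :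
    dsum α v I = vcost a w {V | V.1 ∈ I} := by
  classical
  rw [dsum, vcost]
  symm
  refine Finset.sum_bij (fun V _ => cls α v V.1 V.2) ?_ ?_ ?_ ?_
  · intro V hV
    rw [Finset.mem_filter] at hV
    obtain ⟨h1, h2⟩ := hV
    rw [mem_vxs_iff hs] at h1
    rw [fam, Finset.mem_filter]
    refine ⟨Finset.mem_univ _, ?_, V.1, h2, V.2, rfl⟩
    rw [← coreB_card he]
    exact h1
  · intro V hV V' hV' h
    rw [Finset.mem_filter] at hV
    have h1 := hV.1
    rw [mem_vxs_iff hs] at h1
    have h2 : 2 ≤ (cls α v V.1 V.2).card := by rw [← coreB_card he]; exact h1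
    obtain ⟨h3, h4⟩ := coreB_inj hs he h2 h
    exact Prod.ext h3 h4
  · intro K hK
    rw [fam, Finset.mem_filter] at hK
    obtain ⟨_, h1, t, ht, y, rfl⟩ := hK
    refine ⟨(t, y), ?_, rfl⟩
    rw [Finset.mem_filter]
    refine ⟨?_, ht⟩
    rw [mem_vxs_iff hs, coreB_card he]
    exact h1
  · intro V hV
    have := coreB_card he V.1 V.2
    rw [← this]

theorem csum_eq {e : Fin 12 ≃ ι} {a w : ℕ → ℝ} (he : ∀ i : Fin 12, a i = α (e i) ∧ w i = v (e i))
    (c : ℝ) : csum α v c = ∑ y ∈ (Finset.range 12).image (fun i => gv a w i c),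
      wt ((thru a w (c, y)).card + 1) := by
  rw [csum]
  have himg : Finset.univ.image (fun i => α i * c - v i) =
      (Finset.range 12).image (fun i => gv a w i c) := by
    ext y
    rw [Finset.mem_image, Finset.mem_image]
    constructor
    · rintro ⟨x, _, rfl⟩
      refine ⟨(e.symm x).val, Finset.mem_range.2 (e.symm x).isLt, ?_⟩
      have h2 := he (e.symm x)
      rw [gv, h2.1, h2.2, e.apply_symm_apply]
    · rintro ⟨i, hi, rfl⟩
      have h2 := he ⟨i, Finset.mem_range.1 hi⟩
      refine ⟨e ⟨i, Finset.mem_range.1 hi⟩, Finset.mem_univ _, ?_⟩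
      rw [← h2.1, ← h2.2]
      rfl
  rw [himg]
  refine Finset.sum_congr rfl fun y _ => ?_
  rw [coreB_card he]

end Pool.Agent.Lib.MP_214199_co
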