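import Pool.Agent.Lib.MP_214199_co.CoreDefs

/-!
# Symmetries of arrangements
-/

set_option autoImplicit false

namespace Pool.Agent.Lib.MP_214199_co

variable {ι : Type} [Fintype ι] {α v : ι → ℝ}

theorem corec_mem_cls {t y : ℝ} {i : ι} : i ∈ cls α v t y ↔ α i * t - v i = y := by
  unfold cls
  rw [Finset.mem_filter]
  exact ⟨fun h => h.2, fun h => ⟨Finset.mem_univ _, h⟩⟩

theorem corec_mem_fam {I : Set ℝ} {K : Finset ι} :
    K ∈ fam α v I ↔ 2 ≤ K.card ∧ ∃ t ∈ I, ∃ y, K = cls α v t y := by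
  classical
  unfold fam
  constructor
  · intro h
    exact (Finset.mem_filter.1 h).2
  · intro h
    exact Finset.mem_filter.2 ⟨Finset.mem_univ _, h⟩

/-- reflection -/
theorem Cfg.neg (h : Cfg α v) : Cfg (fun i => - α i) v := by
  refine ⟨fun i => ?_, h.clean, fun i j h1 h2 => h.inj i j (neg_inj.1 h1) h2⟩
  obtain ⟨j, ⟨h1, h2⟩, h3⟩ := h.par i
  exact ⟨j, ⟨h1, congrArg Neg.neg h2⟩, fun k hk => h3 k ⟨hk.1, neg_inj.1 hk.2⟩⟩

theorem corec_cls_neg (t y : ℝ) : cls (fun i => - α i) v t y = cls α v (-t) y := by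
  ext i
  rw [corec_mem_cls, corec_mem_cls]
  have : - α i * t = α i * -t := by ring
  rw [this]

theorem corec_fam_neg (I : Set ℝ) : fam (fun i => - α i) v I = fam α v {t | -t ∈ I} := by
  ext K
  rw [corec_mem_fam, corec_mem_fam]
  refine and_congr_right fun _ => ?_
  constructor
  · rintro ⟨t, ht, y, rfl⟩
    exact ⟨-t, by simpa using ht, y, corec_cls_neg t y⟩
  · rintro ⟨t, ht, y, rfl⟩
    exact ⟨-t, ht, y, by rw [corec_cls_neg, neg_neg]⟩

theorem dsum_neg (I : Set ℝ) : dsum (fun i => - α i) v I = dsum α v {t | -t ∈ I} := by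
  unfold dsum
  rw [corec_fam_neg]

theorem csum_neg (c : ℝ) : csum (fun i => - α i) v c = csum α v (-c) := by
  unfold csum
  have h1 : (fun i => - α i * c - v i) = fun i => α i * -c - v i := by
    funext i
    ring
  rw [h1]
  exact Finset.sum_congr rfl fun y _ => by rw [corec_cls_neg]

/-- exchange of the points at `0` and at `∞` -/
theorem Cfg.swap (h : Cfg α v) : Cfg v α :=
  ⟨h.clean, h.par, fun i j h1 h2 => h.inj i j h2 h1⟩

theorem corec_swap_iff {c x z y : ℝ} (hc : c ≠ 0) :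
    z * c - x = y ↔ x * c⁻¹ - z = -(y * c⁻¹) := by
  constructor
  · intro h
    rw [← h]
    field_simp
    ring
  · intro h
    have h1 : (x * c⁻¹ - z) * c = -(y * c⁻¹) * c := by rw [h]
    have h2 : (x * c⁻¹ - z) * c = x - z * c := by
      field_simp
    have h3 : -(y * c⁻¹) * c = -y := by
      field_simp
    rw [h2, h3] at h1
    linarith

theorem corec_cls_swap {c : ℝ} (hc : c ≠ 0) (y : ℝ) :
    cls v α c y = cls α v c⁻¹ (-(y * c⁻¹)) := by
  ext i
  rw [corec_mem_cls, corec_mem_cls]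
  exact corec_swap_iff hc

theorem corec_fam_swap {I : Set ℝ} (hI : (0 : ℝ) ∉ I) :
    fam v α I = fam α v {t | t ≠ 0 ∧ t⁻¹ ∈ I} := by
  ext K
  rw [corec_mem_fam, corec_mem_fam]
  refine and_congr_right fun _ => ?_
  constructor
  · rintro ⟨t, ht, y, rfl⟩
    have h0 : t ≠ 0 := fun h => hI (h ▸ ht)
    exact ⟨t⁻¹, ⟨inv_ne_zero h0, by rw [inv_inv]; exact ht⟩, _, corec_cls_swap h0 y⟩
  · rintro ⟨t, ⟨h0, ht⟩, y, rfl⟩
    refine ⟨t⁻¹, ht, -(y * t⁻¹), ?_⟩
    rw [corec_cls_swap (inv_ne_zero h0), inv_inv]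
    congr 1
    field_simp

theorem dsum_swap (I : Set ℝ) (hI : (0 : ℝ) ∉ I) :
    dsum v α I = dsum α v {t | t ≠ 0 ∧ t⁻¹ ∈ I} := by
  unfold dsum
  rw [corec_fam_swap hI]

theorem csum_swap {c : ℝ} (hc : c ≠ 0) : csum v α c = csum α v c⁻¹ := by
  unfold csum
  have h1 : Finset.univ.image (fun i => α i * c⁻¹ - v i)
      = (Finset.univ.image (fun i => v i * c - α i)).image (fun y => -(y * c⁻¹)) := by
    rw [Finset.image_image]
    refine Finset.image_congr fun i _ => ?_
    exact (corec_swap_iff hc).1 rfl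
  have h3 : ∑ y ∈ (Finset.univ.image (fun i => v i * c - α i)).image (fun y => -(y * c⁻¹)),
      wt ((cls α v c⁻¹ y).card + 1)
      = ∑ y ∈ Finset.univ.image (fun i => v i * c - α i),
        wt ((cls α v c⁻¹ (-(y * c⁻¹))).card + 1) := by
    refine Finset.sum_image ?_
    intro x _ y _ hxy
    have h2 : x * c⁻¹ = y * c⁻¹ := neg_inj.1 hxy
    exact mul_right_cancel₀ (inv_ne_zero hc) h2
  rw [h1, h3]
  exact Finset.sum_congr rfl fun y _ => by rw [corec_cls_swap hc]

/-- at a clean event there is no cost -/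
theorem Cfg.csum_zero (h : Cfg α v) : csum α v 0 = 0 := by
  classical
  unfold csum
  refine Finset.sum_eq_zero fun y hy => ?_
  obtain ⟨i, _, rfl⟩ := Finset.mem_image.1 hy
  obtain ⟨j, ⟨h1, h2⟩, h3⟩ := h.clean i
  have h4 : cls α v 0 (α i * 0 - v i) = {i, j} := by
    ext k
    rw [corec_mem_cls, Finset.mem_insert, Finset.mem_singleton]
    constructor
    · intro hk
      have h5 : v k = v i := by
        rw [mul_zero, mul_zero] at hk
        linarith
      by_cases hki : k = i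
      · exact Or.inl hki
      · exact Or.inr (h3 k ⟨hki, h5⟩)
    · rintro (rfl | rfl)
      · rfl
      · rw [mul_zero, mul_zero, h2]
  rw [h4, Finset.card_pair (Ne.symm h1)]
  rfl

theorem dsum_union {I J : Set ℝ} (h : Cfg α v) (hIJ : Disjoint I J) :
    dsum α v (I ∪ J) = dsum α v I + dsum α v J := by
  classical
  unfold dsum
  have h1 : fam α v (I ∪ J) = fam α v I ∪ fam α v J := by
    ext K
    rw [Finset.mem_union, corec_mem_fam, corec_mem_fam, corec_mem_fam]
    constructor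
    · rintro ⟨hK, t, ht | ht, hy⟩
      · exact Or.inl ⟨hK, t, ht, hy⟩
      · exact Or.inr ⟨hK, t, ht, hy⟩
    · rintro (⟨hK, t, ht, hy⟩ | ⟨hK, t, ht, hy⟩)
      · exact ⟨hK, t, Or.inl ht, hy⟩
      · exact ⟨hK, t, Or.inr ht, hy⟩
  have h2 : Disjoint (fam α v I) (fam α v J) := by
    rw [Finset.disjoint_left]
    intro K hK1 hK2
    rw [corec_mem_fam] at hK1 hK2
    obtain ⟨hK, t, ht, y, hy⟩ := hK1
    obtain ⟨_, t', ht', y', hy'⟩ := hK2
    obtain ⟨i, hi, j, hj, hij⟩ := Finset.one_lt_card.1 (show 1 < K.card from hK)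
    have a1 := corec_mem_cls.1 (hy ▸ hi)
    have a2 := corec_mem_cls.1 (hy ▸ hj)
    have a3 := corec_mem_cls.1 (hy' ▸ hi)
    have a4 := corec_mem_cls.1 (hy' ▸ hj)
    have a5 : (α i - α j) * (t - t') = 0 := by linarith
    rcases mul_eq_zero.1 a5 with a6 | a6
    · have a7 : α i = α j := by linarith
      have a8 : v i = v j := by
        rw [a7] at a1
        linarith
      exact hij (h.inj i j a7 a8)
    · have a7 : t = t' := by linarith
      exact Set.disjoint_left.1 hIJ ht (a7 ▸ ht')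
  rw [h1, Finset.sum_union h2]

end Pool.Agent.Lib.MP_214199_co
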