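import Pool.Agent.Lib.MP_214199_co.Search

/-!
# The kernel evaluates the search
-/

set_option autoImplicit false

namespace Pool.Agent.Lib.MP_214199_co

theorem SL_true : SL 407901468851537952 0 0 = true := by decide +kernel

theorem S1_true : S1 407901468851537952 0 0 = true := by decide +kernel

end Pool.Agent.Lib.MP_214199_co
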