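import Pool.Agent.Lib.MP_214199_co.EncA
import Pool.Agent.Lib.MP_214199_co.EncB
import Pool.Agent.Lib.MP_214199_co.Potential

/-!
# Soundness of the search in one lune
-/

set_option autoImplicit false

namespace Pool.Agent.Lib.MP_214199_co

theorem sound_rec_false {X c : Bool}
    (h : Bool.rec (motive := fun _ => Bool) false X c = true) : c = true ∧ X = true := by
  cases c
  · exact absurd h Bool.false_ne_true
  · exact ⟨rfl, h⟩

theorem sound_rec_true {X c : Bool} (h : Bool.rec (motive := fun _ => Bool) true X c = true)
    (hc : c = true) : X = true := by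
  subst hc; exact h

theorem sound_chk {N : ℕ → ℕ} {alt c1 c2 : ℕ} {k : ℕ → ℕ → Bool} {row D : ℕ}
    (h : chk N alt c1 c2 k row D = true) (h1 : Nat.add D c1 ≤ Nat.add (N row) c2)
    (h2 : Nat.add (Nat.mod (Nat.land (Nat.xor row alt) 37191016277640225) 31) (Nat.mul 2 D) ≤ 18) :
    k row D = true := by
  unfold chk at h
  rw [force_eq] at h
  have h3 := sound_rec_true h (Nat.ble_eq_true_of_le h1)
  exact sound_rec_true h3 (Nat.ble_eq_true_of_le h2)

theorem sound_expandX {LD : ℕ} {ih : ℕ → ℕ → ℕ → Bool} {row D last X : ℕ}
    (h : expandX LD ih row D last X = true) :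
    loopR (fun s => ih (row3 row s) D s)
      (Nat.land X (Nat.shiftRight X 5)) (Nat.sub last 10) = true ∧
    (Nat.succ D ≤ LD → loopR (fun s => ih (row2 row s) (Nat.succ D) s) X
        (Nat.sub last 5) = true ∧
      (Nat.add D 3 ≤ LD → loopR (fun s => ih (row4 row s) (Nat.add D 3) s)
        (Nat.land X (Nat.land (Nat.shiftRight X 5) (Nat.shiftRight X 10)))
        (Nat.sub last 15) = true)) := by
  unfold expandX at h
  obtain ⟨h2, h⟩ := sound_rec_false h
  refine ⟨h2, fun hD => ?_⟩
  obtain ⟨h3, h⟩ := sound_rec_false (sound_rec_true h (Nat.ble_eq_true_of_le hD))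
  exact ⟨h3, fun hD => sound_rec_true h (Nat.ble_eq_true_of_le hD)⟩

theorem sound_expand {LD : ℕ} {ev : ℕ → ℕ → Bool} {ih : ℕ → ℕ → ℕ → Bool} {row D last : ℕ}
    (h : expand LD ev ih row D last = true) :
    ev row D = true ∧ expandX LD ih row D last (xm row) = true := by
  unfold expand at h
  obtain ⟨h1, h⟩ := sound_rec_false h
  rw [force_eq] at h
  exact ⟨h1, h⟩

theorem sound_land (a b i : ℕ) : (Nat.land a b).testBit i = (a.testBit i && b.testBit i) :=
  Nat.testBit_and a b i

theorem sound_shr (a k i : ℕ) : (Nat.shiftRight a k).testBit i = a.testBit (k + i) :=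
  Nat.testBit_shiftRight a

theorem sound_zero (N : ℕ → ℕ) (alt c1 c2 LD : ℕ) (ev : ℕ → ℕ → Bool) (row D last : ℕ) :
    search N alt c1 c2 LD ev 0 row D last = false := rfl

theorem sound_succ (N : ℕ → ℕ) (alt c1 c2 LD : ℕ) (ev : ℕ → ℕ → Bool) (m row D last : ℕ) :
    search N alt c1 c2 LD ev (m + 1) row D last =
      chk N alt c1 c2 (fun row D => expand LD ev (search N alt c1 c2 LD ev m) row D last) row D :=
  rfl

theorem NSteps.perm {last n : ℕ} {L L' : List ℕ} (h : NSteps last L n L') : L'.Perm L := by
  induction h with
  | nil => exact List.Perm.refl _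
  | cons _ _ hm _ ih => exact ih.trans hm.perm

/-- `Ev L D`: an event that leads to the goal is possible at the row `L` with cost `D` -/
theorem search_sound {N : ℕ → ℕ} {alt c1 c2 LD : ℕ} {ev : ℕ → ℕ → Bool} {c : ℕ → ℕ → Bool} {b : ℕ}
    {Ev : List ℕ → ℕ → Prop} (hc : GoodC c)
    (hN : ∀ L : List ℕ, L.length = 12 → (∀ x ∈ L, x < 16) → N (enc L) = cnt c L)
    (hodd : ∀ L : List ℕ, L.length = 12 → (∀ x ∈ L, x < 16) →
      Nat.mod (Nat.land (Nat.xor (enc L) alt) 37191016277640225) 31 = odd b L)
    (hev : ∀ (L : List ℕ) (D : ℕ), L.length = 12 → (∀ x ∈ L, x < 16) → Ev L D →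
      D + c1 ≤ cnt c L + c2 ∧ odd b L + 2 * D ≤ 18 ∧ D ≤ LD ∧ ev (enc L) D = false)
    (fuel : ℕ) {L L' : List ℕ} {D last n : ℕ} (hL : L.length = 12) (h16 : ∀ x ∈ L, x < 16)
    (hs : search N alt c1 c2 LD ev fuel (enc L) D (5 * last) = true)
    (hn : NSteps last L n L') : ¬ Ev L' (D + n) := by
  induction fuel generalizing L D last n with
  | zero =>
    rw [sound_zero] at hs
    exact absurd hs Bool.false_ne_true
  | succ m ih =>
    intro hEv
    rw [sound_succ] at hs
    have hk : D + c1 ≤ cnt c L + c2 → odd b L + 2 * D ≤ 18 →
        expand LD ev (search N alt c1 c2 LD ev m) (enc L) D (5 * last) = true := by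
      intro h1 h2
      have h3 := sound_chk (k := fun row D => expand LD ev (search N alt c1 c2 LD ev m) row D
        (5 * last)) hs (by rw [hN L hL h16]; exact h1) (by rw [hodd L hL h16]; exact h2)
      exact h3
    cases hn with
    | nil =>
      obtain ⟨h1, h2, h3, h4⟩ := hev L' _ hL h16 hEv
      rw [Nat.add_zero] at h1 h2 h3 h4
      have h5 := (sound_expand (hk h1 h2)).1
      rw [h4] at h5
      exact Bool.false_ne_true h5
    | @cons _ p r _ L1 n1 _ hlast hr hm hrest =>
      have hperm := hm.perm
      have hL1 : L1.length = 12 := by rw [hm.length_eq, hL]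
      have h161 : ∀ x ∈ L1, x < 16 := fun x hx => h16 x (hperm.mem_iff.mp hx)
      have hL' : L'.length = 12 ∧ ∀ x ∈ L', x < 16 :=
        ⟨by rw [hrest.perm.length_eq, hL1], fun x hx => h161 x (hrest.perm.mem_iff.mp hx)⟩
      obtain ⟨h1, h2, h3, _⟩ := hev L' _ hL'.1 hL'.2 hEv
      have h4 := hrest.cnt_le hc
      have h5 := hrest.odd_le b
      have h6 := hm.cnt_le_wt hc
      have h7 := hm.odd_le b
      have hx := (sound_expand (hk (by omega) (by omega))).2
      obtain ⟨h3m, h24⟩ := sound_expandX hx
      obtain ⟨P, B, Q, rfl, rfl, hP, hB, h2r, hBlk⟩ := hm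
      have hr' : r = 2 ∨ r = 3 ∨ r = 4 := by omega
      rcases hr' with rfl | rfl | rfl
      · -- two wires
        match B, hB with
        | [x, y], _ =>
          simp only [List.append_assoc, List.cons_append, List.nil_append, List.reverse_cons,
            List.reverse_nil] at hL h16 hL1 h161 h3m h24 hrest h1 h2 h3 h4 h5 h6 h7
          have hw : wt 2 = 1 := rfl
          have hxy : x / 2 < y / 2 := by
            have := List.pairwise_cons.mp hBlk
            exact this.1 y (by simp)
          have hloop := (h24 (show D + 1 ≤ LD by omega)).1
          have h8 := loopR_spec hloop (5 * p + 4) (by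
            change 5 * last - 5 ≤ 5 * p + 4
            omega) (by
              rw [← hP, xm_testBit hL h16, cx]
              exact decide_eq_true hxy)
          have h9 : 5 * p + 4 - 4 = 5 * p := by omega
          rw [h9] at h8
          have h8' : search N alt c1 c2 LD ev m (row2 (enc (P ++ x :: y :: Q)) (5 * p)) (D + 1)
            (5 * p) = true := h8
          rw [← hP, row2_enc P Q (by omega) (fun z hz => by
            have := h16 z (by simp [hz])
            omega) (by
            have := h16 y (by simp)
            omega), hP] at h8'
          have h10 := ih (D := D + 1) (last := p) (n := n1) hL1 h161 h8' hrest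
          apply h10
          have h11 : D + 1 + n1 = D + (wt 2 + n1) := by omega
          rw [h11]; exact hEv
      · match B, hB with
        | [x, y, z], _ =>
          simp only [List.append_assoc, List.cons_append, List.nil_append, List.reverse_cons,
            List.reverse_nil] at hL h16 hL1 h161 h3m h24 hrest h1 h2 h3 h4 h5 h6 h7
          have hw : wt 3 = 0 := rfl
          have hxy : x / 2 < y / 2 := by
            have := List.pairwise_cons.mp hBlk
            exact this.1 y (by simp)
          have hyz : y / 2 < z / 2 := by
            have := List.pairwise_cons.mp (List.pairwise_cons.mp hBlk).2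
            exact this.1 z (by simp)
          have e1 : P ++ x :: y :: z :: Q = (P ++ [x]) ++ y :: z :: Q := by simp
          have h8 := loopR_spec h3m (5 * p + 4) (by
            change 5 * last - 10 ≤ 5 * p + 4
            omega) (by
              rw [sound_land, sound_shr, Bool.and_eq_true]
              constructor
              · rw [← hP, xm_testBit hL h16, cx]
                exact decide_eq_true hxy
              · have e2 : 5 + (5 * p + 4) = 5 * (P ++ [x]).length + 4 := by
                  rw [List.length_append, hP, List.length_singleton]; ring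
                rw [e2, e1, xm_testBit (by rw [← e1]; exact hL) (by rw [← e1]; exact h16), cx]
                exact decide_eq_true hyz)
          have h9 : 5 * p + 4 - 4 = 5 * p := by omega
          rw [h9] at h8
          have h8' : search N alt c1 c2 LD ev m (row3 (enc (P ++ x :: y :: z :: Q)) (5 * p)) D
            (5 * p) = true := h8
          rw [← hP, row3_enc P Q (by omega) (fun w hw => by
            have := h16 w (by simp [hw])
            omega) (by
            have := h16 y (by simp)
            omega) (by
            have := h16 z (by simp)
            omega), hP] at h8'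
          have h10 := ih (D := D) (last := p) (n := n1) hL1 h161 h8' hrest
          apply h10
          have h11 : D + n1 = D + (wt 3 + n1) := by omega
          rw [h11]; exact hEv
      · match B, hB with
        | [x, y, z, w], _ =>
          simp only [List.append_assoc, List.cons_append, List.nil_append, List.reverse_cons,
            List.reverse_nil] at hL h16 hL1 h161 h3m h24 hrest h1 h2 h3 h4 h5 h6 h7
          have hw : wt 4 = 3 := rfl
          have hxy : x / 2 < y / 2 := by
            have := List.pairwise_cons.mp hBlk
            exact this.1 y (by simp)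
          have hyz : y / 2 < z / 2 := by
            have := List.pairwise_cons.mp (List.pairwise_cons.mp hBlk).2
            exact this.1 z (by simp)
          have hzw : z / 2 < w / 2 := by
            have := List.pairwise_cons.mp (List.pairwise_cons.mp
              (List.pairwise_cons.mp hBlk).2).2
            exact this.1 w (by simp)
          have e1 : P ++ x :: y :: z :: w :: Q = (P ++ [x]) ++ y :: z :: w :: Q := by simp
          have e3 : P ++ x :: y :: z :: w :: Q = (P ++ [x, y]) ++ z :: w :: Q := by simp
          have hloop := (h24 (show D + 1 ≤ LD by omega)).2 (show D + 3 ≤ LD by omega)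
          have h8 := loopR_spec hloop (5 * p + 4) (by
            change 5 * last - 15 ≤ 5 * p + 4
            omega) (by
              rw [sound_land, sound_land, sound_shr, sound_shr, Bool.and_eq_true, Bool.and_eq_true]
              refine ⟨?_, ?_, ?_⟩
              · rw [← hP, xm_testBit hL h16, cx]
                exact decide_eq_true hxy
              · have e2 : 5 + (5 * p + 4) = 5 * (P ++ [x]).length + 4 := by
                  rw [List.length_append, hP, List.length_singleton]; ring
                rw [e2, e1, xm_testBit (by rw [← e1]; exact hL) (by rw [← e1]; exact h16), cx]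
                exact decide_eq_true hyz
              · have e2 : 10 + (5 * p + 4) = 5 * (P ++ [x, y]).length + 4 := by
                  rw [List.length_append, hP, List.length_cons, List.length_singleton]; ring
                rw [e2, e3, xm_testBit (by rw [← e3]; exact hL) (by rw [← e3]; exact h16), cx]
                exact decide_eq_true hzw)
          have h9 : 5 * p + 4 - 4 = 5 * p := by omega
          rw [h9] at h8
          have h8' : search N alt c1 c2 LD ev m (row4 (enc (P ++ x :: y :: z :: w :: Q)) (5 * p))
            (D + 3) (5 * p) = true := h8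
          rw [← hP, row4_enc P Q (by omega) (by omega) (fun w hw => by
            have := h16 w (by simp [hw])
            omega) (by
            have := h16 z (by simp)
            omega) (by
            have := h16 w (by simp)
            omega), hP] at h8'
          have h10 := ih (D := D + 3) (last := p) (n := n1) hL1 h161 h8' hrest
          apply h10
          have h11 : D + 3 + n1 = D + (wt 4 + n1) := by omega
          rw [h11]; exact hEv

end Pool.Agent.Lib.MP_214199_co
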