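import Pool.Agent.Lib.MP_214199_co.Normal
import Pool.Agent.Lib.MP_214199_co.BlkC
import Pool.Agent.Lib.MP_214199_co.Sound
import Pool.Agent.Lib.MP_214199_co.Run

/-!
# There is no run with small cost
-/

set_option autoImplicit false

namespace Pool.Agent.Lib.MP_214199_co

theorem norun_odd_le (b : ℕ) (L : List ℕ) : odd b L ≤ L.length := by
  induction L generalizing b with
  | nil => exact le_refl _
  | cons x L ih =>
    have := ih (b + 1)
    rw [odd, List.length_cons]
    omega

theorem norun_row0 : row0.length = 12 ∧ ∀ x ∈ row0, x < 16 := by decide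

theorem norun_perm {L : List ℕ} (h : L.Perm row0) : L.length = 12 ∧ ∀ x ∈ L, x < 16 :=
  ⟨by rw [h.length_eq]; exact norun_row0.1, fun x hx => norun_row0.2 x (h.mem_iff.mp hx)⟩

theorem Steps.perm {L L' : List ℕ} {n : ℕ} (h : Steps L n L') : L'.Perm L := by
  induction h with
  | nil => exact List.Perm.refl _
  | cons hm _ ih => exact ih.trans hm.perm

theorem evFin_rowF (D : ℕ) : evFin (enc rowF) D = false := by
  rw [enc_rowF]
  rfl

/-- soundness of the last stage -/
theorem S3_sound {L : List ℕ} {D n : ℕ} (hL : L.length = 12) (h16 : ∀ x ∈ L, x < 16)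
    (hs : S3 (enc L) D 0 = true) (hn : NSteps 0 L n rowF) (hD : D + n ≤ 9) : False := by
  have h := search_sound (Ev := fun L D => L = rowF ∧ D ≤ 9) (b := 0) goodC_cy
    (fun L => yn_enc) (fun L => odd_enc0)
    (fun L D hL h16 hE => by
      obtain ⟨rfl, hD⟩ := hE
      have h1 : cnt cy rowF = 6 := by decide
      have h2 : odd 0 rowF = 0 := by decide
      exact ⟨by omega, by omega, hD, evFin_rowF D⟩) 70 (last := 0) hL h16 hs hn
  exact h ⟨rfl, hD⟩

theorem norun_beq (X : ℕ) : Nat.beq X X = true := Nat.beq_eq.symm ▸ rfl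

theorem norun_ifEq {X E : ℕ} {S : Bool} (hX : X = E) : ifEq X E S = S := by
  subst hX
  unfold ifEq
  rw [norun_beq X]

theorem norun_evA_eq (row D : ℕ) : evA row D = ifEq (Nat.land (xm row) 18032007892189200) 18032007892189200
    (S3 (Nat.lor (Nat.land (Nat.shiftRight row 5) 34937015291116575)
      (Nat.shiftLeft (Nat.land row 34937015291116575) 5)) D 0) := rfl

theorem norun_evA {L L' : List ℕ} {D : ℕ} (h : EvA L L') (hL : L.length = 12)
    (h16 : ∀ x ∈ L, x < 16) (hs : evA (enc L) D = true) : S3 (enc L') D 0 = true := by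
  have h1 := (norun_ifEq (xm_evA h hL h16)).symm.trans ((norun_evA_eq (enc L) D).symm.trans hs)
  rw [enc_evA h hL h16] at h1
  exact h1

/-- soundness of the second stage -/
theorem S2_sound {L L3 L4 : List ℕ} {D n n' : ℕ} (hL : L.length = 12) (h16 : ∀ x ∈ L, x < 16)
    (hs : S2 (enc L) D 0 = true) (hn : NSteps 0 L n L3) (hA : EvA L3 L4)
    (h4 : NSteps 0 L4 n' rowF) (h6 : D + n ≤ 6) (h9 : D + n + n' ≤ 9) : False := by
  have h := search_sound (Ev := fun L D => ∃ L4 n', EvA L L4 ∧ NSteps 0 L4 n' rowF ∧ D ≤ 6 ∧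
      D + n' ≤ 9) (b := 1) goodC_cx
    (fun L => xn_enc) (fun L => odd_enc1)
    (fun L D hL h16 hE => by
      obtain ⟨L4, n', hA, h4, h6, h9⟩ := hE
      have h1 := hA.le_cnt
      have h2 : odd 1 L = odd 0 L4 := hA.odd_eq 0
      have h3 := h4.odd_le 0
      have h5 : odd 0 rowF = 0 := by decide
      refine ⟨by omega, by omega, h6, ?_⟩
      by_contra hne
      have hs : evA (enc L) D = true := by
        cases hh : evA (enc L) D
        · exact absurd hh hne
        · rfl
      have hlen : L4.length = 12 := by rw [hA.perm.length_eq, hL]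
      exact S3_sound hlen (fun x hx => h16 x (hA.perm.mem_iff.mp hx))
        (norun_evA hA hL h16 hs) h4 h9) 70 (last := 0) hL h16 hs hn
  exact h ⟨L4, n', hA, h4, h6, h9⟩

theorem norun_evC {L L' : List ℕ} {D dd : ℕ} (h : EvC L L' dd) (hL : L.length = 12)
    (h16 : ∀ x ∈ L, x < 16) (hs : evC (enc L) D = true) (hdd : 2 * D + dd ≤ 6)
    (hcnt : D + dd ≤ cnt cx L') : S2 (enc L') (D + dd) 0 = true := by
  unfold evC at hs
  have h1 := blkC_sound hs hL h16 h (by
    change dd ≤ 6 - 2 * D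
    omega) (by
    change 6 - 2 * D ≤ 6
    omega) (by
    change 12 + 2 * dd ≤ 12 - 2 * D + 2 * cnt cx L'
    omega)
  exact h1

/-- soundness of the first stage -/
theorem S1_sound {L1 L2 L3 L4 : List ℕ} {n dd n3 n4 : ℕ}
    (hn : NSteps 0 row0 n L1) (hC : EvC L1 L2 dd) (h3 : NSteps 0 L2 n3 L3) (hA : EvA L3 L4)
    (h4 : NSteps 0 L4 n4 rowF) (hd : 2 * n + dd ≤ 6) (h6 : n + dd + n3 ≤ 6)
    (h9 : n + dd + n3 + n4 ≤ 9) : False := by
  have hs : S1 (enc row0) 0 0 = true := by
    rw [enc_row0]; exact S1_true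
  have h := search_sound (Ev := fun L D => ∃ L2 L3 L4 dd n3 n4, EvC L L2 dd ∧
      NSteps 0 L2 n3 L3 ∧ EvA L3 L4 ∧ NSteps 0 L4 n4 rowF ∧ 2 * D + dd ≤ 6 ∧ D + dd + n3 ≤ 6 ∧
      D + dd + n3 + n4 ≤ 9) (b := 0) goodC_cx
    (fun L => xn_enc) (fun L => odd_enc0)
    (fun L D hL h16 hE => by
      obtain ⟨L2, L3, L4, dd, n3, n4, hC, h3, hA, h4, hd, h6, h9⟩ := hE
      have e1 := hC.length_le
      have e2 : odd 0 L ≤ odd 1 L2 + 2 * dd := hC.odd_le 0
      have e3 := h3.odd_le 1
      have e4 : odd 1 L3 = odd 0 L4 := hA.odd_eq 0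
      have e5 := h4.odd_le 0
      have e6 : odd 0 rowF = 0 := by decide
      have e7 := h3.cnt_le goodC_cx
      have e8 := hA.le_cnt
      have hlen2 : L2.length = 12 := by rw [hC.perm.length_eq, hL]
      have hlen3 : L3.length = 12 := by rw [h3.perm.length_eq, hlen2]
      refine ⟨by omega, by omega, by omega, ?_⟩
      by_contra hne
      have hs : evC (enc L) D = true := by
        cases hh : evC (enc L) D
        · exact absurd hh hne
        · rfl
      exact S2_sound hlen2 (fun x hx => h16 x (hC.perm.mem_iff.mp hx))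
        (norun_evC hC hL h16 hs hd (by omega)) h3 hA h4 h6 h9) 70 (last := 0)
        norun_row0.1 norun_row0.2 hs hn
  refine h ⟨L2, L3, L4, dd, n3, n4, hC, h3, hA, h4, ?_, ?_, ?_⟩ <;> omega

theorem norun_evL_eq (row D : ℕ) : evL row D = ifEq (Nat.land (xm row) 18032007892189200) 18032007892189200 false := rfl

theorem norun_evL {L L' : List ℕ} {D : ℕ} (h : EvA L L') (hL : L.length = 12)
    (h16 : ∀ x ∈ L, x < 16) : evL (enc L) D = false :=
  (norun_evL_eq (enc L) D).trans (norun_ifEq (xm_evA h hL h16))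

/-- a lune with clean ends has cost at least 3 -/
theorem no_lune {L L' : List ℕ} {n : ℕ} (h : Steps row0 n L) (hA : EvA L L') : 3 ≤ n := by
  by_contra hlt
  have hs : SL (enc row0) 0 0 = true := by
    rw [enc_row0]; exact SL_true
  have hn := h.normal (by omega)
  have h := search_sound (Ev := fun L D => (∃ L', EvA L L') ∧ D ≤ 2) (b := 0) goodC_cx
    (fun L => xn_enc) (fun L => odd_enc0)
    (fun L D hL h16 hE => by
      obtain ⟨⟨L', hA⟩, hD⟩ := hE
      have h1 := hA.le_cnt
      have h2 := norun_odd_le 0 L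
      exact ⟨by omega, by omega, hD, norun_evL hA hL h16⟩) 70 (last := 0)
    norun_row0.1 norun_row0.2 hs hn
  exact h ⟨⟨L', hA⟩, by omega⟩

/-- there is no run of cost at most 9 -/
theorem no_run {L1 L2 L3 L4 : List ℕ} {D1 dd D3 D4 : ℕ} (h1 : Steps row0 D1 L1)
    (hC : EvC L1 L2 dd) (h3 : Steps L2 D3 L3) (hA : EvA L3 L4) (h4 : Steps L4 D4 rowF)
    (hD : D1 ≤ D3) (hD4 : 3 ≤ D4) (hsum : D1 + dd + D3 + D4 ≤ 9) : False := by
  have hl1 : L1.length = 12 := by rw [h1.perm.length_eq]; exact norun_row0.1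
  have hl2 : L2.length = 12 := by rw [hC.perm.length_eq, hl1]
  have hl3 : L3.length = 12 := by rw [h3.perm.length_eq, hl2]
  have e1 := h1.cnt_le goodC_cx
  have e2 := hC.cnt_le (by
    intro h0
    rw [h0] at hl1
    exact absurd hl1 (by decide))
  have e3 := h3.cnt_le goodC_cx
  have e4 := hA.le_cnt
  have e5 := hA.cnt_cy_le (by
    intro h0
    rw [h0] at hl3
    exact absurd hl3 (by decide))
  have e6 : cnt cx row0 = 5 := by decide
  exact S1_sound (h1.normal (by omega)) hC (h3.normal (by omega)) hA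
    (h4.normal_rowF (D := D1 + dd + D3) (by omega) (by omega)) (by omega) (by omega) (by omega)

end Pool.Agent.Lib.MP_214199_co
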