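import Pool.Agent.Lib.MP_214199_co.SweepA
import Pool.Agent.Lib.MP_214199_co.Potential

/-!
# The events of the sweep
-/

set_option autoImplicit false

namespace Pool.Agent.Lib.MP_214199_co

/-- splitting a sorted list at its minimal value -/
theorem sweepC_split (f : ℕ → ℝ) (m : ℝ) (R : List ℕ) (h : R.Pairwise (fun x y => f x ≤ f y))
    (hm : ∀ x ∈ R, m ≤ f x) :
    R = R.filter (fun i => f i = m) ++ R.filter (fun i => m < f i) := by
  induction R with
  | nil => simp
  | cons a R ih =>
    rw [List.pairwise_cons] at h
    rcases (hm a List.mem_cons_self).eq_or_lt with h1 | h1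
    · have h2 := ih h.2 fun x hx => hm x (List.mem_cons_of_mem _ hx)
      rw [List.filter_cons_of_pos (by simp [h1]), List.filter_cons_of_neg (by simp [h1]),
        List.cons_append, ← h2]
    · have h3 : R.filter (fun i => f i = m) = [] := by
        rw [List.filter_eq_nil_iff]
        intro x hx
        have := h.1 x hx
        simp only [decide_eq_true_eq]
        intro h4
        linarith
      have h4 : R.filter (fun i => m < f i) = R := by
        rw [List.filter_eq_self]
        intro x hx
        have := h.1 x hx
        simp only [decide_eq_true_eq]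
        linarith
      rw [List.filter_cons_of_neg (by simp only [decide_eq_true_eq]; intro h5; linarith),
        List.filter_cons_of_pos (by simpa using h1), h3, h4, List.nil_append]

/-- decomposition of a sorted list into blocks -/
theorem exists_blocks (f : ℕ → ℝ) (R : List ℕ)
    (h : R.Pairwise (fun x y => f x < f y ∨ (f x = f y ∧ x / 2 < y / 2))) :
    ∃ out, EvC R out (∑ y ∈ (R.map f).toFinset, wt ((R.filter (fun i => f i = y)).length + 1)) ∧
      out.Pairwise (fun x y => f x < f y ∨ (f x = f y ∧ y / 2 < x / 2)) := by
  obtain ⟨N, hN⟩ : ∃ N, R.length ≤ N := ⟨_, le_rfl⟩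
  induction N generalizing R with
  | zero =>
    have : R = [] := List.eq_nil_of_length_eq_zero (by omega)
    subst this
    exact ⟨[], by simpa using EvC.nil, List.Pairwise.nil⟩
  | succ N ih =>
    rcases R with _ | ⟨x, R0⟩
    · exact ⟨[], by simpa using EvC.nil, List.Pairwise.nil⟩
    · set R := x :: R0 with hR
      set B := R.filter (fun i => f i = f x) with hB
      set R' := R.filter (fun i => f x < f i) with hR'
      have hsort : R.Pairwise (fun x y => f x ≤ f y) :=
        h.imp fun h1 => h1.elim le_of_lt fun h2 => h2.1.le
      have hmin : ∀ y ∈ R, f x ≤ f y := by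
        intro y hy
        rcases List.mem_cons.1 hy with rfl | hy
        · exact le_rfl
        · exact (List.pairwise_cons.1 hsort).1 y hy
      have hsplit : R = B ++ R' := sweepC_split f (f x) R hsort hmin
      have hBx : B ≠ [] := by
        intro h1
        have : x ∈ B := by simp [hB, hR]
        rw [h1] at this
        simp at this
      have hBm : ∀ y ∈ B, f y = f x := by
        intro y hy
        simpa using (List.mem_filter.1 hy).2
      have hRm : ∀ y ∈ R', f x < f y := by
        intro y hy
        simpa using (List.mem_filter.1 hy).2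
      have hlen : R'.length ≤ N := by
        have h1 : R.length = B.length + R'.length := by
          conv_lhs => rw [hsplit]
          rw [List.length_append]
        have h2 := List.length_pos_iff.2 hBx
        omega
      obtain ⟨out, h1, h2⟩ := ih R' (h.sublist List.filter_sublist) hlen
      have hBlk : Blk B := by
        have h3 : B.Pairwise (fun x y => f x < f y ∨ (f x = f y ∧ x / 2 < y / 2)) :=
          h.sublist List.filter_sublist
        refine h3.imp_of_mem fun {a b} ha hb hab => ?_
        rcases hab with hab | hab
        · rw [hBm a ha, hBm b hb] at hab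
          exact absurd hab (lt_irrefl _)
        · exact hab.2
      refine ⟨B.reverse ++ out, ?_, ?_⟩
      · have h3 := EvC.cons hBx hBlk h1
        rw [← hsplit] at h3
        convert h3 using 1
        have h4 : (R.map f).toFinset = insert (f x) (R'.map f).toFinset := by
          conv_lhs => rw [hsplit]
          ext y
          simp only [List.map_append, List.toFinset_append, Finset.mem_union, List.mem_toFinset,
            List.mem_map, Finset.mem_insert]
          constructor
          · rintro (⟨a, ha, rfl⟩ | h5)
            · exact Or.inl (hBm a ha)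
            · exact Or.inr h5
          · rintro (rfl | h5)
            · left
              exact ⟨x, by simp [hB, hR], rfl⟩
            · exact Or.inr h5
        have h5 : f x ∉ (R'.map f).toFinset := by
          simp only [List.mem_toFinset, List.mem_map, not_exists, not_and]
          intro a ha h6
          exact absurd (hRm a ha) (by rw [h6]; exact lt_irrefl _)
        rw [h4, Finset.sum_insert h5]
        congr 1
        refine Finset.sum_congr rfl fun y hy => ?_
        congr 2
        simp only [List.mem_toFinset, List.mem_map] at hy
        obtain ⟨a, ha, rfl⟩ := hy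
        have h6 : B.filter (fun i => f i = f a) = [] := by
          rw [List.filter_eq_nil_iff]
          intro b hb
          simp only [decide_eq_true_eq]
          rw [hBm b hb]
          exact (hRm a ha).ne
        conv_lhs => rw [hsplit]
        rw [List.filter_append, h6, List.nil_append]
      · rw [List.pairwise_append]
        refine ⟨?_, h2, ?_⟩
        · rw [List.pairwise_reverse]
          refine hBlk.imp_of_mem fun {a b} ha hb hab => ?_
          right
          exact ⟨by rw [hBm a ha, hBm b hb], hab⟩
        · intro a ha b hb
          left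
          rw [hBm a (List.mem_reverse.1 ha)]
          exact hRm b (h1.perm.mem_iff.1 hb)

theorem sweepC_mem {L : List ℕ} (h : L.Perm row0) {x : ℕ} : x ∈ L ↔ x < 12 := by
  rw [h.mem_iff]
  unfold row0
  simp only [List.mem_cons, List.not_mem_nil, or_false]
  omega

theorem sweepC_diff {α v : ℕ → ℝ} (hs : Srt α v) {i j : ℕ} (hj : j < 12) (h : i / 2 < j / 2)
    (c : ℝ) : 0 < α i - α j ∧
      gv α v i c - gv α v j c = (α i - α j) * (c - (vx α v i j).1) := by
  have h1 := hs.lt i j hj h
  refine ⟨by linarith, ?_⟩
  have h2 : α i - α j ≠ 0 := by linarith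
  unfold gv vx
  simp only
  field_simp
  ring

theorem sweepC_par {α v : ℕ → ℝ} (hs : Srt α v) {i j : ℕ} (hj : j < 12) (hij : i < j)
    (h : i / 2 = j / 2) (c : ℝ) : gv α v i c < gv α v j c := by
  have h1 := hs.par (i / 2) (by omega)
  obtain ⟨m, rfl⟩ : ∃ m, i = 2 * m := ⟨i / 2, by omega⟩
  obtain rfl : j = 2 * m + 1 := by omega
  rw [show 2 * m / 2 = m by omega] at h1
  unfold gv
  rw [h1.1]
  linarith [h1.2]

/-- the event at time `c` -/
theorem RowAt.evC {α v : ℕ → ℝ} (hs : Srt α v) (c : ℝ) {L : List ℕ}
    (hL : RowAt α v {V | V.1 < c} L) :
    ∃ L', RowAt α v {V | V.1 ≤ c} L' ∧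
      EvC L L' (∑ y ∈ (Finset.range 12).image (fun i => gv α v i c),
        wt ((thru α v (c, y)).card + 1)) := by
  obtain ⟨hp, hL⟩ := hL
  obtain ⟨out, h1, h2⟩ := exists_blocks (fun i => gv α v i c) L (hL.imp_of_mem
    fun {x y} hx hy hxy => by
      rw [sweepC_mem hp] at hx hy
      rcases hxy with ⟨h3, h4⟩ | ⟨h3, h4⟩
      · rcases (Nat.div_le_div_right (c := 2) h3.le).eq_or_lt with h5 | h5
        · exact Or.inl (sweepC_par hs hy h3 h5 c)
        · have h6 := h4 h5
          simp only [Set.mem_setOf_eq, not_lt] at h6
          obtain ⟨h7, h8⟩ := sweepC_diff hs hy h5 c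
          rcases h6.eq_or_lt with h9 | h9
          · right
            rw [← h9, sub_self, mul_zero] at h8
            exact ⟨by linarith, h5⟩
          · left
            have := mul_neg_of_pos_of_neg h7 (sub_neg.2 h9)
            linarith
      · simp only [Set.mem_setOf_eq] at h4
        obtain ⟨h7, h8⟩ := sweepC_diff hs hx h3 c
        left
        have := mul_pos h7 (sub_pos.2 h4)
        linarith)
  have hp' : out.Perm row0 := h1.perm.trans hp
  refine ⟨out, ⟨hp', h2.imp_of_mem fun {x y} hx hy hxy => ?_⟩, ?_⟩
  · rw [sweepC_mem hp'] at hx hy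
    rcases hxy with h3 | ⟨h3, h4⟩
    · rcases lt_trichotomy (x / 2) (y / 2) with h5 | h5 | h5
      · left
        refine ⟨by omega, fun _ => ?_⟩
        obtain ⟨h7, h8⟩ := sweepC_diff hs hy h5 c
        simp only [Set.mem_setOf_eq, not_le]
        by_contra h9
        rw [not_lt] at h9
        have := mul_nonneg h7.le (sub_nonneg.2 h9)
        linarith
      · left
        refine ⟨?_, fun h6 => absurd h5 h6.ne⟩
        rcases lt_trichotomy x y with h6 | h6 | h6
        · exact h6
        · subst h6
          exact absurd h3 (lt_irrefl _)
        · exact absurd h3 (sweepC_par hs hx h6 h5.symm c).not_gt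
      · right
        refine ⟨h5, ?_⟩
        obtain ⟨h7, h8⟩ := sweepC_diff hs hx h5 c
        simp only [Set.mem_setOf_eq]
        by_contra h9
        rw [not_le] at h9
        have := mul_neg_of_pos_of_neg h7 (sub_neg.2 h9)
        linarith
    · right
      refine ⟨h4, ?_⟩
      obtain ⟨h7, h8⟩ := sweepC_diff hs hx h4 c
      simp only [Set.mem_setOf_eq]
      have h9 : (α y - α x) * (c - (vx α v y x).1) = 0 := by linarith
      rcases mul_eq_zero.1 h9 with h10 | h10
      · linarith
      · linarith
  · convert h1 using 1
    have hnd : L.Nodup := hp.nodup_iff.2 (by decide)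
    have hfs : L.toFinset = Finset.range 12 := by
      ext x
      rw [List.mem_toFinset, sweepC_mem hp, Finset.mem_range]
    have h3 : (L.map fun i => gv α v i c).toFinset =
        (Finset.range 12).image (fun i => gv α v i c) := by
      ext y
      simp only [List.mem_toFinset, List.mem_map, Finset.mem_image, sweepC_mem hp, Finset.mem_range]
    rw [h3]
    refine Finset.sum_congr rfl fun y _ => ?_
    congr 2
    rw [← List.toFinset_card_of_nodup (hnd.filter _), List.toFinset_filter, hfs]
    unfold thru
    congr 1
    ext i
    simp

theorem sweepC_wt {r : ℕ} (h : wt (r + 1) = 0) (hr : r ≠ 0) : r = 2 := by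
  unfold wt at h
  split_ifs at h with h1
  · have h2 : ¬ 3 ≤ r := by
      intro h3
      have h4 : (3 + 1).choose 2 ≤ (r + 1).choose 2 := Nat.choose_le_choose 2 (by omega)
      have h5 : (3 + 1).choose 2 = 6 := by decide
      omega
    omega

/-- an event without cost is clean -/
theorem EvC.evA {L L' : List ℕ} (h : EvC L L' 0) : EvA L L' := by
  obtain ⟨d, hd⟩ : ∃ d, d = 0 := ⟨0, rfl⟩
  rw [← hd] at h
  induction h with
  | nil => exact EvA.nil
  | @cons B R out dd hB hBlk hE ih =>
    have h1 : wt (B.length + 1) = 0 := by omega
    have h2 : dd = 0 := by omega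
    have h3 := sweepC_wt h1 (fun h => hB (List.eq_nil_of_length_eq_zero h))
    obtain ⟨x, y, rfl⟩ := List.length_eq_two.1 h3
    have h4 : x / 2 < y / 2 := by
      have := List.pairwise_cons.1 hBlk
      exact this.1 y (by simp)
    have := EvA.cons h4 (ih h2)
    simpa using this

end Pool.Agent.Lib.MP_214199_co
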