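import Pool.Agent.Lib.MP_214199_co.SweepB
import Pool.Agent.Lib.MP_214199_co.SweepC
import Pool.Agent.Lib.MP_214199_co.NoRun
import Pool.Agent.Lib.MP_214199_co.CoreA
import Pool.Agent.Lib.MP_214199_co.CoreB
import Pool.Agent.Lib.MP_214199_co.CoreC

/-!
# There is no arrangement of small cost
-/

set_option autoImplicit false

namespace Pool.Agent.Lib.MP_214199_co

variable {ι : Type} [Fintype ι] {α v : ι → ℝ}

theorem core_low_empty : Low ∅ := fun _ _ h _ => h.elim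

theorem core_low_lt (c : ℝ) : Low {V : ℝ × ℝ | V.1 < c} := by
  intro a b hb hab
  rcases hab with h | ⟨h, _⟩
  · exact lt_trans h hb
  · exact lt_of_eq_of_lt h hb

theorem core_low_le (c : ℝ) : Low {V : ℝ × ℝ | V.1 ≤ c} := by
  intro a b hb hab
  rcases hab with h | ⟨h, _⟩
  · exact le_trans h.le hb
  · exact le_of_eq_of_le h hb

theorem core_low_univ : Low Set.univ := fun _ _ _ _ => Set.mem_univ _

theorem Cfg.three_le (h : Cfg α v) (hι : Fintype.card ι = 12) : 3 ≤ dsum α v (Set.Iio 0) := by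
  obtain ⟨e, a, w, hs, he⟩ := h.exists_srt hι
  obtain ⟨L1, hL1, hst⟩ := (rowAt_empty a w).steps hs core_low_empty (core_low_lt 0)
    (Set.empty_subset _)
  obtain ⟨L2, _, hC⟩ := hL1.evC hs 0
  rw [← csum_eq he 0, h.csum_zero] at hC
  have h1 := no_lune hst hC.evA
  rw [dsum_eq_vcost hs he]
  have h2 : {V : ℝ × ℝ | V.1 < 0} \ ∅ = {V | V.1 ∈ Set.Iio (0 : ℝ)} := by
    ext V; simp
  rw [h2] at h1
  exact h1

theorem Cfg.three_le' (h : Cfg α v) (hι : Fintype.card ι = 12) : 3 ≤ dsum α v (Set.Ioi 0) := by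
  have h1 := h.neg.three_le hι
  rw [dsum_neg] at h1
  have h2 : {t : ℝ | -t ∈ Set.Iio (0 : ℝ)} = Set.Ioi 0 := by
    ext t; simp
  rw [h2] at h1
  exact h1

theorem Cfg.false_of_le (h : Cfg α v) (hι : Fintype.card ι = 12) {c : ℝ} (hc : c < 0)
    (hD : dsum α v (Set.Iio c) ≤ dsum α v (Set.Ioo c 0))
    (hsum : dsum α v (Set.Iio c) + csum α v c + dsum α v (Set.Ioo c 0) + dsum α v (Set.Ioi 0) ≤ 9) :
    False := by
  have hD4 := h.three_le' hι
  obtain ⟨e, a, w, hs, he⟩ := h.exists_srt hι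
  obtain ⟨L1, hL1, h1⟩ := (rowAt_empty a w).steps hs core_low_empty (core_low_lt c)
    (Set.empty_subset _)
  obtain ⟨L2, hL2, hC⟩ := hL1.evC hs c
  obtain ⟨L3, hL3, h3⟩ := hL2.steps hs (core_low_le c) (core_low_lt 0)
    (fun V hV => lt_of_le_of_lt hV hc)
  obtain ⟨L4, hL4, hA⟩ := hL3.evC hs 0
  obtain ⟨L5, hL5, h5⟩ := hL4.steps hs (core_low_le 0) core_low_univ (Set.subset_univ _)
  rw [← csum_eq he 0, h.csum_zero] at hA
  rw [← csum_eq he c] at hC
  have e1 : {V : ℝ × ℝ | V.1 < c} \ ∅ = {V | V.1 ∈ Set.Iio c} := by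
    ext V; simp
  have e2 : {V : ℝ × ℝ | V.1 < 0} \ {V : ℝ × ℝ | V.1 ≤ c} = {V | V.1 ∈ Set.Ioo c 0} := by
    ext V
    simp only [Set.mem_sdiff, Set.mem_ofPred_eq, not_le, Set.mem_Ioo]
    exact and_comm
  have e3 : (Set.univ : Set (ℝ × ℝ)) \ {V : ℝ × ℝ | V.1 ≤ 0} = {V | V.1 ∈ Set.Ioi (0 : ℝ)} := by
    ext V
    simp
  rw [e1, ← dsum_eq_vcost hs he] at h1
  rw [e2, ← dsum_eq_vcost hs he] at h3
  rw [e3, ← dsum_eq_vcost hs he, rowAt_univ hL5] at h5
  exact no_run h1 hC h3 hA.evA h5 hD hD4 hsum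

theorem Cfg.false_of_neg (h : Cfg α v) (hι : Fintype.card ι = 12) {c : ℝ} (hc : c < 0)
    (hsum : dsum α v {t | t ≠ 0 ∧ t ≠ c} + csum α v c ≤ 9) : False := by
  have e1 : {t : ℝ | t ≠ 0 ∧ t ≠ c} = (Set.Iio c ∪ Set.Ioo c 0) ∪ Set.Ioi 0 := by
    ext t
    simp only [Set.mem_ofPred_eq, Set.mem_union, Set.mem_Iio, Set.mem_Ioo, Set.mem_Ioi]
    constructor
    · rintro ⟨h0, h1⟩
      rcases lt_or_gt_of_ne h1 with h1 | h1
      · exact Or.inl (Or.inl h1)
      · rcases lt_or_gt_of_ne h0 with h0 | h0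
        · exact Or.inl (Or.inr ⟨h1, h0⟩)
        · exact Or.inr h0
    · rintro ((h1 | ⟨h1, h2⟩) | h1)
      · exact ⟨(lt_trans h1 hc).ne, h1.ne⟩
      · exact ⟨h2.ne, h1.ne'⟩
      · exact ⟨h1.ne', (lt_trans hc h1).ne'⟩
  have d1 : Disjoint (Set.Iio c ∪ Set.Ioo c 0) (Set.Ioi (0 : ℝ)) := by
    rw [Set.disjoint_left]
    rintro t (h1 | h1) h2
    · exact absurd (lt_trans (lt_trans h1 hc) h2) (lt_irrefl _)
    · exact absurd (lt_trans h1.2 h2) (lt_irrefl _)
  have d2 : Disjoint (Set.Iio c) (Set.Ioo c 0) := by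
    rw [Set.disjoint_left]
    rintro t h1 h2
    exact absurd (lt_trans h1 h2.1) (lt_irrefl _)
  rw [e1, dsum_union h d1, dsum_union h d2] at hsum
  rcases le_total (dsum α v (Set.Iio c)) (dsum α v (Set.Ioo c 0)) with hD | hD
  · exact h.false_of_le hι hc hD (by omega)
  · have hc' : c⁻¹ < 0 := inv_lt_zero.mpr hc
    have s1 : dsum v α (Set.Iio c⁻¹) = dsum α v (Set.Ioo c 0) := by
      rw [dsum_swap _ (by
        intro h0
        exact absurd (lt_trans h0 hc') (lt_irrefl _))]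
      congr 1
      ext t
      simp only [Set.mem_ofPred_eq, Set.mem_Iio, Set.mem_Ioo]
      constructor
      · rintro ⟨h0, h1⟩
        have ht : t < 0 := inv_lt_zero.mp (lt_trans h1 hc')
        exact ⟨(inv_lt_inv_of_neg ht hc).mp h1, ht⟩
      · rintro ⟨h0, h1⟩
        exact ⟨h1.ne, (inv_lt_inv_of_neg h1 hc).mpr h0⟩
    have s2 : dsum v α (Set.Ioo c⁻¹ 0) = dsum α v (Set.Iio c) := by
      rw [dsum_swap _ (by
        intro h0
        exact absurd h0.2 (lt_irrefl _))]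
      congr 1
      ext t
      simp only [Set.mem_ofPred_eq, Set.mem_Iio, Set.mem_Ioo]
      constructor
      · rintro ⟨h0, h1, h2⟩
        have ht : t < 0 := inv_lt_zero.mp h2
        exact (inv_lt_inv_of_neg hc ht).mp h1
      · intro h0
        have ht : t < 0 := lt_trans h0 hc
        exact ⟨ht.ne, (inv_lt_inv_of_neg hc ht).mpr h0, inv_lt_zero.mpr ht⟩
    have s3 : dsum v α (Set.Ioi 0) = dsum α v (Set.Ioi 0) := by
      rw [dsum_swap _ (by
        intro h0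
        exact absurd (show (0 : ℝ) < 0 from h0) (lt_irrefl _))]
      congr 1
      ext t
      simp only [Set.mem_ofPred_eq, Set.mem_Ioi, inv_pos]
      constructor
      · rintro ⟨_, h1⟩
        exact h1
      · intro h0
        exact ⟨h0.ne', h0⟩
    have s4 : csum v α c⁻¹ = csum α v c := by
      rw [csum_swap (inv_ne_zero hc.ne), inv_inv]
    exact h.swap.false_of_le hι hc' (by rw [s1, s2]; exact hD) (by rw [s1, s2, s3, s4]; omega)

/-- the core theorem -/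
theorem Cfg.false (h : Cfg α v) (hι : Fintype.card ι = 12) {c : ℝ} (hc : c ≠ 0)
    (hsum : dsum α v {t | t ≠ 0 ∧ t ≠ c} + csum α v c ≤ 9) : False := by
  rcases lt_or_gt_of_ne hc with hc | hc
  · exact h.false_of_neg hι hc hsum
  · refine h.neg.false_of_neg hι (c := -c) (neg_lt_zero.mpr hc) ?_
    rw [dsum_neg, csum_neg, neg_neg]
    have e1 : {t : ℝ | -t ∈ {t : ℝ | t ≠ 0 ∧ t ≠ -c}} = {t | t ≠ 0 ∧ t ≠ c} := by
      ext t
      simp
    rw [e1]
    exact hsum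

end Pool.Agent.Lib.MP_214199_co
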