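import Mathlib

/-!
# Heavy lines
-/

set_option autoImplicit false

namespace Pool.Agent.Lib.MP_214199_co

/-- The heavy lines of a finite set `S` of points of the Euclidean plane: the lines that contain at
least three points of `S`. -/
def heavyLines (S : Finset (EuclideanSpace ℝ (Fin 2))) :
    Set (AffineSubspace ℝ (EuclideanSpace ℝ (Fin 2))) :=
  {ℓ | Module.finrank ℝ ℓ.direction = 1 ∧ 3 ≤ {p | p ∈ S ∧ p ∈ ℓ}.ncard}

end Pool.Agent.Lib.MP_214199_co
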