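import Pool.Agent.Lib.MP_214199_co.Row
import Pool.Agent.Lib.MP_214199_co.Search

/-!
# The loops of the search program, and the moves
-/

set_option autoImplicit false

namespace Pool.Agent.Lib.MP_214199_co

theorem force_eq (n : ℕ) (k : ℕ → Bool) : force n k = k n := by
  cases n <;> rfl

/-- The loop with arbitrary fuel. -/
noncomputable def encaLoop (child : ℕ → Bool) (m : ℕ) : ℕ → Bool :=
  Nat.rec (motive := fun _ => Nat → Bool) (fun _ => false)
    (fun _ ih M => Bool.rec (motive := fun _ => Bool) false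
      (Nat.rec (motive := fun _ => Bool) true (fun m _ => ih (Nat.succ m))
        (Nat.sub M (Nat.pow 2 (Nat.log2 M))))
      (force (Nat.sub (Nat.log2 M) 4) child)) m

theorem encaLoop_succ (child : ℕ → Bool) (m M : ℕ) :
    encaLoop child (m + 1) M = Bool.rec (motive := fun _ => Bool) false
      (Nat.rec (motive := fun _ => Bool) true (fun k _ => encaLoop child m (Nat.succ k))
        (M - 2 ^ (Nat.log2 M))) (force (Nat.log2 M - 4) child) := rfl

theorem enca_boolRec {X c : Bool} (h : Bool.rec (motive := fun _ => Bool) false X c = true) :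
    c = true ∧ X = true := by
  cases c
  · exact absurd h Bool.false_ne_true
  · exact ⟨rfl, h⟩

theorem enca_natRec {f : ℕ → Bool} {n : ℕ}
    (h : Nat.rec (motive := fun _ => Bool) true (fun k _ => f (Nat.succ k)) n = true)
    (hn : n ≠ 0) : f n = true := by
  cases n with
  | zero => exact absurd rfl hn
  | succ k => exact h

theorem encaLoop_spec {child : ℕ → Bool} : ∀ (m M : ℕ), encaLoop child m M = true →
    ∀ b : ℕ, M.testBit b = true → child (b - 4) = true := by
  intro m
  induction m with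
  | zero =>
    intro M h
    exact absurd h (by
      change ¬ (false = true)
      decide)
  | succ m ih =>
    intro M h b hb
    rw [encaLoop_succ] at h
    obtain ⟨h1, h2⟩ := enca_boolRec h
    rw [force_eq] at h1
    have hM : M ≠ 0 := by
      rintro rfl
      rw [Nat.zero_testBit] at hb
      exact absurd hb (by decide)
    have hle : 2 ^ (Nat.log2 M) ≤ M := Nat.log2_self_le hM
    have hlt : M < 2 ^ (Nat.log2 M + 1) := Nat.lt_log2_self
    rcases lt_trichotomy b (Nat.log2 M) with hbl | hbl | hbl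
    · have h3 : (M - 2 ^ (Nat.log2 M)).testBit b = true := by
        have h4 : M = 2 ^ (Nat.log2 M) + (M - 2 ^ (Nat.log2 M)) := by omega
        rw [h4, Nat.testBit_two_pow_add_gt hbl] at hb
        exact hb
      have h5 : M - 2 ^ (Nat.log2 M) ≠ 0 := by
        intro h6
        rw [h6, Nat.zero_testBit] at h3
        exact absurd h3 (by decide)
      exact ih _ (enca_natRec (f := encaLoop child m) h2 h5) b h3
    · rw [hbl]
      exact h1
    · have h6 : M < 2 ^ b := lt_of_lt_of_le hlt (Nat.pow_le_pow_right (by norm_num) hbl)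
      rw [Nat.testBit_lt_two_pow h6] at hb
      exact absurd hb (by decide)

/-- if the loop returns `true`, then so does `child (b - 4)` for all set bits `b` -/
theorem loop_spec {child : ℕ → Bool} {M : ℕ} (h : loop child M = true) (b : ℕ)
    (hb : M.testBit b = true) : child (b - 4) = true :=
  encaLoop_spec 12 M h b hb

theorem loopR_spec {child : ℕ → Bool} {M k : ℕ} (h : loopR child M k = true) (b : ℕ) (hk : k ≤ b)
    (hb : M.testBit b = true) : child (b - 4) = true := by
  have h1 : ((M >>> k) <<< k).testBit b = true := by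
    rw [Nat.testBit_shiftLeft, Nat.testBit_shiftRight]
    simp [hk, hb]
  have h2 : ((M >>> k) <<< k) ≠ 0 := by
    intro h3
    rw [h3, Nat.zero_testBit] at h1
    exact absurd h1 (by decide)
  exact loop_spec (enca_natRec (f := loop child) (n := (M >>> k) <<< k) h h2) b h1

theorem enca_append (P Q : List ℕ) : enc (P ++ Q) = enc P + 32 ^ P.length * enc Q := by
  induction P with
  | nil => simp [enc]
  | cons x P ih =>
    rw [List.cons_append, enc, enc, ih, List.length_cons]
    ring

theorem enca_lt (P : List ℕ) (hP : ∀ z ∈ P, z < 32) : enc P < 32 ^ P.length := by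
  induction P with
  | nil => simp [enc]
  | cons x P ih =>
    have h1 := ih (fun z hz => hP z (List.mem_cons_of_mem _ hz))
    have h2 := hP x List.mem_cons_self
    rw [enc, List.length_cons, pow_succ]
    omega

theorem enca_pow (n : ℕ) : 2 ^ (5 * n) = 32 ^ n := by
  rw [pow_mul]
  norm_num

/-- digits -/
theorem enca_digit (P : List ℕ) (hP : ∀ z ∈ P, z < 32) (t j : ℕ) :
    Nat.land (Nat.shiftRight (enc P + 32 ^ P.length * t) (Nat.add (5 * P.length) (5 * j))) 31 =
      t / 32 ^ j % 32 := by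
  change ((enc P + 32 ^ P.length * t) >>> (5 * P.length + 5 * j)) &&& 31 = _
  rw [Nat.shiftRight_eq_div_pow, pow_add, enca_pow, enca_pow, ← Nat.div_div_eq_div_mul,
    Nat.add_mul_div_left _ _ (by positivity), Nat.div_eq_of_lt (enca_lt P hP), zero_add]
  exact Nat.and_two_pow_sub_one_eq_mod (t / 32 ^ j) 5

theorem enca_digit0 (P : List ℕ) (hP : ∀ z ∈ P, z < 32) (t : ℕ) :
    Nat.land (Nat.shiftRight (enc P + 32 ^ P.length * t) (5 * P.length)) 31 = t % 32 := by
  have h := enca_digit P hP t 0
  rw [pow_zero, Nat.div_one] at h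
  exact h

theorem enca_digit1 (P : List ℕ) (hP : ∀ z ∈ P, z < 32) (t : ℕ) :
    Nat.land (Nat.shiftRight (enc P + 32 ^ P.length * t) (Nat.add (5 * P.length) 5)) 31 =
      t / 32 % 32 := by
  have h := enca_digit P hP t 1
  rw [pow_one] at h
  exact h

theorem enca_digit2 (P : List ℕ) (hP : ∀ z ∈ P, z < 32) (t : ℕ) :
    Nat.land (Nat.shiftRight (enc P + 32 ^ P.length * t) (Nat.add (5 * P.length) 10)) 31 =
      t / 1024 % 32 := by
  have h := enca_digit P hP t 2
  have h2 : 32 ^ 2 = 1024 := by norm_num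
  rw [h2] at h
  exact h

theorem enca_digit3 (P : List ℕ) (hP : ∀ z ∈ P, z < 32) (t : ℕ) :
    Nat.land (Nat.shiftRight (enc P + 32 ^ P.length * t) (Nat.add (5 * P.length) 15)) 31 =
      t / 32768 % 32 := by
  have h := enca_digit P hP t 3
  have h2 : 32 ^ 3 = 32768 := by norm_num
  rw [h2] at h
  exact h

theorem enca_shl (a n : ℕ) : Nat.shiftLeft a (5 * n) = 32 ^ n * a := by
  change a <<< (5 * n) = _
  rw [Nat.shiftLeft_eq, enca_pow, mul_comm]

theorem row2_enc (P Q : List ℕ) {x y : ℕ} (hxy : x ≤ y) (hP : ∀ z ∈ P, z < 32) (hy : y < 32) :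
    row2 (enc (P ++ x :: y :: Q)) (5 * P.length) = enc (P ++ y :: x :: Q) := by
  rw [enca_append, enca_append]
  generalize ht : enc (x :: y :: Q) = t
  generalize ht' : enc (y :: x :: Q) = t'
  rw [enc, enc] at ht ht'
  have e0 : t % 32 = x := by omega
  have e1 : t / 32 % 32 = y := by omega
  unfold row2
  rw [enca_digit0 P hP, enca_digit1 P hP, e0, e1, enca_shl, Nat.sub_eq, Nat.sub_eq, Nat.mul_eq]
  have h2 : 31 * (y - x) ≤ t := by omega
  rw [Nat.add_sub_assoc (Nat.mul_le_mul_left _ h2), ← Nat.mul_sub]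
  have h3 : t - 31 * (y - x) = t' := by omega
  rw [h3]

theorem enca_div (x T : ℕ) (hx : x < 32) : (x + 32 * T) / 32 = T := by omega

theorem enca_mod (x T : ℕ) (hx : x < 32) : (x + 32 * T) % 32 = x := by omega

theorem row3_enc (P Q : List ℕ) {x y z : ℕ} (hxz : x ≤ z) (hP : ∀ z ∈ P, z < 32) (hy : y < 32)
    (hz : z < 32) :
    row3 (enc (P ++ x :: y :: z :: Q)) (5 * P.length) = enc (P ++ z :: y :: x :: Q) := by
  rw [enca_append, enca_append]
  generalize ht : enc (x :: y :: z :: Q) = t
  generalize ht' : enc (z :: y :: x :: Q) = t'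
  rw [enc, enc, enc] at ht ht'
  have hx : x < 32 := lt_of_le_of_lt hxz hz
  have e0 : t % 32 = x := by rw [← ht, enca_mod _ _ hx]
  have e1 : t / 1024 % 32 = z := by
    have h : 1024 = 32 * 32 := by norm_num
    rw [h, ← Nat.div_div_eq_div_mul, ← ht, enca_div _ _ hx, enca_div _ _ hy, enca_mod _ _ hz]
  unfold row3
  rw [enca_digit0 P hP, enca_digit2 P hP, e0, e1, enca_shl, Nat.sub_eq, Nat.sub_eq, Nat.mul_eq]
  obtain ⟨a, rfl⟩ := Nat.exists_eq_add_of_le hxz
  rw [Nat.add_sub_cancel_left]
  have h3 : t = 1023 * a + t' := by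
    rw [← ht, ← ht']
    ring
  have h2 : 1023 * a ≤ t := by
    rw [h3]
    exact Nat.le_add_right _ _
  rw [Nat.add_sub_assoc (Nat.mul_le_mul_left _ h2), ← Nat.mul_sub, h3, Nat.add_sub_cancel_left]

theorem row4_enc (P Q : List ℕ) {x y z w : ℕ} (hxw : x ≤ w) (hyz : y ≤ z) (hP : ∀ z ∈ P, z < 32)
    (hz : z < 32) (hw : w < 32) :
    row4 (enc (P ++ x :: y :: z :: w :: Q)) (5 * P.length) = enc (P ++ w :: z :: y :: x :: Q) := by
  rw [enca_append, enca_append]
  generalize ht : enc (x :: y :: z :: w :: Q) = t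
  generalize ht' : enc (w :: z :: y :: x :: Q) = t'
  rw [enc, enc, enc, enc] at ht ht'
  have hx : x < 32 := lt_of_le_of_lt hxw hw
  have hy : y < 32 := lt_of_le_of_lt hyz hz
  have e0 : t % 32 = x := by rw [← ht, enca_mod _ _ hx]
  have e1 : t / 32 % 32 = y := by rw [← ht, enca_div _ _ hx, enca_mod _ _ hy]
  have e2 : t / 1024 % 32 = z := by
    have h : 1024 = 32 * 32 := by norm_num
    rw [h, ← Nat.div_div_eq_div_mul, ← ht, enca_div _ _ hx, enca_div _ _ hy, enca_mod _ _ hz]
  have e3 : t / 32768 % 32 = w := by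
    have h : 32768 = 32 * 32 * 32 := by norm_num
    rw [h, ← Nat.div_div_eq_div_mul, ← Nat.div_div_eq_div_mul, ← ht, enca_div _ _ hx,
      enca_div _ _ hy, enca_div _ _ hz, enca_mod _ _ hw]
  unfold row4
  rw [enca_digit0 P hP, enca_digit1 P hP, enca_digit2 P hP, enca_digit3 P hP, e0, e1, e2, e3,
    enca_shl, Nat.sub_eq, Nat.sub_eq, Nat.sub_eq, Nat.add_eq, Nat.mul_eq, Nat.mul_eq]
  obtain ⟨a, rfl⟩ := Nat.exists_eq_add_of_le hxw
  obtain ⟨b, rfl⟩ := Nat.exists_eq_add_of_le hyz
  rw [Nat.add_sub_cancel_left, Nat.add_sub_cancel_left]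
  have h3 : t = (32767 * a + 992 * b) + t' := by
    rw [← ht, ← ht']
    ring
  have h2 : 32767 * a + 992 * b ≤ t := by
    rw [h3]
    exact Nat.le_add_right _ _
  rw [Nat.add_sub_assoc (Nat.mul_le_mul_left _ h2), ← Nat.mul_sub, h3, Nat.add_sub_cancel_left]

theorem enc_row0 : enc row0 = 407901468851537952 := by
  simp [enc, row0]

theorem enc_rowF : enc rowF = 36136725493621098 := by
  simp [enc, rowF]

end Pool.Agent.Lib.MP_214199_co
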