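import Pool.Agent.Lib.MP_214199_co.Plane

/-!
# A set of 15 points with 31 heavy lines
-/

set_option autoImplicit false

namespace Pool.Agent.Lib.MP_214199_co

/-- the slopes `tan (k π / 15)` -/
noncomputable def lowerT (k : Fin 15) : ℝ := Real.tan ((k : ℕ) * Real.pi / 15)

/-- the point of the cubic with slope `lowerT k` -/
noncomputable def lowerP (k : Fin 15) : EuclideanSpace ℝ (Fin 2) :=
  !₂[lowerT k / (1 + lowerT k ^ 2), lowerT k ^ 3 / (1 + lowerT k ^ 2)]

theorem lower_cos (k : Fin 15) : Real.cos ((k : ℕ) * Real.pi / 15) ≠ 0 := by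
  intro h
  rw [Real.cos_eq_zero_iff] at h
  obtain ⟨m, hm⟩ := h
  have h2 : (2 * (k : ℕ) : ℝ) = (15 * (2 * m + 1) : ℝ) := by
    field_simp at hm
    linarith
  have h3 : (2 * ((k : ℕ) : ℤ)) = 15 * (2 * m + 1) := by exact_mod_cast h2
  omega

theorem lower_sin_zero (m : ℤ) : Real.sin (m * Real.pi / 15) = 0 ↔ 15 ∣ m := by
  rw [Real.sin_eq_zero_iff]
  constructor
  · rintro ⟨q, hq⟩
    have h2 : (q * 15 : ℝ) = m := by
      field_simp at hq
      linarith
    have h3 : q * 15 = m := by exact_mod_cast h2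
    exact ⟨q, by omega⟩
  · rintro ⟨q, rfl⟩
    refine ⟨q, ?_⟩
    push_cast
    ring

theorem lowerT_injective : Function.Injective lowerT := by
  intro i j h
  have hi := lower_cos i
  have hj := lower_cos j
  unfold lowerT at h
  rw [Real.tan_eq_sin_div_cos, Real.tan_eq_sin_div_cos, div_eq_div_iff hi hj] at h
  have h1 : Real.sin ((((i : ℕ) : ℤ) - ((j : ℕ) : ℤ) : ℤ) * Real.pi / 15) = 0 := by
    have : ((((i : ℕ) : ℤ) - ((j : ℕ) : ℤ) : ℤ) * Real.pi / 15 : ℝ) =
        (i : ℕ) * Real.pi / 15 - (j : ℕ) * Real.pi / 15 := by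
      push_cast
      ring
    rw [this, Real.sin_sub]
    linarith
  rw [lower_sin_zero] at h1
  apply Fin.ext
  have := i.2
  have := j.2
  omega

theorem lower_sum (i j k : Fin 15) :
    lowerT i + lowerT j + lowerT k - lowerT i * lowerT j * lowerT k = 0 ↔
      15 ∣ (i : ℕ) + j + k := by
  have hi := lower_cos i
  have hj := lower_cos j
  have hk := lower_cos k
  have h1 : lowerT i + lowerT j + lowerT k - lowerT i * lowerT j * lowerT k =
      Real.sin ((((i : ℕ) + j + k : ℕ) : ℤ) * Real.pi / 15) /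
        (Real.cos ((i : ℕ) * Real.pi / 15) * Real.cos ((j : ℕ) * Real.pi / 15) *
          Real.cos ((k : ℕ) * Real.pi / 15)) := by
    have : ((((i : ℕ) + j + k : ℕ) : ℤ) * Real.pi / 15 : ℝ) =
        (i : ℕ) * Real.pi / 15 + (j : ℕ) * Real.pi / 15 + (k : ℕ) * Real.pi / 15 := by
      push_cast
      ring
    rw [this, Real.sin_add, Real.sin_add, Real.cos_add]
    unfold lowerT
    rw [Real.tan_eq_sin_div_cos, Real.tan_eq_sin_div_cos, Real.tan_eq_sin_div_cos]
    generalize Real.sin ((i : ℕ) * Real.pi / 15) = si at *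
    generalize Real.sin ((j : ℕ) * Real.pi / 15) = sj at *
    generalize Real.sin ((k : ℕ) * Real.pi / 15) = sk at *
    generalize Real.cos ((i : ℕ) * Real.pi / 15) = ci at *
    generalize Real.cos ((j : ℕ) * Real.pi / 15) = cj at *
    generalize Real.cos ((k : ℕ) * Real.pi / 15) = ck at *
    field_simp
    ring
  rw [h1, div_eq_zero_iff, lower_sin_zero]
  constructor
  · rintro (h | h)
    · exact_mod_cast h
    · exact absurd h (by positivity)
  · intro h
    left
    exact_mod_cast h

theorem lower_det (i j k : Fin 15) : det3 (lowerP i) (lowerP j) (lowerP k) * ((1 + lowerT i ^ 2) *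
    (1 + lowerT j ^ 2) * (1 + lowerT k ^ 2)) =
      (lowerT i - lowerT j) * (lowerT j - lowerT k) * (lowerT k - lowerT i) *
        (lowerT i + lowerT j + lowerT k - lowerT i * lowerT j * lowerT k) := by
  have h1 : (1 + lowerT i ^ 2) ≠ 0 := by positivity
  have h2 : (1 + lowerT j ^ 2) ≠ 0 := by positivity
  have h3 : (1 + lowerT k ^ 2) ≠ 0 := by positivity
  simp only [det3, lowerP, PiLp.toLp_apply, Matrix.cons_val_zero, Matrix.cons_val_one]
  generalize lowerT i = a at *
  generalize lowerT j = b at *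
  generalize lowerT k = c at *
  field_simp
  ring

theorem lower_col {i j : Fin 15} (hij : i ≠ j) (m : Fin 15) :
    det3 (lowerP i) (lowerP j) (lowerP m) = 0 ↔ m = i ∨ m = j ∨ 15 ∣ (i : ℕ) + j + m := by
  have h := lower_det i j m
  have h1 : ((1 + lowerT i ^ 2) * (1 + lowerT j ^ 2) * (1 + lowerT m ^ 2)) ≠ 0 := by positivity
  have h2 : det3 (lowerP i) (lowerP j) (lowerP m) = 0 ↔
      (lowerT i - lowerT j) * (lowerT j - lowerT m) * (lowerT m - lowerT i) *
        (lowerT i + lowerT j + lowerT m - lowerT i * lowerT j * lowerT m) = 0 := by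
    rw [← h, mul_eq_zero]
    simp [h1]
  rw [h2, mul_eq_zero, mul_eq_zero, mul_eq_zero, lower_sum, sub_eq_zero, sub_eq_zero, sub_eq_zero,
    lowerT_injective.eq_iff, lowerT_injective.eq_iff, lowerT_injective.eq_iff]
  constructor
  · rintro (((h | h) | h) | h)
    · exact absurd h hij
    · exact Or.inr (Or.inl h.symm)
    · exact Or.inl h
    · exact Or.inr (Or.inr h)
  · rintro (h | h | h)
    · exact Or.inl (Or.inr h)
    · exact Or.inl (Or.inl (Or.inr h.symm))
    · exact Or.inr h

theorem lowerP_injective : Function.Injective lowerP := by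
  intro i j h
  apply lowerT_injective
  have key : ∀ k, lowerT k = lowerP k 0 + lowerP k 1 := by
    intro k
    have h1 : (1 + lowerT k ^ 2) ≠ 0 := by positivity
    simp only [lowerP, PiLp.toLp_apply, Matrix.cons_val_zero, Matrix.cons_val_one]
    field_simp
  rw [key i, key j, h]

/-- the 31 triples -/
def lowerI : Finset (Fin 15 × Fin 15 × Fin 15) :=
  Finset.univ.filter (fun x => x.1 < x.2.1 ∧ x.2.1 < x.2.2 ∧
    ((x.1 : ℕ) + (x.2.1 : ℕ) + (x.2.2 : ℕ)) % 15 = 0)

theorem lowerI_card : lowerI.card = 31 := by decide +kernel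

theorem exists_31 : ∃ S : Finset (EuclideanSpace ℝ (Fin 2)),
    S.card = 15 ∧ 31 ≤ (heavyLines S).ncard := by
  classical
  refine ⟨Finset.univ.image lowerP, ?_, ?_⟩
  · rw [Finset.card_image_of_injective _ lowerP_injective]
    simp
  rw [ncard_heavyLines, ← lowerI_card]
  refine Finset.card_le_card_of_injOn
    (fun x => ln (Finset.univ.image lowerP) (lowerP x.1) (lowerP x.2.1)) ?_ ?_
  · intro x hx
    simp only [lowerI, Finset.coe_filter, Finset.mem_univ, true_and, Set.mem_ofPred_eq] at hx
    obtain ⟨h1, h2, h3⟩ := hx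
    have hne : x.1 ≠ x.2.1 := h1.ne
    simp only [Finset.coe_filter, Set.mem_ofPred_eq]
    constructor
    · unfold lns
      rw [Finset.mem_image]
      refine ⟨(lowerP x.1, lowerP x.2.1), ?_, rfl⟩
      rw [Finset.mem_offDiag]
      exact ⟨Finset.mem_image_of_mem _ (Finset.mem_univ _),
        Finset.mem_image_of_mem _ (Finset.mem_univ _), fun h => hne (lowerP_injective h)⟩
    · have hsub : ({lowerP x.1, lowerP x.2.1, lowerP x.2.2} : Finset _) ⊆
          ln (Finset.univ.image lowerP) (lowerP x.1) (lowerP x.2.1) := by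
        intro r hr
        unfold ln
        rw [Finset.mem_filter]
        simp only [Finset.mem_insert, Finset.mem_singleton] at hr
        rcases hr with rfl | rfl | rfl
        · exact ⟨Finset.mem_image_of_mem _ (Finset.mem_univ _), (lower_col hne _).2 (Or.inl rfl)⟩
        · exact ⟨Finset.mem_image_of_mem _ (Finset.mem_univ _),
            (lower_col hne _).2 (Or.inr (Or.inl rfl))⟩
        · exact ⟨Finset.mem_image_of_mem _ (Finset.mem_univ _),
            (lower_col hne _).2 (Or.inr (Or.inr (Nat.dvd_of_mod_eq_zero h3)))⟩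
      have hc : ({lowerP x.1, lowerP x.2.1, lowerP x.2.2} :
          Finset (EuclideanSpace ℝ (Fin 2))).card = 3 := by
        rw [Finset.card_eq_three]
        exact ⟨_, _, _, fun h => hne (lowerP_injective h),
          fun h => (h1.trans h2).ne (lowerP_injective h), fun h => h2.ne (lowerP_injective h), rfl⟩
      rw [← hc]
      exact Finset.card_le_card hsub
  · rintro ⟨i, j, k⟩ hx ⟨i', j', k'⟩ hy hxy
    simp only [lowerI, Finset.coe_filter, Finset.mem_univ, true_and, Set.mem_ofPred_eq] at hx hy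
    obtain ⟨h1, h2, h3⟩ := hx
    obtain ⟨g1, g2, g3⟩ := hy
    have hne : i ≠ j := h1.ne
    have gne : i' ≠ j' := g1.ne
    have key : ∀ m : Fin 15, (m = i' ∨ m = j' ∨ 15 ∣ (i' : ℕ) + j' + m) →
        (m = i ∨ m = j ∨ 15 ∣ (i : ℕ) + j + m) := by
      intro m hm
      rw [← lower_col gne] at hm
      rw [← lower_col hne]
      have h5 : lowerP m ∈ ln (Finset.univ.image lowerP) (lowerP i') (lowerP j') := by
        unfold ln
        rw [Finset.mem_filter]
        exact ⟨Finset.mem_image_of_mem _ (Finset.mem_univ _), hm⟩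
      have h6 : lowerP m ∈ ln (Finset.univ.image lowerP) (lowerP i) (lowerP j) := by
        have hxy' : ln (Finset.univ.image lowerP) (lowerP i) (lowerP j) =
          ln (Finset.univ.image lowerP) (lowerP i') (lowerP j') := hxy
        rw [hxy']
        exact h5
      unfold ln at h6
      rw [Finset.mem_filter] at h6
      exact h6.2
    have e1 := key i' (Or.inl rfl)
    have e2 := key j' (Or.inr (Or.inl rfl))
    have e3 := key k' (Or.inr (Or.inr (Nat.dvd_of_mod_eq_zero g3)))
    have hi := i.2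
    have hj := j.2
    have hk := k.2
    have hi' := i'.2
    have hj' := j'.2
    have hk' := k'.2
    rw [Fin.lt_def] at h1 h2 g1 g2
    simp only [Fin.ext_iff] at e1 e2 e3
    have f1 : (i' : ℕ) = i ∨ (i' : ℕ) = j ∨ (i' : ℕ) = k := by
      rcases e1 with e | e | e
      · exact Or.inl e
      · exact Or.inr (Or.inl e)
      · right; right; omega
    have f2 : (j' : ℕ) = i ∨ (j' : ℕ) = j ∨ (j' : ℕ) = k := by
      rcases e2 with e | e | e
      · exact Or.inl e
      · exact Or.inr (Or.inl e)
      · right; right; omega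
    have f3 : (k' : ℕ) = i ∨ (k' : ℕ) = j ∨ (k' : ℕ) = k := by
      rcases e3 with e | e | e
      · exact Or.inl e
      · exact Or.inr (Or.inl e)
      · right; right; omega
    have : (i : ℕ) = i' ∧ (j : ℕ) = j' ∧ (k : ℕ) = k' := by
      clear e1 e2 e3 h3 g3
      omega
    rw [Prod.mk.injEq, Prod.mk.injEq]
    exact ⟨Fin.ext this.1, Fin.ext this.2.1, Fin.ext this.2.2⟩

end Pool.Agent.Lib.MP_214199_co
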