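import Pool.Agent.Lib.MP_214199_co.Potential

/-!
# Normal form for sequences of moves
-/

set_option autoImplicit false

namespace Pool.Agent.Lib.MP_214199_co

/-- two moves at disjoint blocks commute -/
theorem Move.comm {p r p' r' : ℕ} {L L1 L2 : List ℕ} (h1 : Move p r L L1) (h2 : Move p' r' L1 L2)
    (h : p' + r' ≤ p) : ∃ L3, Move p' r' L L3 ∧ Move p r L3 L2 := by
  obtain ⟨P, B, Q, rfl, rfl, hP, hB, hr, hblk⟩ := h1
  obtain ⟨P', B', Q', heq, rfl, hP', hB', hr', hblk'⟩ := h2
  have hM : ∃ M, P = P' ++ B' ++ M ∧ Q' = M ++ (B.reverse ++ Q) := by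
    rw [List.append_assoc P] at heq
    rcases List.append_eq_append_iff.1 heq with ⟨a, ha1, ha2⟩ | ⟨c, hc1, hc2⟩
    · have hlen := congrArg List.length ha1
      rw [List.length_append, List.length_append] at hlen
      have ha : a = [] := by
        apply List.eq_nil_of_length_eq_zero
        omega
      subst ha
      refine ⟨[], ?_, ?_⟩
      · rw [List.append_nil] at ha1
        rw [List.append_nil, ha1]
      · rw [List.nil_append] at ha2
        rw [List.nil_append, ha2]
    · exact ⟨c, hc1, hc2⟩
  obtain ⟨M, rfl, rfl⟩ := hM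
  refine ⟨P' ++ B'.reverse ++ (M ++ (B ++ Q)), ⟨P', B', M ++ (B ++ Q), ?_, rfl, hP', hB', hr', hblk'⟩,
    ⟨P' ++ B'.reverse ++ M, B, Q, ?_, ?_, ?_, hB, hr, hblk⟩⟩
  · simp only [List.append_assoc]
  · simp only [List.append_assoc]
  · simp only [List.append_assoc]
  · rw [← hP]
    simp only [List.length_append, List.length_reverse]

theorem NSteps.insert {last p r : ℕ} {L L1 L' : List ℕ} {n : ℕ} (h1 : Move p r L L1) (hr : r ≤ 4)
    (hl : last < p + r) (h2 : NSteps last L1 n L') : NSteps last L (wt r + n) L' := by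
  induction h2 generalizing L with
  | nil last L1 => exact NSteps.cons hl hr h1 (NSteps.nil p L1)
  | @cons last p' r' L1 L2 n L' hlast hr' hm rest ih =>
    rcases Nat.lt_or_ge p (p' + r') with hlt | hge
    · exact NSteps.cons hl hr h1 (NSteps.cons hlt hr' hm rest)
    · obtain ⟨L3, hm1, hm2⟩ := Move.comm h1 hm hge
      have hr2 : 2 ≤ r := by
        obtain ⟨P, B, Q, _, _, _, _, h2, _⟩ := h1
        exact h2
      have h3 := NSteps.cons hlast hr' hm1 (ih hm2 (by omega))
      rwa [Nat.add_left_comm] at h3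

/-- sequences of small cost have a normal form -/
theorem Steps.normal {L L' : List ℕ} {n : ℕ} (h : Steps L n L') (hn : n ≤ 6) : NSteps 0 L n L' := by
  induction h with
  | nil L => exact NSteps.nil 0 L
  | @cons p r L L1 n L' hm rest ih =>
    have hr : r ≤ 4 := by
      by_contra hcon
      have := (wt_bound r (by omega)).1
      omega
    have hr2 : 2 ≤ r := by
      obtain ⟨P, B, Q, _, _, _, _, h2, _⟩ := hm
      exact h2
    exact NSteps.insert hm hr (by omega) (ih (by omega))

theorem Steps.normal_rowF_aux {L L' : List ℕ} {n : ℕ} (h : Steps L n L') :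
    ∀ D : ℕ, L' = rowF → D + n ≤ 9 → cnt cy L ≤ D + 3 → NSteps 0 L n L' := by
  induction h with
  | nil L => intro D _ _ _; exact NSteps.nil 0 L
  | @cons p r L L1 n L' hm rest ih =>
    intro D hF hn hL
    have h1 := Steps.cnt_le goodC_cy rest
    have h2 := Move.cnt_le goodC_cy hm
    have h3 := Move.cnt_le_wt goodC_cy hm
    have h4 : cnt cy L' = 6 := by
      rw [hF]
      decide
    have hr : r ≤ 4 := by
      by_contra hcon
      have := (wt_bound r (by omega)).1
      omega
    have hr2 : 2 ≤ r := by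
      obtain ⟨P, B, Q, _, _, _, _, h2, _⟩ := hm
      exact h2
    exact NSteps.insert hm hr (by omega) (ih (D + wt r) hF (by omega) (by omega))

/-- so have the sequences in the last lune -/
theorem Steps.normal_rowF {L : List ℕ} {n D : ℕ} (h : Steps L n rowF) (hn : D + n ≤ 9)
    (hL : cnt cy L ≤ D + 3) : NSteps 0 L n rowF :=
  Steps.normal_rowF_aux h D rfl hn hL

end Pool.Agent.Lib.MP_214199_co
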