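import Pool.Agent.Lib.MP_214199_co.Defs
import Pool.Agent.Lib.MP_214199_co.Comb

/-!
# The linear space of a finite set of points of the plane
-/

set_option autoImplicit false

namespace Pool.Agent.Lib.MP_214199_co

/-- twice the area of the triangle `p q r` -/
def det3 (p q r : EuclideanSpace ℝ (Fin 2)) : ℝ :=
  (q 0 - p 0) * (r 1 - p 1) - (q 1 - p 1) * (r 0 - p 0)

/-- the points of `S` on the line `p q` -/
noncomputable def ln (S : Finset (EuclideanSpace ℝ (Fin 2))) (p q : EuclideanSpace ℝ (Fin 2)) :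
    Finset (EuclideanSpace ℝ (Fin 2)) := S.filter (fun r => det3 p q r = 0)

open Classical in
/-- the lines spanned by `S` -/
noncomputable def lns (S : Finset (EuclideanSpace ℝ (Fin 2))) :
    Finset (Finset (EuclideanSpace ℝ (Fin 2))) :=
  S.offDiag.image (fun x => ln S x.1 x.2)

theorem det3_eq_zero_iff {p q r : EuclideanSpace ℝ (Fin 2)} (hpq : p ≠ q) :
    det3 p q r = 0 ↔ r ∈ line[ℝ, p, q] := by
  rw [mem_affineSpan_pair_iff_exists_lineMap_eq]
  constructor
  · intro h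
    unfold det3 at h
    have hne : q 0 - p 0 ≠ 0 ∨ q 1 - p 1 ≠ 0 := by
      by_contra hcon
      push Not at hcon
      apply hpq
      ext i
      fin_cases i
      · simp only [Fin.zero_eta]
        linarith [hcon.1]
      · simp only [Fin.mk_one]
        linarith [hcon.2]
    rcases hne with h0 | h1
    · refine ⟨(r 0 - p 0) / (q 0 - p 0), ?_⟩
      ext i
      fin_cases i
      · simp [AffineMap.lineMap_apply]
        field_simp
        ring
      · simp [AffineMap.lineMap_apply]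
        field_simp
        linarith
    · refine ⟨(r 1 - p 1) / (q 1 - p 1), ?_⟩
      ext i
      fin_cases i
      · simp [AffineMap.lineMap_apply]
        field_simp
        linarith
      · simp [AffineMap.lineMap_apply]
        field_simp
        ring
  · rintro ⟨t, rfl⟩
    simp [det3, AffineMap.lineMap_apply]
    ring

theorem plane_mem_ln {S : Finset (EuclideanSpace ℝ (Fin 2))} {p q r : EuclideanSpace ℝ (Fin 2)}
    (hpq : p ≠ q) : r ∈ ln S p q ↔ r ∈ S ∧ r ∈ line[ℝ, p, q] := by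
  rw [ln, Finset.mem_filter, det3_eq_zero_iff hpq]

theorem plane_mem_lns {S : Finset (EuclideanSpace ℝ (Fin 2))}
    {L : Finset (EuclideanSpace ℝ (Fin 2))} :
    L ∈ lns S ↔ ∃ p ∈ S, ∃ q ∈ S, p ≠ q ∧ ln S p q = L := by
  classical
  rw [lns, Finset.mem_image]
  constructor
  · rintro ⟨⟨p, q⟩, hx, rfl⟩
    rw [Finset.mem_offDiag] at hx
    exact ⟨p, hx.1, q, hx.2.1, hx.2.2, rfl⟩
  · rintro ⟨p, hp, q, hq, hpq, rfl⟩
    exact ⟨(p, q), Finset.mem_offDiag.2 ⟨hp, hq, hpq⟩, rfl⟩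

theorem plane_finrank_line {p q : EuclideanSpace ℝ (Fin 2)} (hpq : p ≠ q) :
    Module.finrank ℝ (line[ℝ, p, q]).direction = 1 := by
  rw [direction_affineSpan, vectorSpan_pair_rev]
  rw [finrank_span_singleton]
  exact sub_ne_zero.2 hpq.symm

/-- an affine line is determined by two points -/
theorem plane_eq_line {l : AffineSubspace ℝ (EuclideanSpace ℝ (Fin 2))}
    (hl : Module.finrank ℝ l.direction = 1) {p q : EuclideanSpace ℝ (Fin 2)} (hpq : p ≠ q)
    (hp : p ∈ l) (hq : q ∈ l) : line[ℝ, p, q] = l := by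
  have hle : line[ℝ, p, q] ≤ l := affineSpan_pair_le_of_mem_of_mem hp hq
  apply AffineSubspace.eq_of_direction_eq_of_nonempty_of_le _ ⟨p, left_mem_affineSpan_pair ℝ p q⟩ hle
  apply Submodule.eq_of_le_of_finrank_eq (AffineSubspace.direction_le hle)
  rw [hl, plane_finrank_line hpq]

theorem plane_line_eq {a b p q : EuclideanSpace ℝ (Fin 2)} (hab : a ≠ b) (hpq : p ≠ q)
    (hp : p ∈ line[ℝ, a, b]) (hq : q ∈ line[ℝ, a, b]) : line[ℝ, p, q] = line[ℝ, a, b] :=
  plane_eq_line (plane_finrank_line hab) hpq hp hq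

theorem plane_ln_eq {S : Finset (EuclideanSpace ℝ (Fin 2))} {a b p q : EuclideanSpace ℝ (Fin 2)}
    (hab : a ≠ b) (hpq : p ≠ q) (hp : p ∈ ln S a b) (hq : q ∈ ln S a b) :
    ln S p q = ln S a b := by
  have h := plane_line_eq hab hpq ((plane_mem_ln hab).1 hp).2 ((plane_mem_ln hab).1 hq).2
  ext x
  rw [plane_mem_ln hpq, plane_mem_ln hab, h]

theorem plane_left_mem_ln {S : Finset (EuclideanSpace ℝ (Fin 2))}
    {p : EuclideanSpace ℝ (Fin 2)} (q : EuclideanSpace ℝ (Fin 2)) (hp : p ∈ S) :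
    p ∈ ln S p q := by
  rw [ln, Finset.mem_filter]
  refine ⟨hp, ?_⟩
  simp [det3]

theorem plane_right_mem_ln {S : Finset (EuclideanSpace ℝ (Fin 2))}
    {q : EuclideanSpace ℝ (Fin 2)} (p : EuclideanSpace ℝ (Fin 2)) (hq : q ∈ S) :
    q ∈ ln S p q := by
  rw [ln, Finset.mem_filter]
  refine ⟨hq, ?_⟩
  unfold det3
  ring

theorem linSp_lns (S : Finset (EuclideanSpace ℝ (Fin 2))) : LinSp S (lns S) where
  sub := by
    intro L hL
    obtain ⟨p, hp, q, hq, hpq, rfl⟩ := plane_mem_lns.1 hL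
    exact Finset.filter_subset _ _
  two := by
    intro L hL
    obtain ⟨p, hp, q, hq, hpq, rfl⟩ := plane_mem_lns.1 hL
    exact Finset.one_lt_card.2 ⟨p, plane_left_mem_ln q hp, q, plane_right_mem_ln p hq, hpq⟩
  ex := by
    intro p hp q hq hpq
    exact ⟨ln S p q, plane_mem_lns.2 ⟨p, hp, q, hq, hpq, rfl⟩, plane_left_mem_ln q hp,
      plane_right_mem_ln p hq⟩
  uniq := by
    intro L hL L' hL' p q hpq hp hq hp' hq'
    obtain ⟨a, ha, b, hb, hab, rfl⟩ := plane_mem_lns.1 hL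
    obtain ⟨c, hc, d, hd, hcd, rfl⟩ := plane_mem_lns.1 hL'
    rw [← plane_ln_eq hab hpq hp hq, ← plane_ln_eq hcd hpq hp' hq']

open Classical in
/-- the points of `S` on `l` -/
noncomputable def planeTr (S : Finset (EuclideanSpace ℝ (Fin 2)))
    (l : AffineSubspace ℝ (EuclideanSpace ℝ (Fin 2))) : Finset (EuclideanSpace ℝ (Fin 2)) :=
  S.filter (fun p => p ∈ l)

theorem plane_mem_tr {S : Finset (EuclideanSpace ℝ (Fin 2))}
    {l : AffineSubspace ℝ (EuclideanSpace ℝ (Fin 2))} {p : EuclideanSpace ℝ (Fin 2)} :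
    p ∈ planeTr S l ↔ p ∈ S ∧ p ∈ l := by
  classical
  rw [planeTr, Finset.mem_filter]

theorem plane_coe_tr (S : Finset (EuclideanSpace ℝ (Fin 2)))
    (l : AffineSubspace ℝ (EuclideanSpace ℝ (Fin 2))) :
    {p | p ∈ S ∧ p ∈ l} = (planeTr S l : Set (EuclideanSpace ℝ (Fin 2))) := by
  ext p
  rw [Finset.mem_coe, plane_mem_tr]
  rfl

theorem plane_bijOn (S : Finset (EuclideanSpace ℝ (Fin 2))) :
    Set.BijOn (planeTr S) (heavyLines S)
      ((lns S).filter (fun L => 3 ≤ L.card) : Finset (Finset (EuclideanSpace ℝ (Fin 2)))) := by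
  refine ⟨?_, ?_, ?_⟩
  · rintro l ⟨hl, h3⟩
    rw [plane_coe_tr, Set.ncard_coe_finset] at h3
    rw [Finset.mem_coe, Finset.mem_filter]
    refine ⟨?_, h3⟩
    obtain ⟨p, hp, q, hq, hpq⟩ := Finset.one_lt_card.1 (lt_of_lt_of_le (by norm_num) h3)
    rw [plane_mem_tr] at hp hq
    rw [plane_mem_lns]
    refine ⟨p, hp.1, q, hq.1, hpq, ?_⟩
    ext x
    rw [plane_mem_ln hpq, plane_mem_tr, plane_eq_line hl hpq hp.2 hq.2]
  · rintro l ⟨hl, h3⟩ l' ⟨hl', h3'⟩ heq
    rw [plane_coe_tr, Set.ncard_coe_finset] at h3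
    obtain ⟨p, hp, q, hq, hpq⟩ := Finset.one_lt_card.1 (lt_of_lt_of_le (by norm_num) h3)
    have hp' := hp
    have hq' := hq
    rw [heq] at hp' hq'
    rw [plane_mem_tr] at hp hq hp' hq'
    rw [← plane_eq_line hl hpq hp.2 hq.2, ← plane_eq_line hl' hpq hp'.2 hq'.2]
  · intro L hL
    rw [Finset.mem_coe, Finset.mem_filter] at hL
    obtain ⟨hL, h3⟩ := hL
    obtain ⟨p, hp, q, hq, hpq, rfl⟩ := plane_mem_lns.1 hL
    have htr : planeTr S line[ℝ, p, q] = ln S p q := by
      ext x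
      rw [plane_mem_ln hpq, plane_mem_tr]
    refine ⟨line[ℝ, p, q], ⟨plane_finrank_line hpq, ?_⟩, htr⟩
    rw [plane_coe_tr, Set.ncard_coe_finset, htr]
    exact h3

theorem heavyLines_finite (S : Finset (EuclideanSpace ℝ (Fin 2))) : (heavyLines S).Finite :=
  Set.Finite.of_injOn (plane_bijOn S).mapsTo (plane_bijOn S).injOn (Finset.finite_toSet _)

theorem ncard_heavyLines (S : Finset (EuclideanSpace ℝ (Fin 2))) :
    (heavyLines S).ncard = ((lns S).filter (fun L => 3 ≤ L.card)).card := by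
  rw [(plane_bijOn S).ncard_eq, Set.ncard_coe_finset]

end Pool.Agent.Lib.MP_214199_co
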