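import Mathlib

/-!
# Rows of wires, moves and events

A row is a list of wires (natural numbers, in the applications `0, …, 11`). Two wires `x`, `y` of
which `x` is above `y` are crossable if `x / 2 < y / 2`: they have not crossed yet, and they are not
one of the parallel pairs `(2 j, 2 j + 1)`.
-/

set_option autoImplicit false

namespace Pool.Agent.Lib.MP_214199_co

/-- weight of a line with `r` points: `1` for `r = 2`, and `C(r,2) - 3` for `r ≥ 3` -/
def wt (r : ℕ) : ℕ := if r = 2 then 1 else r.choose 2 - 3

/-- a block of pairwise crossable wires -/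
def Blk (B : List ℕ) : Prop := B.Pairwise (fun x y => x / 2 < y / 2)

/-- the move that reverses the block of `r` wires at position `p` -/
def Move (p r : ℕ) (L L' : List ℕ) : Prop :=
  ∃ P B Q, L = P ++ B ++ Q ∧ L' = P ++ B.reverse ++ Q ∧ P.length = p ∧ B.length = r ∧ 2 ≤ r ∧ Blk B

/-- a sequence of moves with total cost `n` -/
inductive Steps : List ℕ → ℕ → List ℕ → Prop
  | nil (L : List ℕ) : Steps L 0 L
  | cons {p r : ℕ} {L L1 : List ℕ} {n : ℕ} {L' : List ℕ} :
      Move p r L L1 → Steps L1 n L' → Steps L (wt r + n) L'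

/-- a sequence of moves of at most 4 wires in normal form, with total cost `n`: if a move at position
`p` is followed by a move of `r` wires at position `q`, then `p < q + r`; for the first move
`last < q + r` -/
inductive NSteps : ℕ → List ℕ → ℕ → List ℕ → Prop
  | nil (last : ℕ) (L : List ℕ) : NSteps last L 0 L
  | cons {last p r : ℕ} {L L1 : List ℕ} {n : ℕ} {L' : List ℕ} :
      last < p + r → r ≤ 4 → Move p r L L1 → NSteps p L1 n L' → NSteps last L (wt r + n) L'

/-- the event at a point of the sweep line: all blocks are reversed; a block of `k` wires is a line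
with `k + 1` points -/
inductive EvC : List ℕ → List ℕ → ℕ → Prop
  | nil : EvC [] [] 0
  | cons {B R out : List ℕ} {dd : ℕ} : B ≠ [] → Blk B → EvC R out dd →
      EvC (B ++ R) (B.reverse ++ out) (wt (B.length + 1) + dd)

/-- the event at a clean point: all blocks are pairs -/
inductive EvA : List ℕ → List ℕ → Prop
  | nil : EvA [] []
  | cons {x y : ℕ} {R out : List ℕ} : x / 2 < y / 2 → EvA R out → EvA (x :: y :: R) (y :: x :: out)

/-- the initial row -/
def row0 : List ℕ := [0, 1, 2, 3, 4, 5, 6, 7, 8, 9, 10, 11]

/-- the final row -/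
def rowF : List ℕ := [10, 11, 8, 9, 6, 7, 4, 5, 2, 3, 0, 1]

/-- number of adjacent pairs with `c` -/
def cnt (c : ℕ → ℕ → Bool) : List ℕ → ℕ
  | [] => 0
  | [_] => 0
  | x :: y :: L => (if c x y then 1 else 0) + cnt c (y :: L)

/-- crossable -/
def cx (x y : ℕ) : Bool := decide (x / 2 < y / 2)

/-- not inverted -/
def cy (x y : ℕ) : Bool := decide (x ≤ y)

/-- number of wires `x` at positions `i` with `x + b + i` odd -/
def odd : ℕ → List ℕ → ℕ
  | _, [] => 0
  | b, x :: L => (x + b) % 2 + odd (b + 1) L

/-- code of a row -/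
def enc : List ℕ → ℕ
  | [] => 0
  | x :: L => x + 32 * enc L

end Pool.Agent.Lib.MP_214199_co
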