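import Pool.Agent.Lib.MP_214199_co.SweepDefs

/-!
# Rows of the sweep
-/

set_option autoImplicit false

namespace Pool.Agent.Lib.MP_214199_co

/-- the initial row -/
theorem rowAt_empty (α v : ℕ → ℝ) : RowAt α v ∅ row0 := by
  refine ⟨List.Perm.refl _, ?_⟩
  have h : row0.Pairwise (fun x y => x < y) := by decide
  exact h.imp (fun {x y} hxy => Or.inl ⟨hxy, fun _ => Set.notMem_empty _⟩)

theorem sweepA_bef_univ {α v : ℕ → ℝ} {x y : ℕ} (h : bef α v Set.univ x y) :
    (x < y ∧ ¬ x / 2 < y / 2) ∨ y / 2 < x / 2 := by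
  rcases h with ⟨h1, h2⟩ | ⟨h1, _⟩
  · exact Or.inl ⟨h1, fun h3 => h2 h3 (Set.mem_univ _)⟩
  · exact Or.inr h1

theorem sweepA_lt_of_mem {L : List ℕ} (h : L.Perm row0) {x : ℕ} (hx : x ∈ L) : x < 12 := by
  have h1 : x ∈ row0 := h.mem_iff.1 hx
  have h2 : ∀ z ∈ row0, z < 12 := by decide
  exact h2 x h1

/-- the final row -/
theorem rowAt_univ {α v : ℕ → ℝ} {L : List ℕ} (h : RowAt α v Set.univ L) : L = rowF := by
  have hp : L.Perm rowF := h.1.trans (by decide)
  have h1 : L.Pairwise (fun x y => (x < y ∧ ¬ x / 2 < y / 2) ∨ y / 2 < x / 2) :=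
    h.2.imp (fun {x y} hxy => sweepA_bef_univ hxy)
  have h2 : rowF.Pairwise (fun x y => (x < y ∧ ¬ x / 2 < y / 2) ∨ y / 2 < x / 2) := by decide
  refine List.Perm.eq_of_pairwise (le := fun x y => (x < y ∧ ¬ x / 2 < y / 2) ∨ y / 2 < x / 2)
    ?_ h1 h2 hp
  intro a b _ _ hab hba
  rcases hab with ⟨h3, h4⟩ | h3 <;> rcases hba with ⟨h5, h6⟩ | h5 <;> omega

theorem sweepA_par {α v : ℕ → ℝ} (hs : Srt α v) {x y : ℕ} (hxy : x < y) (hy : y < 12)
    (h : ¬ x / 2 < y / 2) : α x = α y ∧ v y < v x := by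
  obtain ⟨k, hk⟩ : ∃ k, k = x / 2 := ⟨_, rfl⟩
  have hx2 : x = 2 * k := by omega
  have hy2 : y = 2 * k + 1 := by omega
  subst hx2 hy2
  obtain ⟨h1, h2⟩ := hs.par k (by omega)
  exact ⟨h1.symm, h2⟩

theorem sweepA_gv_lt {α v : ℕ → ℝ} (hs : Srt α v) {x y : ℕ} (hxy : x < y) (hy : y < 12)
    (h : ¬ x / 2 < y / 2) (t : ℝ) : gv α v x t < gv α v y t := by
  obtain ⟨h1, h2⟩ := sweepA_par hs hxy hy h
  unfold gv
  rw [h1]
  linarith

theorem sweepA_gv_sub {α v : ℕ → ℝ} {x y : ℕ} (h : α y < α x) (t : ℝ) :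
    gv α v x t - gv α v y t = (α x - α y) * (t - (vx α v x y).1) := by
  have h1 : α x - α y ≠ 0 := by
    intro h2
    linarith
  unfold gv vx
  field_simp
  ring

theorem sweepA_vx_snd {α v : ℕ → ℝ} (x y : ℕ) :
    (vx α v x y).2 = gv α v x (vx α v x y).1 := rfl

theorem sweepA_vx_snd' {α v : ℕ → ℝ} {x y : ℕ} (h : α y < α x) :
    (vx α v x y).2 = gv α v y (vx α v x y).1 := by
  have h1 := sweepA_gv_sub (v := v) h (vx α v x y).1
  rw [sweepA_vx_snd]
  rw [sub_self, mul_zero] at h1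
  linarith

/-- two wires that have the same value at time `t` cross at that point -/
theorem sweepA_vx_eq {α v : ℕ → ℝ} {x y : ℕ} (h : α y < α x) {t c : ℝ}
    (hx : gv α v x t = c) (hy : gv α v y t = c) : vx α v x y = (t, c) := by
  have h1 := sweepA_gv_sub (v := v) h t
  rw [hx, hy, sub_self] at h1
  have h2 : t - (vx α v x y).1 = 0 := by
    rcases mul_eq_zero.1 h1.symm with h3 | h3
    · linarith
    · exact h3
  have h3 : (vx α v x y).1 = t := by linarith
  refine Prod.ext h3 ?_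
  rw [sweepA_vx_snd, h3]
  exact hx

theorem sweepA_mem_thru {α v : ℕ → ℝ} {V : ℝ × ℝ} {i : ℕ} :
    i ∈ thru α v V ↔ i < 12 ∧ gv α v i V.1 = V.2 := by
  unfold thru
  rw [Finset.mem_filter, Finset.mem_range]

theorem sweepA_mem_vxs {α v : ℕ → ℝ} {x y : ℕ} (hx : x < 12) (hy : y < 12)
    (h : x / 2 < y / 2) : vx α v x y ∈ vxs α v := by
  unfold vxs
  rw [Finset.mem_image]
  refine ⟨(x, y), ?_, rfl⟩
  rw [Finset.mem_filter, Finset.mem_product, Finset.mem_range, Finset.mem_range]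
  exact ⟨⟨hx, hy⟩, h⟩

/-- the vertices of `thru` -/
theorem mem_vxs_iff {α v : ℕ → ℝ} (hs : Srt α v) (V : ℝ × ℝ) :
    V ∈ vxs α v ↔ 2 ≤ (thru α v V).card := by
  constructor
  · intro hV
    unfold vxs at hV
    rw [Finset.mem_image] at hV
    obtain ⟨⟨x, y⟩, hxy, rfl⟩ := hV
    rw [Finset.mem_filter, Finset.mem_product, Finset.mem_range, Finset.mem_range] at hxy
    obtain ⟨⟨hx, hy⟩, h⟩ := hxy
    have ha : α y < α x := hs.lt x y hy h
    refine Finset.one_lt_card.2 ⟨x, ?_, y, ?_, ?_⟩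
    · exact sweepA_mem_thru.2 ⟨hx, (sweepA_vx_snd x y).symm⟩
    · exact sweepA_mem_thru.2 ⟨hy, (sweepA_vx_snd' ha).symm⟩
    · rintro rfl
      exact lt_irrefl _ h
  · intro hV
    obtain ⟨a, ha, b, hb, hab⟩ := Finset.one_lt_card.1 hV
    have key : ∀ x y, x ∈ thru α v V → y ∈ thru α v V → x < y → V ∈ vxs α v := by
      intro x y hx hy hxy
      obtain ⟨hx1, hx2⟩ := sweepA_mem_thru.1 hx
      obtain ⟨hy1, hy2⟩ := sweepA_mem_thru.1 hy
      by_cases h : x / 2 < y / 2
      · have h1 : vx α v x y = V := sweepA_vx_eq (hs.lt x y hy1 h) hx2 hy2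
        rw [← h1]
        exact sweepA_mem_vxs hx1 hy1 h
      · have h1 := sweepA_gv_lt hs hxy hy1 h V.1
        rw [hx2, hy2] at h1
        exact absurd h1 (lt_irrefl _)
    rcases lt_or_gt_of_ne hab with h | h
    · exact key a b ha hb h
    · exact key b a hb ha h

theorem rowAt_congr {α v : ℕ → ℝ} {Z Z' : Set (ℝ × ℝ)}
    (h : ∀ V ∈ vxs α v, V ∈ Z ↔ V ∈ Z') {L : List ℕ} (hL : RowAt α v Z L) : RowAt α v Z' L := by
  refine ⟨hL.1, ?_⟩
  refine hL.2.imp_of_mem ?_
  intro x y hx hy hxy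
  have hx' := sweepA_lt_of_mem hL.1 hx
  have hy' := sweepA_lt_of_mem hL.1 hy
  rcases hxy with ⟨h1, h2⟩ | ⟨h1, h2⟩
  · refine Or.inl ⟨h1, fun h3 h4 => h2 h3 ?_⟩
    exact (h _ (sweepA_mem_vxs hx' hy' h3)).2 h4
  · exact Or.inr ⟨h1, (h _ (sweepA_mem_vxs hy' hx' h1)).1 h2⟩

/-- the rows are sorted by the values at the current time -/
theorem RowAt.sorted {α v : ℕ → ℝ} (hs : Srt α v) {Z : Set (ℝ × ℝ)} {t : ℝ}
    (h1 : ∀ V : ℝ × ℝ, V.1 < t → V ∈ Z) (h2 : ∀ V ∈ Z, V.1 ≤ t) {L : List ℕ}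
    (hL : RowAt α v Z L) : L.Pairwise (fun x y => gv α v x t ≤ gv α v y t) := by
  refine hL.2.imp_of_mem ?_
  intro x y hx hy hxy
  have hx' := sweepA_lt_of_mem hL.1 hx
  have hy' := sweepA_lt_of_mem hL.1 hy
  rcases hxy with ⟨h3, h4⟩ | ⟨h3, h4⟩
  · by_cases h5 : x / 2 < y / 2
    · have h6 : t ≤ (vx α v x y).1 := by
        by_contra h7
        exact h4 h5 (h1 _ (not_le.1 h7))
      have h7 := hs.lt x y hy' h5
      have h8 := sweepA_gv_sub (v := v) h7 t
      have h9 : (α x - α y) * (t - (vx α v x y).1) ≤ 0 :=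
        mul_nonpos_of_nonneg_of_nonpos (by linarith) (by linarith)
      linarith
    · exact (sweepA_gv_lt hs h3 hy' h5 t).le
  · have h6 := h2 _ h4
    have h7 := hs.lt y x hx' h3
    have h8 := sweepA_gv_sub (v := v) h7 t
    have h9 : 0 ≤ (α y - α x) * (t - (vx α v y x).1) :=
      mul_nonneg (by linarith) (by linarith)
    linarith

/-- splitting a sorted list -/
theorem sweepA_split (f : ℕ → ℝ) (c : ℝ) (L : List ℕ) (h : L.Pairwise (fun x y => f x ≤ f y)) :
    ∃ P B Q, L = P ++ B ++ Q ∧ (∀ x ∈ P, f x < c) ∧ (∀ x ∈ B, f x = c) ∧ (∀ x ∈ Q, c < f x) := by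
  induction L with
  | nil => exact ⟨[], [], [], rfl, by simp, by simp, by simp⟩
  | cons a L ih =>
    rw [List.pairwise_cons] at h
    obtain ⟨h1, h2⟩ := h
    obtain ⟨P, B, Q, hL, hP, hB, hQ⟩ := ih h2
    rcases lt_trichotomy (f a) c with ha | ha | ha
    · refine ⟨a :: P, B, Q, by rw [hL]; rfl, ?_, hB, hQ⟩
      intro x hx
      rcases List.mem_cons.1 hx with rfl | hx
      · exact ha
      · exact hP x hx
    · have hP0 : P = [] := by
        rcases P with _ | ⟨p, P⟩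
        · rfl
        · exfalso
          have h3 := h1 p (by rw [hL]; simp)
          have h4 := hP p (by simp)
          linarith
      subst hP0
      refine ⟨[], a :: B, Q, by rw [hL]; rfl, by simp, ?_, hQ⟩
      intro x hx
      rcases List.mem_cons.1 hx with rfl | hx
      · exact ha
      · exact hB x hx
    · have hP0 : P = [] := by
        rcases P with _ | ⟨p, P⟩
        · rfl
        · exfalso
          have h3 := h1 p (by rw [hL]; simp)
          have h4 := hP p (by simp)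
          linarith
      have hB0 : B = [] := by
        rcases B with _ | ⟨p, B⟩
        · rfl
        · exfalso
          have h3 := h1 p (by rw [hL]; simp)
          have h4 := hB p (by simp)
          linarith
      subst hP0 hB0
      refine ⟨[], [], a :: Q, by rw [hL]; rfl, by simp, by simp, ?_⟩
      intro x hx
      rcases List.mem_cons.1 hx with rfl | hx
      · exact ha
      · exact hQ x hx

theorem sweepA_vlt_irrefl (V : ℝ × ℝ) : ¬ vlt V V := by
  rintro (h | ⟨_, h⟩)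
  · exact lt_irrefl _ h
  · exact lt_irrefl _ h

theorem sweepA_vlt_asymm {V W : ℝ × ℝ} (h : vlt V W) : ¬ vlt W V := by
  rintro (h' | ⟨h1', h'⟩) <;> rcases h with h | ⟨h1, h⟩ <;> linarith

theorem sweepA_vlt_total {V W : ℝ × ℝ} (h : W ≠ V) (h1 : ¬ vlt W V) : vlt V W := by
  unfold vlt at *
  push Not at h1
  rcases lt_trichotomy V.1 W.1 with h2 | h2 | h2
  · exact Or.inl h2
  · refine Or.inr ⟨h2, ?_⟩
    have h3 := h1.2 h2.symm
    rcases lt_or_eq_of_le h3 with h4 | h4
    · exact h4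
    · exact absurd (Prod.ext h2.symm h4.symm) h
  · exact absurd h2 (not_lt.2 h1.1)

theorem sweepA_bef_step {α v : ℕ → ℝ} (hs : Srt α v) {V : ℝ × ℝ} {x y : ℕ} (hy : y < 12)
    (hn : ¬ (gv α v x V.1 = V.2 ∧ gv α v y V.1 = V.2)) (h : bef α v {W | vlt W V} x y) :
    bef α v {W | ¬ vlt V W} x y := by
  rcases h with ⟨h1, h2⟩ | ⟨h1, h2⟩
  · refine Or.inl ⟨h1, fun h3 h4 => h4 ?_⟩
    refine sweepA_vlt_total ?_ (h2 h3)
    intro h5
    refine hn ⟨?_, ?_⟩
    · rw [← h5]
      exact (sweepA_vx_snd x y).symm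
    · rw [← h5]
      exact (sweepA_vx_snd' (hs.lt x y hy h3)).symm
  · exact Or.inr ⟨h1, sweepA_vlt_asymm h2⟩

/-- processing one vertex is a move -/
theorem RowAt.move {α v : ℕ → ℝ} (hs : Srt α v) {V : ℝ × ℝ} (hV : V ∈ vxs α v) {L : List ℕ}
    (hL : RowAt α v {W | vlt W V} L) :
    ∃ p L', Move p (thru α v V).card L L' ∧ RowAt α v {W | ¬ vlt V W} L' := by
  have hsort : L.Pairwise (fun x y => gv α v x V.1 ≤ gv α v y V.1) := by
    refine hL.sorted hs ?_ ?_
    · intro W hW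
      exact Or.inl hW
    · rintro W (hW | ⟨hW, _⟩)
      · exact hW.le
      · exact hW.le
  obtain ⟨P, B, Q, hLe, hP, hB, hQ⟩ := sweepA_split (fun x => gv α v x V.1) V.2 L hsort
  have hmem : ∀ x ∈ L, x < 12 := fun x hx => sweepA_lt_of_mem hL.1 hx
  have hPL : ∀ x ∈ P, x ∈ L := by
    intro x hx
    rw [hLe]
    simp [hx]
  have hBL : ∀ x ∈ B, x ∈ L := by
    intro x hx
    rw [hLe]
    simp [hx]
  have hQL : ∀ x ∈ Q, x ∈ L := by
    intro x hx
    rw [hLe]
    simp [hx]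
  have hpw := hL.2
  rw [hLe, List.pairwise_append, List.pairwise_append] at hpw
  obtain ⟨⟨hPp, hBp, hPB⟩, hQp, hPBQ⟩ := hpw
  -- the block
  have hblk : Blk B := by
    refine hBp.imp_of_mem ?_
    intro x y hx hy hxy
    have hx' := hmem x (hBL x hx)
    have hy' := hmem y (hBL y hy)
    have hgx : gv α v x V.1 = V.2 := hB x hx
    have hgy : gv α v y V.1 = V.2 := hB y hy
    rcases hxy with ⟨h1, _⟩ | ⟨h1, h2⟩
    · by_contra h3
      have h4 := sweepA_gv_lt hs h1 hy' h3 V.1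
      rw [hgx, hgy] at h4
      exact lt_irrefl _ h4
    · exfalso
      have h3 : vx α v y x = V := sweepA_vx_eq (hs.lt y x hx' h1) hgy hgx
      rw [h3] at h2
      exact sweepA_vlt_irrefl V h2
  have hnd : L.Nodup := hL.1.nodup_iff.2 (by decide)
  have hBnd : B.Nodup := by
    rw [hLe, List.nodup_append, List.nodup_append] at hnd
    exact hnd.1.2.1
  have hthru : thru α v V = B.toFinset := by
    ext i
    rw [sweepA_mem_thru, List.mem_toFinset]
    constructor
    · rintro ⟨h1, h2⟩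
      have h3 : i ∈ L := by
        rw [hL.1.mem_iff]
        have : ∀ z < 12, z ∈ row0 := by decide
        exact this i h1
      rw [hLe, List.mem_append, List.mem_append] at h3
      rcases h3 with (h3 | h3) | h3
      · exact absurd h2 (hP i h3).ne
      · exact h3
      · exact absurd h2 (hQ i h3).ne'
    · intro h1
      exact ⟨hmem i (hBL i h1), hB i h1⟩
  have hcard : B.length = (thru α v V).card := by
    rw [hthru, List.toFinset_card_of_nodup hBnd]
  have h2le : 2 ≤ (thru α v V).card := (mem_vxs_iff hs V).1 hV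
  refine ⟨P.length, P ++ B.reverse ++ Q, ⟨P, B, Q, hLe, rfl, rfl, hcard, h2le, hblk⟩, ?_, ?_⟩
  · refine List.Perm.trans ?_ hL.1
    rw [hLe]
    exact List.Perm.append (List.Perm.append (List.Perm.refl _) (List.reverse_perm _))
      (List.Perm.refl _)
  · rw [List.pairwise_append, List.pairwise_append]
    refine ⟨⟨?_, ?_, ?_⟩, ?_, ?_⟩
    · refine hPp.imp_of_mem ?_
      intro x y hx hy hxy
      refine sweepA_bef_step hs (hmem y (hPL y hy)) ?_ hxy
      rintro ⟨h1, _⟩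
      exact absurd h1 (hP x hx).ne
    · rw [List.pairwise_reverse]
      refine List.Pairwise.imp_of_mem ?_ hblk
      intro x y hx hy hxy
      refine Or.inr ⟨hxy, ?_⟩
      have h3 : vx α v x y = V :=
        sweepA_vx_eq (hs.lt x y (hmem y (hBL y hy)) hxy) (hB x hx) (hB y hy)
      rw [h3]
      exact sweepA_vlt_irrefl V
    · intro x hx y hy
      rw [List.mem_reverse] at hy
      refine sweepA_bef_step hs (hmem y (hBL y hy)) ?_ (hPB x hx y hy)
      rintro ⟨h1, _⟩
      exact absurd h1 (hP x hx).ne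
    · refine hQp.imp_of_mem ?_
      intro x y hx hy hxy
      refine sweepA_bef_step hs (hmem y (hQL y hy)) ?_ hxy
      rintro ⟨h1, _⟩
      exact absurd h1 (hQ x hx).ne'
    · intro x hx y hy
      refine sweepA_bef_step hs (hmem y (hQL y hy)) ?_ (hPBQ x ?_ y hy)
      · rintro ⟨_, h1⟩
        exact absurd h1 (hQ y hy).ne'
      · rw [List.mem_append] at hx ⊢
        rcases hx with hx | hx
        · exact Or.inl hx
        · exact Or.inr (List.mem_reverse.1 hx)

end Pool.Agent.Lib.MP_214199_co
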