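import Pool.Agent.Lib.MP_214199_co.SweepA

/-!
# The steps of the sweep
-/

set_option autoImplicit false

namespace Pool.Agent.Lib.MP_214199_co

theorem sweepB_vlt_irrefl (a : ℝ × ℝ) : ¬ vlt a a := by
  unfold vlt
  simp

theorem sweepB_vlt_trans {a b c : ℝ × ℝ} (h1 : vlt a b) (h2 : vlt b c) : vlt a c := by
  unfold vlt at *
  rcases h1 with h1 | ⟨h1, h1'⟩ <;> rcases h2 with h2 | ⟨h2, h2'⟩
  · left; linarith
  · left; linarith
  · left; linarith
  · right; constructor <;> linarith

theorem sweepB_vlt_tri (a b : ℝ × ℝ) : vlt a b ∨ a = b ∨ vlt b a := by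
  unfold vlt
  rcases lt_trichotomy a.1 b.1 with h | h | h
  · left; left; exact h
  · rcases lt_trichotomy a.2 b.2 with h' | h' | h'
    · left; right; exact ⟨h, h'⟩
    · right; left; exact Prod.ext h h'
    · right; right; right; exact ⟨h.symm, h'⟩
  · right; right; left; exact h

theorem sweepB_snoc {L L1 L2 : List ℕ} {n p r : ℕ} (h : Steps L n L1) (hm : Move p r L1 L2) :
    Steps L (n + wt r) L2 := by
  induction h with
  | nil L => simpa using Steps.cons hm (Steps.nil _)
  | cons h1 h2 ih =>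
    rw [Nat.add_assoc]
    exact Steps.cons h1 (ih hm)

theorem sweepB_max (S : Finset (ℝ × ℝ)) (hS : S.Nonempty) : ∃ V ∈ S, ∀ W ∈ S, ¬ vlt V W := by
  induction hS using Finset.Nonempty.cons_induction with
  | singleton a =>
    refine ⟨a, Finset.mem_singleton_self a, ?_⟩
    intro W hW
    rw [Finset.mem_singleton.mp hW]
    exact sweepB_vlt_irrefl a
  | cons a s ha hs ih =>
    obtain ⟨V, hV, hmax⟩ := ih
    by_cases h : vlt V a
    · refine ⟨a, Finset.mem_cons_self a s, ?_⟩
      intro W hW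
      rcases Finset.mem_cons.mp hW with rfl | hW
      · exact sweepB_vlt_irrefl _
      · intro h2
        exact hmax W hW (sweepB_vlt_trans h h2)
    · refine ⟨V, Finset.mem_cons_of_mem hV, ?_⟩
      intro W hW
      rcases Finset.mem_cons.mp hW with rfl | hW
      · exact h
      · exact hmax W hW

theorem sweepB_vcost (α v : ℕ → ℝ) (Z : Set (ℝ × ℝ)) [DecidablePred (fun V => V ∈ Z)] :
    vcost α v Z = ∑ V ∈ (vxs α v).filter (fun V => V ∈ Z), wt (thru α v V).card := by
  unfold vcost
  apply Finset.sum_congr _ (fun _ _ => rfl)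
  ext V
  simp only [Finset.mem_filter]

open Classical in
theorem sweepB_main {α v : ℕ → ℝ} (hs : Srt α v) {Z0 : Set (ℝ × ℝ)} (h0 : Low Z0)
    {L0 : List ℕ} (hL : RowAt α v Z0 L0) (n : ℕ) :
    ∀ Z1 : Set (ℝ × ℝ), Low Z1 → Z0 ⊆ Z1 →
      ((vxs α v).filter (fun V => V ∈ Z1 \ Z0)).card = n →
      ∃ L1, RowAt α v Z1 L1 ∧ Steps L0 (vcost α v (Z1 \ Z0)) L1 := by
  induction n with
  | zero =>
    intro Z1 h1 h01 hc
    have he := Finset.card_eq_zero.mp hc
    refine ⟨L0, rowAt_congr ?_ hL, ?_⟩
    · intro V hV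
      constructor
      · exact fun h => h01 h
      · intro h
        by_contra hn
        have h3 : V ∈ (vxs α v).filter (fun V => V ∈ Z1 \ Z0) :=
          Finset.mem_filter.mpr ⟨hV, h, hn⟩
        rw [he] at h3
        exact absurd h3 (Finset.notMem_empty _)
    · rw [sweepB_vcost, he]
      exact Steps.nil _
  | succ n ih =>
    intro Z1 h1 h01 hc
    have hne : ((vxs α v).filter (fun V => V ∈ Z1 \ Z0)).Nonempty := by
      rw [← Finset.card_pos]
      omega
    obtain ⟨V, hV, hmax⟩ := sweepB_max _ hne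
    rw [Finset.mem_filter] at hV
    obtain ⟨hVx, hV1, hV0⟩ := hV
    have hfe : (vxs α v).filter (fun W => W ∈ Z1 \ Z0)
        = insert V ((vxs α v).filter (fun W => W ∈ {W | vlt W V} \ Z0)) := by
      ext W
      simp only [Finset.mem_insert, Finset.mem_filter, Set.mem_diff, Set.mem_setOf_eq]
      constructor
      · rintro ⟨hW, hW1, hW0⟩
        by_cases hWV : W = V
        · left; exact hWV
        · right
          refine ⟨hW, ?_, hW0⟩
          rcases sweepB_vlt_tri W V with h | h | h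
          · exact h
          · exact absurd h hWV
          · exact absurd h (hmax W (Finset.mem_filter.mpr ⟨hW, hW1, hW0⟩))
      · rintro (rfl | ⟨hW, hWV, hW0⟩)
        · exact ⟨hVx, hV1, hV0⟩
        · exact ⟨hW, h1 W V hV1 hWV, hW0⟩
    have hnot : V ∉ ((vxs α v).filter (fun W => W ∈ {W | vlt W V} \ Z0)) := by
      intro h
      exact sweepB_vlt_irrefl V (Finset.mem_filter.mp h).2.1
    have hcard : ((vxs α v).filter (fun W => W ∈ {W | vlt W V} \ Z0)).card = n := by
      rw [hfe, Finset.card_insert_of_notMem hnot] at hc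
      omega
    have hlow : Low {W | vlt W V} := fun a b hb hab => sweepB_vlt_trans hab hb
    have hsub : Z0 ⊆ {W | vlt W V} := by
      intro W hW
      rcases sweepB_vlt_tri W V with h | h | h
      · exact h
      · exact absurd (h ▸ hW) hV0
      · exact absurd (h0 V W hW h) hV0
    obtain ⟨L', hL', hS⟩ := ih _ hlow hsub hcard
    obtain ⟨p, L'', hm, hL''⟩ := RowAt.move hs hVx hL'
    refine ⟨L'', rowAt_congr ?_ hL'', ?_⟩
    · intro W hW
      simp only [Set.mem_setOf_eq]
      constructor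
      · intro h
        rcases sweepB_vlt_tri W V with h' | h' | h'
        · exact h1 W V hV1 h'
        · exact h' ▸ hV1
        · exact absurd h' h
      · intro hW1 hVW
        have hW0 : W ∉ Z0 := fun h => hV0 (h0 V W h hVW)
        exact hmax W (Finset.mem_filter.mpr ⟨hW, hW1, hW0⟩) hVW
    · have hcost : vcost α v (Z1 \ Z0)
          = vcost α v ({W | vlt W V} \ Z0) + wt (thru α v V).card := by
        rw [sweepB_vcost, sweepB_vcost, hfe, Finset.sum_insert hnot, add_comm]
      rw [hcost]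
      exact sweepB_snoc hS hm

/-- processing the vertices in `Z1 \ Z0` -/
theorem RowAt.steps {α v : ℕ → ℝ} (hs : Srt α v) {Z0 Z1 : Set (ℝ × ℝ)} (h0 : Low Z0) (h1 : Low Z1)
    (h01 : Z0 ⊆ Z1) {L0 : List ℕ} (hL : RowAt α v Z0 L0) :
    ∃ L1, RowAt α v Z1 L1 ∧ Steps L0 (vcost α v (Z1 \ Z0)) L1 := by
  classical
  exact sweepB_main hs h0 hL _ Z1 h1 h01 rfl

end Pool.Agent.Lib.MP_214199_co
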