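import Pool.Agent.Lib.MP_214199_co.Row

/-!
# Sweeping an arrangement of 12 lines

The wires are the affine functions `t ↦ α i * t - v i`, `i < 12`, labelled by their order for
`t → -∞`. They come in 6 parallel pairs `(2 j, 2 j + 1)`.
-/

set_option autoImplicit false

namespace Pool.Agent.Lib.MP_214199_co

/-- the wires are sorted as for `t → -∞`, and exactly the pairs `(2 j, 2 j + 1)` are parallel -/
structure Srt (α v : ℕ → ℝ) : Prop where
  lt : ∀ i j, j < 12 → i / 2 < j / 2 → α j < α i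
  par : ∀ k, k < 6 → α (2 * k + 1) = α (2 * k) ∧ v (2 * k + 1) < v (2 * k)

/-- value of wire `i` at time `t` -/
def gv (α v : ℕ → ℝ) (i : ℕ) (t : ℝ) : ℝ := α i * t - v i

/-- the vertex `(time, value)` at which the wires `i` and `j` cross -/
noncomputable def vx (α v : ℕ → ℝ) (i j : ℕ) : ℝ × ℝ :=
  ((v i - v j) / (α i - α j), gv α v i ((v i - v j) / (α i - α j)))

/-- lexicographic order on vertices -/
def vlt (a b : ℝ × ℝ) : Prop := a.1 < b.1 ∨ (a.1 = b.1 ∧ a.2 < b.2)

/-- lower sets of vertices -/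
def Low (Z : Set (ℝ × ℝ)) : Prop := ∀ a b, b ∈ Z → vlt a b → a ∈ Z

/-- wire `x` is above wire `y` after the vertices in `Z` have been processed -/
def bef (α v : ℕ → ℝ) (Z : Set (ℝ × ℝ)) (x y : ℕ) : Prop :=
  (x < y ∧ (x / 2 < y / 2 → vx α v x y ∉ Z)) ∨ (y / 2 < x / 2 ∧ vx α v y x ∈ Z)

/-- `L` is the row after the vertices in `Z` have been processed -/
def RowAt (α v : ℕ → ℝ) (Z : Set (ℝ × ℝ)) (L : List ℕ) : Prop :=
  L.Perm row0 ∧ L.Pairwise (bef α v Z)

/-- the wires through a point -/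
noncomputable def thru (α v : ℕ → ℝ) (V : ℝ × ℝ) : Finset ℕ :=
  (Finset.range 12).filter (fun i => gv α v i V.1 = V.2)

/-- all vertices -/
noncomputable def vxs (α v : ℕ → ℝ) : Finset (ℝ × ℝ) :=
  ((Finset.range 12 ×ˢ Finset.range 12).filter (fun p => p.1 / 2 < p.2 / 2)).image
    (fun p => vx α v p.1 p.2)

open Classical in
/-- total weight of the vertices in `Z` -/
noncomputable def vcost (α v : ℕ → ℝ) (Z : Set (ℝ × ℝ)) : ℕ :=
  ∑ V ∈ (vxs α v).filter (fun V => V ∈ Z), wt (thru α v V).card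

end Pool.Agent.Lib.MP_214199_co
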