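import Pool.Agent.Lib.MP_214199_co.Plane
import Pool.Agent.Lib.MP_214199_co.Core

/-!
# At most 31 heavy lines
-/

set_option autoImplicit false

namespace Pool.Agent.Lib.MP_214199_co

/-- first coordinate with respect to the line `a b` -/
noncomputable def upperX (a b P : EuclideanSpace ℝ (Fin 2)) : ℝ :=
  ((b 0 - a 0) * (P 0 - a 0) + (b 1 - a 1) * (P 1 - a 1)) / ((b 0 - a 0) ^ 2 + (b 1 - a 1) ^ 2)

/-- second coordinate with respect to the line `a b` -/
noncomputable def upperH (a b P : EuclideanSpace ℝ (Fin 2)) : ℝ :=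
  ((b 0 - a 0) * (P 1 - a 1) - (b 1 - a 1) * (P 0 - a 0)) / ((b 0 - a 0) ^ 2 + (b 1 - a 1) ^ 2)

theorem upper_ext {p q : EuclideanSpace ℝ (Fin 2)} (h0 : p 0 = q 0) (h1 : p 1 = q 1) : p = q := by
  ext i
  fin_cases i
  · exact h0
  · exact h1

theorem upper_pos {a b : EuclideanSpace ℝ (Fin 2)} (hab : a ≠ b) :
    0 < (b 0 - a 0) ^ 2 + (b 1 - a 1) ^ 2 := by
  by_contra h
  push Not at h
  have h0 : b 0 - a 0 = 0 := by nlinarith [sq_nonneg (b 0 - a 0), sq_nonneg (b 1 - a 1)]
  have h1 : b 1 - a 1 = 0 := by nlinarith [sq_nonneg (b 0 - a 0), sq_nonneg (b 1 - a 1)]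
  exact hab (upper_ext (by linarith) (by linarith))

theorem upper_det {a b : EuclideanSpace ℝ (Fin 2)} (hab : a ≠ b) (p q r : EuclideanSpace ℝ (Fin 2)) :
    det3 p q r = 0 ↔ (upperX a b q - upperX a b p) * (upperH a b r - upperH a b p) =
      (upperH a b q - upperH a b p) * (upperX a b r - upperX a b p) := by
  have hn := upper_pos hab
  have key : det3 p q r = ((b 0 - a 0) ^ 2 + (b 1 - a 1) ^ 2) *
      ((upperX a b q - upperX a b p) * (upperH a b r - upperH a b p) -
      (upperH a b q - upperH a b p) * (upperX a b r - upperX a b p)) := by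
    unfold upperX upperH det3
    field_simp
    ring
  rw [key, mul_eq_zero, sub_eq_zero]
  constructor
  · rintro (h | h)
    · exact absurd h hn.ne'
    · exact h
  · exact Or.inr

theorem upper_inj {a b : EuclideanSpace ℝ (Fin 2)} (hab : a ≠ b) {p q : EuclideanSpace ℝ (Fin 2)}
    (hx : upperX a b p = upperX a b q) (hh : upperH a b p = upperH a b q) : p = q := by
  have hn := upper_pos hab
  unfold upperX at hx
  unfold upperH at hh
  rw [div_left_inj' hn.ne'] at hx hh
  have h0 : ((b 0 - a 0) ^ 2 + (b 1 - a 1) ^ 2) * (p 0 - q 0) = 0 := by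
    linear_combination (b 0 - a 0) * hx - (b 1 - a 1) * hh
  have h1 : ((b 0 - a 0) ^ 2 + (b 1 - a 1) ^ 2) * (p 1 - q 1) = 0 := by
    linear_combination (b 1 - a 1) * hx + (b 0 - a 0) * hh
  apply upper_ext
  · linarith [(mul_eq_zero.mp h0).resolve_left hn.ne']
  · linarith [(mul_eq_zero.mp h1).resolve_left hn.ne']

theorem upper_a (a b : EuclideanSpace ℝ (Fin 2)) : upperX a b a = 0 ∧ upperH a b a = 0 := by
  constructor
  · unfold upperX
    simp
  · unfold upperH
    simp

theorem upper_b {a b : EuclideanSpace ℝ (Fin 2)} (hab : a ≠ b) :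
    upperX a b b = 1 ∧ upperH a b b = 0 := by
  have hn := upper_pos hab
  constructor
  · unfold upperX
    rw [div_eq_one_iff_eq hn.ne']
    ring
  · unfold upperH
    rw [div_eq_zero_iff]
    left
    ring

/-- the points of `S` on a line through two points of `S`, by an equation of the line -/
theorem upper_ln {S : Finset (EuclideanSpace ℝ (Fin 2))} {a b : EuclideanSpace ℝ (Fin 2)}
    (hab : a ≠ b) {A B C : ℝ} (hAB : A ≠ 0 ∨ B ≠ 0) {p q : EuclideanSpace ℝ (Fin 2)} (hpq : p ≠ q)
    (hp : A * upperX a b p + B * upperH a b p = C) (hq : A * upperX a b q + B * upperH a b q = C) :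
    ln S p q = S.filter (fun r => A * upperX a b r + B * upperH a b r = C) := by
  unfold ln
  apply Finset.filter_congr
  intro r _
  rw [upper_det hab]
  set dx := upperX a b q - upperX a b p with hdx
  set dh := upperH a b q - upperH a b p with hdh
  set ex := upperX a b r - upperX a b p with hex
  set eh := upperH a b r - upperH a b p with heh
  have h1 : A * dx + B * dh = 0 := by rw [hdx, hdh]; linear_combination hq - hp
  have h2 : A * upperX a b r + B * upperH a b r = C ↔ A * ex + B * eh = 0 := by
    rw [hex, heh]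
    constructor
    · intro h
      linear_combination h - hp
    · intro h
      linear_combination h + hp
  rw [h2]
  constructor
  · intro h
    by_contra h3
    have hx0 : dx = 0 := by
      have : dx * (A * ex + B * eh) = 0 := by linear_combination B * h + ex * h1
      exact (mul_eq_zero.mp this).resolve_right h3
    have hh0 : dh = 0 := by
      have : dh * (A * ex + B * eh) = 0 := by linear_combination (-A) * h + eh * h1
      exact (mul_eq_zero.mp this).resolve_right h3
    exact hpq (upper_inj hab (by linarith) (by linarith))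
  · intro h
    rcases hAB with hA | hB
    · have : A * (dx * eh - dh * ex) = 0 := by linear_combination eh * h1 - dh * h
      have := (mul_eq_zero.mp this).resolve_left hA
      linarith
    · have : B * (dx * eh - dh * ex) = 0 := by linear_combination dx * h - ex * h1
      have := (mul_eq_zero.mp this).resolve_left hB
      linarith

theorem upper_mem_lns {S : Finset (EuclideanSpace ℝ (Fin 2))} {p q : EuclideanSpace ℝ (Fin 2)}
    (hp : p ∈ S) (hq : q ∈ S) (hpq : p ≠ q) : ln S p q ∈ lns S := by
  unfold lns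
  exact Finset.mem_image.mpr ⟨(p, q), Finset.mem_offDiag.mpr ⟨hp, hq, hpq⟩, rfl⟩


open Classical in
theorem upper_third {L : Finset (EuclideanSpace ℝ (Fin 2))} (hL : L.card = 3)
    {z P : EuclideanSpace ℝ (Fin 2)} (hz : z ∈ L) (hP : P ∈ L) (hzP : z ≠ P) :
    ∃ Q ∈ L, Q ≠ z ∧ Q ≠ P ∧ ∀ R ∈ L, R ≠ z → R ≠ P → R = Q := by
  have h1 : ((L.erase z).erase P).card = 1 := by
    rw [Finset.card_erase_of_mem (Finset.mem_erase.mpr ⟨hzP.symm, hP⟩),
      Finset.card_erase_of_mem hz, hL]
  obtain ⟨Q, hQ⟩ := Finset.card_eq_one.mp h1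
  have hQm : Q ∈ (L.erase z).erase P := by
    rw [hQ]
    exact Finset.mem_singleton_self _
  simp only [Finset.mem_erase] at hQm
  refine ⟨Q, hQm.2.2, hQm.2.1, hQm.1, ?_⟩
  intro R hR h2 h3
  have : R ∈ (L.erase z).erase P := by
    simp only [Finset.mem_erase]
    exact ⟨h3, h2, hR⟩
  rw [hQ] at this
  exact Finset.mem_singleton.mp this

open Classical in
/-- a line with two clean points gives an arrangement of small cost -/
theorem lns_false {S : Finset (EuclideanSpace ℝ (Fin 2))} (hS : S.card = 15)
    (hwt : ∑ L ∈ lns S, wt L.card ≤ 9) {a b : EuclideanSpace ℝ (Fin 2)} (ha : a ∈ S) (hb : b ∈ S)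
    (hab : a ≠ b) (hca : ∀ L ∈ lns S, a ∈ L → L.card = 3) (hcb : ∀ L ∈ lns S, b ∈ L → L.card = 3) :
    False := by
  set X := upperX a b with hX
  set H := upperH a b with hH
  have hXa : X a = 0 := (upper_a a b).1
  have hHa : H a = 0 := (upper_a a b).2
  have hXb : X b = 1 := (upper_b hab).1
  have hHb : H b = 0 := (upper_b hab).2
  have hinj : ∀ {p q : EuclideanSpace ℝ (Fin 2)}, X p = X q → H p = H q → p = q :=
    fun h1 h2 => upper_inj hab h1 h2
  have hln : ∀ {A B C : ℝ}, (A ≠ 0 ∨ B ≠ 0) → ∀ {p q : EuclideanSpace ℝ (Fin 2)}, p ≠ q →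
      A * X p + B * H p = C → A * X q + B * H q = C →
      ln S p q = S.filter (fun r => A * X r + B * H r = C) :=
    fun h1 _ _ h2 h3 h4 => upper_ln hab h1 h2 h3 h4
  -- the line `a b`
  have hL0 : (S.filter (fun r => H r = 0)).card = 3 := by
    have h1 := hln (A := 0) (B := 1) (C := 0) (Or.inr one_ne_zero) hab (by rw [hHa]; ring)
      (by rw [hHb]; ring)
    have h3 : a ∈ ln S a b := by
      rw [h1]
      exact Finset.mem_filter.mpr ⟨ha, by rw [hHa]; ring⟩
    have h2 := hca _ (upper_mem_lns ha hb hab) h3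
    rw [h1] at h2
    rw [← h2]
    congr 1
    apply Finset.filter_congr
    intro r _
    rw [zero_mul, zero_add, one_mul]
  obtain ⟨c, hc, hc1, hc2, hc3⟩ := upper_third hL0 (z := a) (P := b)
    (Finset.mem_filter.mpr ⟨ha, hHa⟩) (Finset.mem_filter.mpr ⟨hb, hHb⟩) hab
  obtain ⟨hcS, hHc⟩ := Finset.mem_filter.mp hc
  have hL0mem : ∀ r ∈ S, H r = 0 → r = a ∨ r = b ∨ r = c := by
    intro r hr h
    by_cases h1 : r = a
    · exact Or.inl h1
    by_cases h2 : r = b
    · exact Or.inr (Or.inl h2)
    exact Or.inr (Or.inr (hc3 r (Finset.mem_filter.mpr ⟨hr, h⟩) h1 h2))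
  have hXc0 : X c ≠ 0 := by
    intro h
    exact hc1 (hinj (by rw [h, hXa]) (by rw [hHc, hHa]))
  have hXc1 : 1 - X c ≠ 0 := by
    intro h
    exact hc2 (hinj (by rw [hXb]; linarith) (by rw [hHc, hHb]))
  set tc : ℝ := X c / (1 - X c) with htc
  have htc0 : tc ≠ 0 := div_ne_zero hXc0 hXc1
  have htc1 : (1 + tc) * X c = tc := by
    rw [htc]
    field_simp
    ring
  -- the index type
  set F : Finset (EuclideanSpace ℝ (Fin 2)) := S.filter (fun r => H r ≠ 0) with hF
  have hFcard : F.card = 12 := by
    have := Finset.card_filter_add_card_filter_not (s := S) (fun r => H r = 0)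
    rw [hL0, hS] at this
    have h2 : F.card = (S.filter (fun r => ¬ H r = 0)).card := rfl
    omega
  have hFm : ∀ i : F, i.1 ∈ S ∧ H i.1 ≠ 0 := fun i => Finset.mem_filter.mp i.2
  have hcard : Fintype.card F = 12 := by rw [Fintype.card_coe, hFcard]
  let α : F → ℝ := fun i => (1 - X i.1) / H i.1
  let v : F → ℝ := fun i => X i.1 / H i.1
  have hαv : ∀ (i : F) (t y : ℝ), α i * t - v i = y ↔ (1 + t) * X i.1 + y * H i.1 = t := by
    intro i t y
    have hi := (hFm i).2
    have e : α i * t - v i = (t - (1 + t) * X i.1) / H i.1 := by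
      change (1 - X i.1) / H i.1 * t - X i.1 / H i.1 = _
      field_simp
      ring
    rw [e, div_eq_iff hi]
    constructor
    · intro h
      linarith
    · intro h
      linarith
  have hcfg : Cfg α v := by
    constructor
    · intro i
      have hi := (hFm i).2
      have hne : b ≠ i.1 := by
        rintro h
        apply hi
        rw [← h, hHb]
      have h1 := hln (A := 1) (B := α i) (C := 1) (Or.inl one_ne_zero) hne
        (by rw [hXb, hHb]; ring) (by change 1 * X i.1 + (1 - X i.1) / H i.1 * H i.1 = 1; field_simp; ring)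
      have hbm : b ∈ ln S b i.1 := by
        rw [h1]
        exact Finset.mem_filter.mpr ⟨hb, by rw [hXb, hHb]; ring⟩
      have him : i.1 ∈ ln S b i.1 := by
        rw [h1]
        refine Finset.mem_filter.mpr ⟨(hFm i).1, ?_⟩
        change 1 * X i.1 + (1 - X i.1) / H i.1 * H i.1 = 1
        field_simp
        ring
      obtain ⟨Q, hQ, hQb, hQi, huniq⟩ := upper_third (hcb _ (upper_mem_lns hb (hFm i).1 hne) hbm)
        hbm him hne
      rw [h1] at hQ huniq
      obtain ⟨hQS, hQe⟩ := Finset.mem_filter.mp hQ
      have hQH : H Q ≠ 0 := by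
        intro h
        rw [h] at hQe
        exact hQb (hinj (by rw [hXb]; linarith) (by rw [h, hHb]))
      have hmem : ∀ j : F, α j = α i ↔ 1 * X j.1 + α i * H j.1 = 1 := by
        intro j
        have hj := (hFm j).2
        change (1 - X j.1) / H j.1 = α i ↔ _
        rw [div_eq_iff hj]
        constructor
        · intro h
          linarith
        · intro h
          linarith
      refine ⟨⟨Q, Finset.mem_filter.mpr ⟨hQS, hQH⟩⟩, ⟨?_, ?_⟩, ?_⟩
      · intro h
        exact hQi (congrArg Subtype.val h)
      · exact (hmem _).mpr hQe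
      · rintro j ⟨hj1, hj2⟩
        apply Subtype.ext
        refine huniq j.1 (Finset.mem_filter.mpr ⟨(hFm j).1, (hmem j).mp hj2⟩) ?_ ?_
        · intro h
          apply (hFm j).2
          rw [h, hHb]
        · intro h
          exact hj1 (Subtype.ext h)
    · intro i
      have hi := (hFm i).2
      have hne : a ≠ i.1 := by
        rintro h
        apply hi
        rw [← h, hHa]
      have h1 := hln (A := 1) (B := - v i) (C := 0) (Or.inl one_ne_zero) hne
        (by rw [hXa, hHa]; ring) (by change 1 * X i.1 + -(X i.1 / H i.1) * H i.1 = 0; field_simp; ring)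
      have hbm : a ∈ ln S a i.1 := by
        rw [h1]
        exact Finset.mem_filter.mpr ⟨ha, by rw [hXa, hHa]; ring⟩
      have him : i.1 ∈ ln S a i.1 := by
        rw [h1]
        refine Finset.mem_filter.mpr ⟨(hFm i).1, ?_⟩
        change 1 * X i.1 + -(X i.1 / H i.1) * H i.1 = 0
        field_simp
        ring
      obtain ⟨Q, hQ, hQb, hQi, huniq⟩ := upper_third (hca _ (upper_mem_lns ha (hFm i).1 hne) hbm)
        hbm him hne
      rw [h1] at hQ huniq
      obtain ⟨hQS, hQe⟩ := Finset.mem_filter.mp hQ
      have hQH : H Q ≠ 0 := by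
        intro h
        rw [h] at hQe
        exact hQb (hinj (by rw [hXa]; linarith) (by rw [h, hHa]))
      have hmem : ∀ j : F, v j = v i ↔ 1 * X j.1 + - v i * H j.1 = 0 := by
        intro j
        have hj := (hFm j).2
        change X j.1 / H j.1 = v i ↔ _
        rw [div_eq_iff hj]
        constructor
        · intro h
          linarith
        · intro h
          linarith
      refine ⟨⟨Q, Finset.mem_filter.mpr ⟨hQS, hQH⟩⟩, ⟨?_, ?_⟩, ?_⟩
      · intro h
        exact hQi (congrArg Subtype.val h)
      · exact (hmem _).mpr hQe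
      · rintro j ⟨hj1, hj2⟩
        apply Subtype.ext
        refine huniq j.1 (Finset.mem_filter.mpr ⟨(hFm j).1, (hmem j).mp hj2⟩) ?_ ?_
        · intro h
          apply (hFm j).2
          rw [h, hHa]
        · intro h
          exact hj1 (Subtype.ext h)
    · intro i j h1 h2
      have hi := (hFm i).2
      have hj := (hFm j).2
      have e : ∀ k : F, α k + v k = 1 / H k.1 := by
        intro k
        change (1 - X k.1) / H k.1 + X k.1 / H k.1 = _
        rw [← add_div]
        congr 1
        ring
      have e1 : 1 / H i.1 = 1 / H j.1 := by rw [← e, ← e, h1, h2]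
      have e2 : H i.1 = H j.1 := by
        rw [one_div, one_div] at e1
        exact inv_injective e1
      have e3 : X i.1 = X j.1 := by
        have : X i.1 / H i.1 = X j.1 / H j.1 := h2
        rw [e2, div_left_inj' hj] at this
        exact this
      exact Subtype.ext (hinj e3 e2)
  -- classes as lines
  let val : F ↪ EuclideanSpace ℝ (Fin 2) := ⟨Subtype.val, Subtype.val_injective⟩
  have hcls : ∀ (t y : ℝ) (r : EuclideanSpace ℝ (Fin 2)), r ∈ (cls α v t y).map val ↔
      r ∈ S ∧ H r ≠ 0 ∧ (1 + t) * X r + y * H r = t := by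
    intro t y r
    rw [Finset.mem_map]
    constructor
    · rintro ⟨i, hi, rfl⟩
      have := (Finset.mem_filter.mp hi).2
      exact ⟨(hFm i).1, (hFm i).2, (hαv i t y).mp this⟩
    · rintro ⟨h1, h2, h3⟩
      refine ⟨⟨r, Finset.mem_filter.mpr ⟨h1, h2⟩⟩, ?_, rfl⟩
      exact Finset.mem_filter.mpr ⟨Finset.mem_univ _, (hαv _ t y).mpr h3⟩
  have hfirst : ∀ K ∈ fam α v {t | t ≠ 0 ∧ t ≠ tc}, K.map val ∈ lns S ∧ c ∉ K.map val := by
    intro K hK
    obtain ⟨-, hK2, t, ⟨ht0, htc'⟩, y, rfl⟩ := Finset.mem_filter.mp hK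
    refine ⟨?_, ?_⟩
    · obtain ⟨P, hP, Q, hQ, hPQ⟩ := Finset.one_lt_card.mp hK2
      have hP' := (hαv P t y).mp (Finset.mem_filter.mp hP).2
      have hQ' := (hαv Q t y).mp (Finset.mem_filter.mp hQ).2
      have hAB : (1 + t) ≠ 0 ∨ y ≠ 0 := by
        by_contra h
        push Not at h
        rw [h.1, h.2] at hP'
        apply ht0
        linarith
      have hne : P.1 ≠ Q.1 := fun h => hPQ (Subtype.ext h)
      have h1 := hln hAB hne hP' hQ'
      have h2 : (cls α v t y).map val = ln S P.1 Q.1 := by
        rw [h1]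
        ext r
        rw [hcls, Finset.mem_filter]
        constructor
        · rintro ⟨h3, -, h4⟩
          exact ⟨h3, h4⟩
        · rintro ⟨h3, h4⟩
          refine ⟨h3, ?_, h4⟩
          intro h5
          rw [h5, mul_zero, add_zero] at h4
          rcases hL0mem r h3 h5 with rfl | rfl | rfl
          · rw [hXa, mul_zero] at h4
            exact ht0 h4.symm
          · rw [hXb] at h4
            linarith
          · apply htc'
            rw [htc, eq_div_iff hXc1]
            linarith
      rw [h2]
      exact upper_mem_lns (hFm P).1 (hFm Q).1 hne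
    · intro h
      exact ((hcls _ _ _).mp h).2.1 hHc
  have hcn : ∀ y, c ∉ (cls α v tc y).map val := by
    intro y h
    exact ((hcls _ _ _).mp h).2.1 hHc
  have hsecond : ∀ y ∈ Finset.univ.image (fun i => α i * tc - v i),
      insert c ((cls α v tc y).map val) ∈ lns S := by
    intro y hy
    obtain ⟨i, -, hi⟩ := Finset.mem_image.mp hy
    have hi' := (hαv i tc y).mp hi
    have hne : c ≠ i.1 := by
      intro h
      apply (hFm i).2
      rw [← h, hHc]
    have hA : (1 + tc) ≠ 0 := by
      intro h
      rw [h, zero_mul] at htc1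
      exact htc0 htc1.symm
    have h1 := hln (Or.inl hA) hne (B := y) (C := tc) (by rw [hHc, htc1]; ring) hi'
    have h2 : insert c ((cls α v tc y).map val) = ln S c i.1 := by
      rw [h1]
      ext r
      rw [Finset.mem_insert, hcls, Finset.mem_filter]
      constructor
      · rintro (rfl | ⟨h3, -, h4⟩)
        · exact ⟨hcS, by rw [hHc, htc1]; ring⟩
        · exact ⟨h3, h4⟩
      · rintro ⟨h3, h4⟩
        by_cases h5 : H r = 0
        · left
          rw [h5, mul_zero, add_zero] at h4
          rcases hL0mem r h3 h5 with rfl | rfl | rfl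
          · rw [hXa, mul_zero] at h4
            exact absurd h4.symm htc0
          · rw [hXb] at h4
            exfalso
            linarith
          · rfl
        · exact Or.inr ⟨h3, h5, h4⟩
    rw [h2]
    exact upper_mem_lns hcS (hFm i).1 hne
  -- the two families of lines
  have e1 : dsum α v {t | t ≠ 0 ∧ t ≠ tc} =
      ∑ L ∈ (fam α v {t | t ≠ 0 ∧ t ≠ tc}).image (fun K => K.map val), wt L.card := by
    rw [Finset.sum_image]
    · simp only [Finset.card_map]
      rfl
    · intro K _ K' _ h
      exact Finset.map_injective val h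
  have e2 : csum α v tc = ∑ L ∈ (Finset.univ.image (fun i => α i * tc - v i)).image
      (fun y => insert c ((cls α v tc y).map val)), wt L.card := by
    rw [Finset.sum_image]
    · unfold csum
      apply Finset.sum_congr rfl
      intro y _
      rw [Finset.card_insert_of_notMem (hcn y), Finset.card_map]
    · intro y hy y' _ h
      obtain ⟨i, -, hi⟩ := Finset.mem_image.mp hy
      have h1 : i.1 ∈ (cls α v tc y).map val :=
        (hcls _ _ _).mpr ⟨(hFm i).1, (hFm i).2, (hαv i tc y).mp hi⟩
      have h2 : i.1 ∈ insert c ((cls α v tc y').map val) := by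
        have h' : insert c ((cls α v tc y).map val) = insert c ((cls α v tc y').map val) := h
        rw [← h']
        exact Finset.mem_insert_of_mem h1
      rcases Finset.mem_insert.mp h2 with h3 | h3
      · exfalso
        apply (hFm i).2
        rw [h3, hHc]
      · have h4 := ((hcls _ _ _).mp h3).2.2
        rw [← hi, ← (hαv i tc y').mpr h4]
  have hdis : Disjoint ((fam α v {t | t ≠ 0 ∧ t ≠ tc}).image (fun K => K.map val))
      ((Finset.univ.image (fun i => α i * tc - v i)).image
      (fun y => insert c ((cls α v tc y).map val))) := by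
    rw [Finset.disjoint_left]
    intro L h1 h2
    obtain ⟨K, hK, rfl⟩ := Finset.mem_image.mp h1
    obtain ⟨y, -, hy⟩ := Finset.mem_image.mp h2
    apply (hfirst K hK).2
    have hy' : insert c ((cls α v tc y).map val) = K.map val := hy
    rw [← hy']
    exact Finset.mem_insert_self _ _
  refine hcfg.false hcard htc0 ?_
  rw [e1, e2, ← Finset.sum_union hdis]
  refine le_trans (Finset.sum_le_sum_of_subset ?_) hwt
  intro L hL
  rcases Finset.mem_union.mp hL with h | h
  · obtain ⟨K, hK, rfl⟩ := Finset.mem_image.mp h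
    exact (hfirst K hK).1
  · obtain ⟨y, hy, rfl⟩ := Finset.mem_image.mp h
    exact hsecond y hy

theorem ncard_heavyLines_le {S : Finset (EuclideanSpace ℝ (Fin 2))} (hS : S.card = 15) :
    (heavyLines S).ncard ≤ 31 := by
  by_contra hlt
  push Not at hlt
  rw [ncard_heavyLines] at hlt
  have h := linSp_lns S
  have hwt := h.sum_wt_le hS hlt
  obtain ⟨a, ha, b, hb, hab, hca, hcb⟩ := h.exists_clean hS hwt
  exact lns_false hS hwt ha hb hab hca hcb

end Pool.Agent.Lib.MP_214199_co
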